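import Pool.Agent.ASC.PMSC

/-!
# ASC.Class: the mean square for a residue class

`PB M b L τ` is the part of `ASI.P L τ` with `n ≡ b (mod M)`.

PROOF. `PB_triv`, `PB_cont`: as `ASI.P_triv`, `ASI.P_cont` (the terms are bounded in the same way). `PB_mean_sq`: for `b` coprime to `M`
orthogonality (Mathlib: `DirichletCharacter.sum_char_inv_mul_char_eq`; as in
`ArithmeticFunction.vonMangoldt.residueClass_apply`):
`φ(M) PB M b L τ = ∑_χ χ(b⁻¹) P χ L τ`. For `χ ≠ 1` use `ASC.P_mean_sq`. For `χ = 1`: `P 1 L τ = ASI.P L τ - R`, where `R` is the sum over the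
`n` not coprime to `M`, i.e. over the powers `p^j` of the primes `p ∣ M`:
`‖R‖ ≤ ∑_{p ∣ M} ∑_{j ≥ 1} (log p) exp(-x - (x-L)²/8)`, `x = j log p`, and `-x - (x-L)²/8 = -(x-L+4)²/8 - L + 2`, so
`‖R‖ ≤ C(M) exp(-L)` (a Gaussian sum over the points `x ∈ ℕ log p` is bounded by a constant), and the integral of `‖R‖²` over
`|τ| ≤ exp(L/2)` is at most `2 C² exp(-3L/2)`. `ASI.P_mean_sq` for `ASI.P - mainT`. Cauchy-Schwarz for the sum of the `φ(M)`
functions (use exponent `A + 1` for each of them and `L` large).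
-/

namespace ASC

open MeasureTheory ArithmeticFunction ASI

/-- The Dirichlet series of the primes in the class of `b`. -/
noncomputable def PB (M b : ℕ) (L τ : ℝ) : ℂ :=
  ∑' n : ℕ, (if n ≡ b [MOD M] then (vonMangoldt n : ℂ) * np n τ * (ps L (Real.log n) : ℝ) else 0)

private theorem Class_np_norm (n : ℕ) (τ : ℝ) : ‖np n τ‖ = 1 / n := by
  unfold np
  rcases Nat.eq_zero_or_pos n with h | h
  · subst h
    rw [Nat.cast_zero, Complex.zero_cpow]
    · simp
    · intro h0
      have := congrArg Complex.re h0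
      simp at this
  · rw [Complex.norm_natCast_cpow_of_pos h]
    have : (-(1 + (τ : ℂ) * Complex.I)).re = -1 := by simp
    rw [this, Real.rpow_neg_one, one_div]

private noncomputable def Class_a (n : ℕ) : ℝ :=
  (n.divisors.card : ℝ) ^ 2 * (1 + Real.log n) ^ 2 / n

private theorem Class_a_nonneg (n : ℕ) : 0 ≤ Class_a n := by
  unfold Class_a
  positivity

private theorem Class_term (n : ℕ) (τ : ℝ) :
    ‖(vonMangoldt n : ℂ) * np n τ‖ ≤ Class_a n := by
  rw [norm_mul, Class_np_norm, Complex.norm_real, Real.norm_of_nonneg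
    ArithmeticFunction.vonMangoldt_nonneg]
  unfold Class_a
  rcases Nat.eq_zero_or_pos n with h | h
  · subst h
    simp
  · have h1 : (1 : ℝ) ≤ n := by exact_mod_cast h
    have h2 : 0 ≤ Real.log n := Real.log_nonneg h1
    have h3 : ArithmeticFunction.vonMangoldt n ≤ Real.log n :=
      ArithmeticFunction.vonMangoldt_le_log
    have h4 : (1 : ℝ) ≤ n.divisors.card := by
      have : 0 < n.divisors.card := Finset.card_pos.mpr ⟨1, Nat.one_mem_divisors.mpr h.ne'⟩
      exact_mod_cast this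
    have h5 : Real.log n ≤ (n.divisors.card : ℝ) ^ 2 * (1 + Real.log n) ^ 2 := by
      have h6 : (1 : ℝ) ≤ (n.divisors.card : ℝ) ^ 2 := one_le_pow₀ h4
      nlinarith [sq_nonneg (Real.log n)]
    rw [mul_one_div]
    exact div_le_div_of_nonneg_right (h3.trans h5) (by positivity)

private theorem Class_np_cont (n : ℕ) : Continuous (fun τ : ℝ => np n τ) := by
  unfold np
  rw [continuous_iff_continuousAt]
  intro τ
  refine ContinuousAt.const_cpow ?_ (Or.inr ?_)
  · fun_prop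
  · intro h0
    have := congrArg Complex.re h0
    simp at this

private theorem Class_sum : ∃ C : ℝ, 1 ≤ C ∧ ∀ y : ℝ,
    Summable (fun n : ℕ => Class_a n * Real.exp (-(Real.log n - y) ^ 2 / 16)) ∧
    ∑' n : ℕ, Class_a n * Real.exp (-(Real.log n - y) ^ 2 / 16) ≤ C * (1 + |y|) ^ 6 := by
  obtain ⟨C, hC, h⟩ := div_gauss
  exact ⟨C, hC, fun y => ⟨(h y).1, (h y).2.1⟩⟩

private theorem Class_summand (L : ℝ) (n : ℕ) (τ : ℝ) :
    ‖(vonMangoldt n : ℂ) * np n τ * (ps L (Real.log n) : ℝ)‖ ≤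
      Class_a n * Real.exp (-(Real.log n - L) ^ 2 / 16) := by
  rw [norm_mul, Complex.norm_real, Real.norm_of_nonneg
    (show 0 ≤ ps L (Real.log n) from (Real.exp_pos _).le)]
  refine mul_le_mul (Class_term n τ) ?_ (Real.exp_pos _).le (Class_a_nonneg n)
  unfold ps
  apply Real.exp_le_exp.mpr
  nlinarith [sq_nonneg (Real.log n - L)]

private theorem Class_ite (M b : ℕ) (L : ℝ) (n : ℕ) (τ : ℝ) :
    ‖(if n ≡ b [MOD M] then (vonMangoldt n : ℂ) * np n τ * (ps L (Real.log n) : ℝ) else 0)‖ ≤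
      Class_a n * Real.exp (-(Real.log n - L) ^ 2 / 16) := by
  split_ifs with h
  · exact Class_summand L n τ
  · rw [norm_zero]
    exact mul_nonneg (Class_a_nonneg n) (Real.exp_pos _).le

theorem PB_triv (M b : ℕ) : ∃ C : ℝ, 1 ≤ C ∧ ∀ L τ : ℝ, ‖PB M b L τ‖ ≤ C * (1 + |L|) ^ 6 := by
  obtain ⟨C, hC, h⟩ := Class_sum
  refine ⟨C, hC, fun L τ => ?_⟩
  obtain ⟨h1, h2⟩ := h L
  refine le_trans ?_ h2
  unfold PB
  exact tsum_of_norm_bounded h1.hasSum fun n => Class_ite M b L n τ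

theorem PB_cont (M b : ℕ) (L : ℝ) : Continuous (PB M b L) := by
  obtain ⟨C, hC, h⟩ := Class_sum
  unfold PB
  refine continuous_tsum (fun n => ?_) (h L).1 fun n τ => Class_ite M b L n τ
  split_ifs
  · exact (continuous_const.mul (Class_np_cont n)).mul continuous_const
  · exact continuous_const

private theorem Class_main_cont (L : ℝ) : Continuous (mainT L) := by
  unfold mainT
  fun_prop

/-- the terms of `P χ` -/
private theorem Class_chi_term {M : ℕ} (χ : DirichletCharacter ℂ M) (L : ℝ) (n : ℕ) (τ : ℝ) :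
    (vonMangoldt n : ℂ) * nc χ n τ * (ps L (Real.log n) : ℝ) =
      χ n * ((vonMangoldt n : ℂ) * np n τ * (ps L (Real.log n) : ℝ)) := by
  unfold nc np
  ring

private theorem Class_chi_norm {M : ℕ} (χ : DirichletCharacter ℂ M) (L : ℝ) (n : ℕ) (τ : ℝ) :
    ‖(vonMangoldt n : ℂ) * nc χ n τ * (ps L (Real.log n) : ℝ)‖ ≤
      Class_a n * Real.exp (-(Real.log n - L) ^ 2 / 16) := by
  rw [Class_chi_term, norm_mul]
  exact (mul_le_of_le_one_left (norm_nonneg _) (DirichletCharacter.norm_le_one χ _)).trans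
    (Class_summand L n τ)

private theorem Class_chi_summable {M : ℕ} (χ : DirichletCharacter ℂ M) (L τ : ℝ) :
    Summable (fun n : ℕ => (vonMangoldt n : ℂ) * nc χ n τ * (ps L (Real.log n) : ℝ)) := by
  obtain ⟨C, hC, h⟩ := Class_sum
  exact Summable.of_norm_bounded (h L).1 fun n => Class_chi_norm χ L n τ

private theorem Class_P_summable (L τ : ℝ) :
    Summable (fun n : ℕ => (vonMangoldt n : ℂ) * np n τ * (ps L (Real.log n) : ℝ)) := by
  obtain ⟨C, hC, h⟩ := Class_sum
  exact Summable.of_norm_bounded (h L).1 fun n => Class_summand L n τ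

/-- orthogonality -/
private theorem Class_orth {M : ℕ} [NeZero M] {b : ℕ} (hb : b.Coprime M) (L τ : ℝ) :
    (Nat.totient M : ℂ) * PB M b L τ =
      ∑ χ : DirichletCharacter ℂ M, χ ((b : ZMod M)⁻¹) * P χ L τ := by
  unfold PB P
  have hu : IsUnit (b : ZMod M) := (ZMod.isUnit_iff_coprime b M).2 hb
  have h1 : ∀ χ : DirichletCharacter ℂ M, χ ((b : ZMod M)⁻¹) *
      ∑' n : ℕ, (vonMangoldt n : ℂ) * nc χ n τ * (ps L (Real.log n) : ℝ) =
      ∑' n : ℕ, χ ((b : ZMod M)⁻¹) *
        ((vonMangoldt n : ℂ) * nc χ n τ * (ps L (Real.log n) : ℝ)) := fun χ => by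
    rw [tsum_mul_left]
  simp only [h1]
  rw [← tsum_mul_left, ← Summable.tsum_finsetSum fun χ _ => (Class_chi_summable χ L τ).mul_left _]
  refine tsum_congr fun n => ?_
  have h2 := DirichletCharacter.sum_char_inv_mul_char_eq ℂ hu (n : ZMod M)
  have h3 : ((b : ZMod M) = (n : ZMod M)) ↔ n ≡ b [MOD M] := by
    rw [ZMod.natCast_eq_natCast_iff]
    exact ⟨fun h => h.symm, fun h => h.symm⟩
  have h4 : ∑ χ : DirichletCharacter ℂ M, χ ((b : ZMod M)⁻¹) *
      ((vonMangoldt n : ℂ) * nc χ n τ * (ps L (Real.log n) : ℝ)) =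
      (∑ χ : DirichletCharacter ℂ M, χ ((b : ZMod M)⁻¹) * χ (n : ZMod M)) *
        ((vonMangoldt n : ℂ) * np n τ * (ps L (Real.log n) : ℝ)) := by
    rw [Finset.sum_mul]
    refine Finset.sum_congr rfl fun χ _ => ?_
    rw [Class_chi_term]
    ring
  rw [h4, h2]
  by_cases h : n ≡ b [MOD M]
  · rw [if_pos h, if_pos (h3.2 h)]
  · rw [if_neg h, if_neg (fun h' => h (h3.1 h'))]
    simp

/-- the powers of one prime -/
private theorem Class_pow_summable {p : ℕ} (hp : p.Prime) (c : ℝ) :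
    Summable (Set.indicator (Set.range (fun j : ℕ => p ^ j))
      (fun n : ℕ => c * Real.exp (-(Real.log n) / 4))) := by
  have hinj : Function.Injective (fun j : ℕ => p ^ j) := Nat.pow_right_injective hp.two_le
  rw [← hinj.summable_iff]
  · have h1 : ((Set.indicator (Set.range (fun j : ℕ => p ^ j))
      (fun n : ℕ => c * Real.exp (-(Real.log n) / 4))) ∘ fun j : ℕ => p ^ j) =
        fun j : ℕ => c * (Real.exp (-(Real.log p) / 4)) ^ j := by
      funext j
      simp only [Function.comp]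
      rw [Set.indicator_of_mem (Set.mem_range_self j), ← Real.exp_nat_mul, Nat.cast_pow, Real.log_pow]
      congr 2
      ring
    rw [h1]
    refine Summable.mul_left _ (summable_geometric_of_lt_one (Real.exp_pos _).le ?_)
    rw [Real.exp_lt_one_iff]
    have : 0 < Real.log p := Real.log_pos (by exact_mod_cast hp.one_lt)
    linarith
  · intro n hn
    exact Set.indicator_of_notMem hn _

private noncomputable def Class_f (M n : ℕ) : ℝ :=
  if n.Coprime M then 0 else vonMangoldt n * Real.exp (-(Real.log n) / 4)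

private theorem Class_f_nonneg (M n : ℕ) : 0 ≤ Class_f M n := by
  unfold Class_f
  split_ifs
  · exact le_rfl
  · exact mul_nonneg vonMangoldt_nonneg (Real.exp_pos _).le

private theorem Class_f_summable {M : ℕ} (hM : 0 < M) : Summable (Class_f M) := by
  have hs := summable_sum (s := M.primeFactors) (f := fun p : ℕ =>
    Set.indicator (Set.range (fun j : ℕ => p ^ j))
      (fun n : ℕ => Real.log p * Real.exp (-(Real.log n) / 4)))
    (fun p hp => Class_pow_summable (Nat.prime_of_mem_primeFactors hp) _)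
  have h0 : ∀ p : ℕ, ∀ n : ℕ, 0 ≤ Set.indicator (Set.range (fun j : ℕ => p ^ j))
      (fun n : ℕ => Real.log p * Real.exp (-(Real.log n) / 4)) n := fun p n =>
    Set.indicator_nonneg (fun n _ => mul_nonneg (Real.log_natCast_nonneg p) (Real.exp_pos _).le) n
  refine Summable.of_nonneg_of_le (Class_f_nonneg M) (fun n => ?_) hs
  unfold Class_f
  split_ifs with hc
  · exact Finset.sum_nonneg fun p _ => h0 p n
  · by_cases hΛ : vonMangoldt n = 0
    · rw [hΛ, zero_mul]
      exact Finset.sum_nonneg fun p _ => h0 p n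
    · rw [← ne_eq, vonMangoldt_ne_zero_iff, isPrimePow_nat_iff] at hΛ
      obtain ⟨p, k, hp, hk, rfl⟩ := hΛ
      have hpM : p ∣ M := by
        by_contra h
        exact hc (Nat.Coprime.pow_left k ((Nat.Prime.coprime_iff_not_dvd hp).2 h))
      have hmem : p ∈ M.primeFactors := Nat.mem_primeFactors.2 ⟨hp, hpM, hM.ne'⟩
      refine le_trans (le_of_eq ?_) (Finset.single_le_sum (f := fun q : ℕ =>
        Set.indicator (Set.range (fun j : ℕ => q ^ j))
        (fun n : ℕ => Real.log q * Real.exp (-(Real.log n) / 4)) (p ^ k))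
        (fun q _ => h0 q (p ^ k)) hmem)
      rw [Set.indicator_of_mem (Set.mem_range_self k), vonMangoldt_apply_pow hk.ne', vonMangoldt_apply_prime hp]

/-- the terms which are not coprime to the modulus -/
private theorem Class_R {M : ℕ} (hM : 0 < M) : ∃ C : ℝ, 0 ≤ C ∧ ∀ L τ : ℝ, 0 ≤ L →
    ‖ASI.P L τ - P (1 : DirichletCharacter ℂ M) L τ‖ ≤ C * Real.exp (-(L / 2)) := by
  have hs := Class_f_summable hM
  refine ⟨Real.exp (9 / 8) * ∑' n, Class_f M n,
    mul_nonneg (Real.exp_pos _).le (tsum_nonneg (Class_f_nonneg M)), fun L τ hL => ?_⟩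
  unfold ASI.P P
  rw [← Summable.tsum_sub (Class_P_summable L τ) (Class_chi_summable _ L τ)]
  have hS : HasSum (fun n => (Real.exp (9 / 8) * Real.exp (-(L / 2))) * Class_f M n)
      ((Real.exp (9 / 8) * Real.exp (-(L / 2))) * ∑' n, Class_f M n) := hs.hasSum.mul_left _
  have h1 := tsum_of_norm_bounded (f := fun n : ℕ =>
    (vonMangoldt n : ℂ) * np n τ * (ps L (Real.log n) : ℝ) -
      (vonMangoldt n : ℂ) * nc (1 : DirichletCharacter ℂ M) n τ * (ps L (Real.log n) : ℝ)) hS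
    (fun n => ?_)
  · refine h1.trans (le_of_eq ?_)
    ring
  · rw [Class_chi_term]
    unfold Class_f
    split_ifs with hc
    · rw [MulChar.one_apply ((ZMod.isUnit_iff_coprime n M).2 hc)]
      simp
    · rw [MulChar.map_nonunit _ (fun h => hc ((ZMod.isUnit_iff_coprime n M).1 h)), zero_mul,
        sub_zero]
      rcases Nat.eq_zero_or_pos n with h | h
      · subst h
        simp
      · have hx : (0 : ℝ) < n := by exact_mod_cast h
        rw [norm_mul, norm_mul, Class_np_norm, Complex.norm_real, Complex.norm_real,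
          Real.norm_of_nonneg vonMangoldt_nonneg,
          Real.norm_of_nonneg (show 0 ≤ ps L (Real.log n) from (Real.exp_pos _).le)]
        have e1 : (1 : ℝ) / n = Real.exp (-Real.log n) := by
          rw [Real.exp_neg, Real.exp_log hx, one_div]
        rw [e1]
        unfold ps
        have e2 : vonMangoldt n * Real.exp (-Real.log n) * Real.exp (-(Real.log n - L) ^ 2 / 8) =
            vonMangoldt n * Real.exp (-Real.log n + -(Real.log n - L) ^ 2 / 8) := by
          rw [Real.exp_add]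
          ring
        have e3 : Real.exp (9 / 8) * Real.exp (-(L / 2)) *
            (vonMangoldt n * Real.exp (-Real.log n / 4)) =
            vonMangoldt n * Real.exp (9 / 8 + -(L / 2) + -Real.log n / 4) := by
          rw [Real.exp_add, Real.exp_add]
          ring
        rw [e2, e3]
        refine mul_le_mul_of_nonneg_left (Real.exp_le_exp.2 ?_) vonMangoldt_nonneg
        nlinarith [sq_nonneg (Real.log n - L + 3)]

private theorem Class_sq {E : Type*} [NormedAddCommGroup E] (s a r : E) :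
    ‖s + a - r‖ ^ 2 ≤ 3 * (‖s‖ ^ 2 + ‖a‖ ^ 2 + ‖r‖ ^ 2) := by
  have h1 : ‖s + a - r‖ ≤ ‖s‖ + ‖a‖ + ‖r‖ := (norm_sub_le _ _).trans (by
    have := norm_add_le s a
    linarith)
  have h2 : ‖s + a - r‖ ^ 2 ≤ (‖s‖ + ‖a‖ + ‖r‖) ^ 2 := pow_le_pow_left₀ (norm_nonneg _) h1 2
  nlinarith [sq_nonneg (‖s‖ - ‖a‖), sq_nonneg (‖s‖ - ‖r‖), sq_nonneg (‖a‖ - ‖r‖)]

private theorem Class_point {M : ℕ} [NeZero M] {b : ℕ} (hb : b.Coprime M) (L τ : ℝ) :
    ‖PB M b L τ - mainT L τ / (Nat.totient M : ℂ)‖ ^ 2 ≤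
      3 * ((Fintype.card (DirichletCharacter ℂ M) : ℝ) *
        ∑ χ ∈ (Finset.univ : Finset (DirichletCharacter ℂ M)).erase 1, ‖P χ L τ‖ ^ 2 +
        ‖ASI.P L τ - mainT L τ‖ ^ 2 +
        ‖ASI.P L τ - P (1 : DirichletCharacter ℂ M) L τ‖ ^ 2) := by
  have hφ : 0 < Nat.totient M := Nat.totient_pos.2 (Nat.pos_of_ne_zero (NeZero.ne M))
  have hφ1 : (1 : ℝ) ≤ Nat.totient M := by exact_mod_cast hφ
  have hφ0 : (Nat.totient M : ℂ) ≠ 0 := by exact_mod_cast hφ.ne'
  have hu : IsUnit ((b : ZMod M)⁻¹) := by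
    have := ZMod.coe_mul_inv_eq_one b hb
    exact IsUnit.of_mul_eq_one _ (by rw [mul_comm]; exact this)
  set S : ℂ := ∑ χ ∈ (Finset.univ : Finset (DirichletCharacter ℂ M)).erase 1,
    χ ((b : ZMod M)⁻¹) * P χ L τ with hS
  have h1 : (Nat.totient M : ℂ) * PB M b L τ = P (1 : DirichletCharacter ℂ M) L τ + S := by
    rw [Class_orth hb, ← Finset.add_sum_erase _ _ (Finset.mem_univ (1 : DirichletCharacter ℂ M)),
      MulChar.one_apply hu, one_mul]
  have h2 : (Nat.totient M : ℂ) * (PB M b L τ - mainT L τ / (Nat.totient M : ℂ)) =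
      S + (ASI.P L τ - mainT L τ) - (ASI.P L τ - P (1 : DirichletCharacter ℂ M) L τ) := by
    rw [mul_sub, h1, mul_div_cancel₀ _ hφ0]
    ring
  have h3 : ‖PB M b L τ - mainT L τ / (Nat.totient M : ℂ)‖ ≤
      ‖S + (ASI.P L τ - mainT L τ) - (ASI.P L τ - P (1 : DirichletCharacter ℂ M) L τ)‖ := by
    rw [← h2, norm_mul, Complex.norm_natCast]
    exact le_mul_of_one_le_left (norm_nonneg _) hφ1
  have h4 : ‖S‖ ≤ ∑ χ ∈ (Finset.univ : Finset (DirichletCharacter ℂ M)).erase 1, ‖P χ L τ‖ := by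
    refine (norm_sum_le _ _).trans (Finset.sum_le_sum fun χ _ => ?_)
    rw [norm_mul]
    exact mul_le_of_le_one_left (norm_nonneg _) (DirichletCharacter.norm_le_one χ _)
  have h5 : ‖S‖ ^ 2 ≤ (Fintype.card (DirichletCharacter ℂ M) : ℝ) *
      ∑ χ ∈ (Finset.univ : Finset (DirichletCharacter ℂ M)).erase 1, ‖P χ L τ‖ ^ 2 := by
    refine (pow_le_pow_left₀ (norm_nonneg _) h4 2).trans (sq_sum_le_card_mul_sum_sq.trans ?_)
    refine mul_le_mul_of_nonneg_right ?_ (Finset.sum_nonneg fun χ _ => sq_nonneg _)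
    have : ((Finset.univ : Finset (DirichletCharacter ℂ M)).erase 1).card ≤
        Fintype.card (DirichletCharacter ℂ M) := by
      rw [← Finset.card_univ]
      exact Finset.card_le_card (Finset.erase_subset _ _)
    exact_mod_cast this
  have h6 := pow_le_pow_left₀ (norm_nonneg _) h3 2
  have h7 := Class_sq S (ASI.P L τ - mainT L τ)
    (ASI.P L τ - P (1 : DirichletCharacter ℂ M) L τ)
  linarith

theorem PB_mean_sq {M : ℕ} (hM : 0 < M) {b : ℕ} (hb : b.Coprime M) (A : ℝ) :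
    ∃ L0 : ℝ, 1 ≤ L0 ∧ ∀ L : ℝ, L0 ≤ L →
    ∫ τ in Set.Icc (-Real.exp (L / 2)) (Real.exp (L / 2)),
      ‖PB M b L τ - mainT L τ / (Nat.totient M : ℂ)‖ ^ 2 ≤ L ^ (-A) := by
  have : NeZero M := ⟨hM.ne'⟩
  obtain ⟨C, hC, hR⟩ := Class_R hM
  set K : ℝ := (Fintype.card (DirichletCharacter ℂ M) : ℝ) with hK
  have hK0 : 0 ≤ K := Nat.cast_nonneg _
  have e1 : ∀ᶠ L : ℝ in Filter.atTop, ∀ χ : DirichletCharacter ℂ M, χ ≠ 1 →
      ∫ τ in Set.Icc (-Real.exp (L / 2)) (Real.exp (L / 2)), ‖P χ L τ‖ ^ 2 ≤ L ^ (-(A + 1)) := by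
    rw [Filter.eventually_all]
    intro χ
    by_cases h : χ = 1
    · exact Filter.Eventually.of_forall fun L h' => absurd h h'
    · obtain ⟨L0, -, h0⟩ := P_mean_sq h (A + 1)
      exact (Filter.eventually_ge_atTop L0).mono fun L hL _ => h0 L hL
  have e2 : ∀ᶠ L : ℝ in Filter.atTop,
      ∫ τ in Set.Icc (-Real.exp (L / 2)) (Real.exp (L / 2)), ‖ASI.P L τ - mainT L τ‖ ^ 2 ≤
        L ^ (-(A + 1)) := by
    obtain ⟨L0, -, h0⟩ := ASI.P_mean_sq (A + 1)
    exact (Filter.eventually_ge_atTop L0).mono fun L hL => h0 L hL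
  have e3 : ∀ᶠ L : ℝ in Filter.atTop, 6 * C ^ 2 * (L ^ A * Real.exp (-(1 / 2) * L)) ≤ 1 / 2 := by
    have := (tendsto_rpow_mul_exp_neg_mul_atTop_nhds_zero A (1 / 2)
      (by norm_num)).const_mul (6 * C ^ 2)
    rw [mul_zero] at this
    exact this.eventually_le_const (by norm_num)
  obtain ⟨L1, hL1⟩ := Filter.eventually_atTop.1 (e1.and (e2.and e3))
  refine ⟨max L1 (max 1 (6 * (K * K + 1))), (le_max_left 1 _).trans (le_max_right _ _),
    fun L hL => ?_⟩
  obtain ⟨g1, g2, g3⟩ := hL1 L ((le_max_left _ _).trans hL)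
  have hL0 : 1 ≤ L := ((le_max_left _ _).trans (le_max_right _ _)).trans hL
  have hLK : 6 * (K * K + 1) ≤ L := ((le_max_right _ _).trans (le_max_right _ _)).trans hL
  have hLp : 0 < L := by linarith
  set T := Real.exp (L / 2) with hT
  have hTp : 0 < T := Real.exp_pos _
  have hLA : 0 < L ^ (-A) := Real.rpow_pos_of_pos hLp _
  set I : Set ℝ := Set.Icc (-T) T with hI
  have hvol : volume.real I = 2 * T := by
    rw [hI, Real.volume_real_Icc_of_le (by linarith)]
    ring
  have cP : ∀ χ : DirichletCharacter ℂ M, Continuous fun τ => ‖P χ L τ‖ ^ 2 := fun χ =>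
    ((P_cont χ L).norm).pow 2
  have cA : Continuous fun τ => ‖ASI.P L τ - mainT L τ‖ ^ 2 :=
    (((ASI.P_cont L).sub (Class_main_cont L)).norm).pow 2
  have cR : Continuous fun τ => ‖ASI.P L τ - P (1 : DirichletCharacter ℂ M) L τ‖ ^ 2 :=
    (((ASI.P_cont L).sub (P_cont _ L)).norm).pow 2
  have cB : Continuous fun τ => ‖PB M b L τ - mainT L τ / (Nat.totient M : ℂ)‖ ^ 2 :=
    (((PB_cont M b L).sub ((Class_main_cont L).div_const _)).norm).pow 2
  have iI : ∀ f : ℝ → ℝ, Continuous f → IntegrableOn f I := fun f hf =>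
    hf.continuousOn.integrableOn_Icc
  have iS : IntegrableOn (fun τ => K *
      ∑ χ ∈ (Finset.univ : Finset (DirichletCharacter ℂ M)).erase 1, ‖P χ L τ‖ ^ 2) I :=
    iI _ (continuous_const.mul (continuous_finsetSum _ fun χ _ => cP χ))
  have h1 : ∫ τ in I, ‖PB M b L τ - mainT L τ / (Nat.totient M : ℂ)‖ ^ 2 ≤
      ∫ τ in I, 3 * (K *
        ∑ χ ∈ (Finset.univ : Finset (DirichletCharacter ℂ M)).erase 1, ‖P χ L τ‖ ^ 2 +
        ‖ASI.P L τ - mainT L τ‖ ^ 2 +
        ‖ASI.P L τ - P (1 : DirichletCharacter ℂ M) L τ‖ ^ 2) := by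
    refine setIntegral_mono (iI _ cB) ?_ fun τ => Class_point hb L τ
    exact ((iS.add (iI _ cA)).add (iI _ cR)).const_mul 3
  have iSA : IntegrableOn (fun τ => K *
      ∑ χ ∈ (Finset.univ : Finset (DirichletCharacter ℂ M)).erase 1, ‖P χ L τ‖ ^ 2 +
        ‖ASI.P L τ - mainT L τ‖ ^ 2) I := iS.add (iI _ cA)
  rw [integral_const_mul, integral_add iSA (iI _ cR), integral_add iS (iI _ cA),
    integral_const_mul, integral_finsetSum _ fun χ _ => iI _ (cP χ)] at h1
  have h2 : ∑ χ ∈ (Finset.univ : Finset (DirichletCharacter ℂ M)).erase 1,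
      ∫ τ in I, ‖P χ L τ‖ ^ 2 ≤ K * L ^ (-(A + 1)) := by
    have : ∑ χ ∈ (Finset.univ : Finset (DirichletCharacter ℂ M)).erase 1,
        ∫ τ in I, ‖P χ L τ‖ ^ 2 ≤
        ∑ χ ∈ (Finset.univ : Finset (DirichletCharacter ℂ M)).erase 1, L ^ (-(A + 1)) :=
      Finset.sum_le_sum fun χ hχ => g1 χ (Finset.ne_of_mem_erase hχ)
    refine this.trans ?_
    rw [Finset.sum_const, nsmul_eq_mul]
    refine mul_le_mul_of_nonneg_right ?_ (Real.rpow_pos_of_pos hLp _).le
    have : ((Finset.univ : Finset (DirichletCharacter ℂ M)).erase 1).card ≤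
        Fintype.card (DirichletCharacter ℂ M) := by
      rw [← Finset.card_univ]
      exact Finset.card_le_card (Finset.erase_subset _ _)
    rw [hK]
    exact_mod_cast this
  have h3 : ∫ τ in I, ‖ASI.P L τ - P (1 : DirichletCharacter ℂ M) L τ‖ ^ 2 ≤
      2 * T * (C ^ 2 * Real.exp (-L)) := by
    have : ∫ τ in I, ‖ASI.P L τ - P (1 : DirichletCharacter ℂ M) L τ‖ ^ 2 ≤
        ∫ τ in I, C ^ 2 * Real.exp (-L) := by
      refine setIntegral_mono (iI _ cR) (iI _ continuous_const) fun τ => ?_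
      refine (pow_le_pow_left₀ (norm_nonneg _) (hR L τ hLp.le) 2).trans (le_of_eq ?_)
      rw [mul_pow, ← Real.exp_nat_mul]
      congr 2
      push_cast
      ring
    rwa [setIntegral_const, hvol, smul_eq_mul] at this
  have e4 : L ^ (-(A + 1)) = L ^ (-A) * L⁻¹ := by
    rw [neg_add, Real.rpow_add hLp, Real.rpow_neg_one]
  have e5 : T * Real.exp (-L) = Real.exp (-(1 / 2) * L) := by
    rw [hT, ← Real.exp_add]
    congr 1
    ring
  have h4 : 6 * C ^ 2 * Real.exp (-(1 / 2) * L) ≤ L ^ (-A) / 2 := by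
    have c1 : L ^ (-A) * (6 * C ^ 2 * (L ^ A * Real.exp (-(1 / 2) * L))) ≤ L ^ (-A) * (1 / 2) :=
      mul_le_mul_of_nonneg_left g3 hLA.le
    have c2 : L ^ (-A) * L ^ A = 1 := by
      rw [← Real.rpow_add hLp]
      simp
    have c3 : L ^ (-A) * (6 * C ^ 2 * (L ^ A * Real.exp (-(1 / 2) * L))) =
        6 * C ^ 2 * Real.exp (-(1 / 2) * L) * (L ^ (-A) * L ^ A) := by ring
    rw [c3, c2, mul_one] at c1
    linarith
  have h5 : 3 * ((K * K + 1) * L⁻¹) ≤ 1 / 2 := by
    rw [← div_eq_mul_inv, ← mul_div_assoc, div_le_iff₀ hLp]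
    linarith
  have h6 : 3 * (K * (K * L ^ (-(A + 1))) + L ^ (-(A + 1))) ≤ L ^ (-A) / 2 := by
    calc 3 * (K * (K * L ^ (-(A + 1))) + L ^ (-(A + 1)))
        = L ^ (-A) * (3 * ((K * K + 1) * L⁻¹)) := by
          rw [e4]
          ring
      _ ≤ L ^ (-A) * (1 / 2) := mul_le_mul_of_nonneg_left h5 hLA.le
      _ = L ^ (-A) / 2 := by ring
  have h7 := mul_le_mul_of_nonneg_left h2 hK0
  have h8 : 3 * (2 * T * (C ^ 2 * Real.exp (-L))) = 6 * C ^ 2 * Real.exp (-(1 / 2) * L) := by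
    rw [← e5]
    ring
  linarith

end ASC
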