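import Pool.Agent.VKC.PrimeC
import Pool.Agent.ASI.Short

/-!
# ASC: primes in residue classes in almost all short intervals of length `x^θ`, `θ > 1/2`

Character version of `Pool.Agent.ASI`. `P χ L τ = ∑ Λ(n) χ(n) n^(-1-iτ) exp(-(log n - L)²/8)`. Main results:
`ASC.P_mean_sq` (for `χ ≠ 1` the integral of `|P|²` over `|τ| ≤ exp(L/2)` is at most `L^(-A)`), `ASC.short_ms` (Gaussian
windows, residue classes), `ASC.short_class` (sharp windows). The modulus `M` is fixed; the constants may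
depend on `M` and `χ`. The weights `ps`, `hL`, `hM`, `bt` are those of `ASI`.
-/

namespace ASC

open MeasureTheory ArithmeticFunction ASI

/-- `χ(n) n^(-1-iτ)`. -/
noncomputable def nc {M : ℕ} (χ : DirichletCharacter ℂ M) (n : ℕ) (τ : ℝ) : ℂ :=
  χ n * (n : ℂ) ^ (-(1 + τ * Complex.I))

/-- The Dirichlet series of the primes with the Gaussian weight, twisted. -/
noncomputable def P {M : ℕ} (χ : DirichletCharacter ℂ M) (L τ : ℝ) : ℂ :=
  ∑' n : ℕ, (vonMangoldt n : ℂ) * nc χ n τ * (ps L (Real.log n) : ℝ)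

/-- The type II sum. -/
noncomputable def T4 {M : ℕ} (χ : DirichletCharacter ℂ M) (L U τ : ℝ) : ℂ :=
  ∑' q : ℕ × ℕ, ((vonMangoldt q.1 * hL U (Real.log q.1) * bt U q.2 : ℝ) : ℂ) * nc χ q.1 τ * nc χ q.2 τ *
    (ps L (Real.log q.1 + Real.log q.2) : ℝ)

/-- The factor with `Λ`. -/
noncomputable def As {M : ℕ} (χ : DirichletCharacter ℂ M) (U c τ : ℝ) : ℂ :=
  ∑' m : ℕ, ((vonMangoldt m * hL U (Real.log m) : ℝ) : ℂ) * nc χ m τ *
    (Real.exp (-(Real.log m - c) ^ 2 / 4) : ℝ)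

/-- The factor with `(μ h')*1`. -/
noncomputable def Bs {M : ℕ} (χ : DirichletCharacter ℂ M) (U y τ : ℝ) : ℂ :=
  ∑' k : ℕ, (bt U k : ℂ) * nc χ k τ * (Real.exp (-(Real.log k - y) ^ 2 / 4) : ℝ)

/-- The primes in the class of `b`, Gaussian window of width `δ` at `u`. -/
noncomputable def FB (M b : ℕ) (δ L u : ℝ) : ℝ :=
  ∑' n : ℕ, (if n ≡ b [MOD M] then vonMangoldt n / n * ps L (Real.log n) *
    Real.exp (-(Real.log n - u) ^ 2 / (2 * δ ^ 2)) else 0)

theorem nc_mul {M : ℕ} (χ : DirichletCharacter ℂ M) (m n : ℕ) (τ : ℝ) :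
    nc χ (m * n) τ = nc χ m τ * nc χ n τ := by
  unfold nc
  push_cast
  rw [map_mul, Complex.natCast_mul_natCast_cpow]
  ring

theorem nc_norm {M : ℕ} (χ : DirichletCharacter ℂ M) (n : ℕ) (τ : ℝ) : ‖nc χ n τ‖ ≤ (n : ℝ)⁻¹ := by
  unfold nc
  rcases Nat.eq_zero_or_pos n with h | h
  · subst h
    have h0 : (-(1 + (τ : ℂ) * Complex.I)) ≠ 0 := by
      intro h0
      have := congrArg Complex.re h0
      simp at this
    simp only [Nat.cast_zero]
    rw [Complex.zero_cpow h0, mul_zero, norm_zero]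
    simp
  · rw [norm_mul, Complex.norm_natCast_cpow_of_pos h]
    have h1 : (-(1 + (τ : ℂ) * Complex.I)).re = -1 := by simp
    rw [h1, Real.rpow_neg_one]
    exact mul_le_of_le_one_left (by positivity) (DirichletCharacter.norm_le_one χ _)

end ASC
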