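import Pool.Agent.ASC.Sharp

/-!
# ASC.Final: primes in residue classes in almost all short intervals

PROOF. The coprime residues `b` modulo `M` are finitely many (only `b % M` matters), so a common `X0` exists. Given `h`, `X^th ≤ h ≤ X`, put
`J = ⌈(log X)^(A+3)⌉₊`, `h' = h/J`: `h' ≤ X/(log X)^(A+3)` and `h' ≥ X^th/(2 (log X)^(A+3)) ≥ X^th'`, `th' = (th + 1/2)/2`, for large `X`.
`SB M b y h = ∑_{j<J} SB M b (y + j h') h'` (consecutive intervals), so by Cauchy-Schwarz
`(SB M b y h - h/φ)² ≤ J ∑_{j<J} (SB M b (y + j h') h' - h'/φ)²`, and `y + j h' ∈ [X, 3X]` for `y ∈ [X, 2X]`. Integrate and shift: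
the left side is at most `J · J · X h'²/(log X)^A = X h²/(log X)^A` by `sharp` (with `th'`).
-/

namespace ASC

open MeasureTheory

private theorem final_add (M b : ℕ) (y : ℝ) {a c : ℝ} (ha : 0 ≤ a) (hc : 0 ≤ c) :
    SB M b y (a + c) = SB M b y a + SB M b (y + a) c := by
  unfold SB
  rw [Finset.sum_filter, Finset.sum_filter, Finset.sum_filter]
  have h1 : ⌊y⌋₊ ≤ ⌊y + a⌋₊ := Nat.floor_mono (by linarith)
  have h2 : ⌊y + a⌋₊ ≤ ⌊y + a + c⌋₊ := Nat.floor_mono (by linarith)
  rw [Finset.sum_Ioc_consecutive _ h1 h2, add_assoc]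

private theorem final_mod (M b : ℕ) (y h : ℝ) : SB M (b % M) y h = SB M b y h := by
  unfold SB
  have h1 : ∀ p : ℕ, (p.Prime ∧ p ≡ b % M [MOD M]) ↔ (p.Prime ∧ p ≡ b [MOD M]) := by
    intro p
    unfold Nat.ModEq
    rw [Nat.mod_mod]
  congr 1
  exact Finset.filter_congr (fun p _ => h1 p)

private theorem final_zero (M b : ℕ) (y : ℝ) : SB M b y 0 = 0 := by
  unfold SB
  simp

private theorem final_sum (M b : ℕ) (y : ℝ) {c : ℝ} (hc : 0 ≤ c) (n : ℕ) :
    SB M b y (n * c) = ∑ j ∈ Finset.range n, SB M b (y + j * c) c := by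
  induction n with
  | zero => simp [final_zero]
  | succ n ih =>
    rw [Finset.sum_range_succ, ← ih, ← final_add M b y (by positivity) hc]
    congr 1
    push_cast
    ring

private theorem final_big (A : ℕ) {s : ℝ} (hs : 0 < s) :
    ∀ᶠ X : ℝ in Filter.atTop, 2 * Real.log X ^ (A + 3) ≤ X ^ s := by
  have h := (isLittleO_log_rpow_rpow_atTop ((A + 3 : ℕ) : ℝ) hs)
  have h2 := h.def (show (0:ℝ) < 1/2 by norm_num)
  filter_upwards [h2, Filter.eventually_ge_atTop 1] with X hX hX1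
  have h3 : 0 ≤ Real.log X := Real.log_nonneg hX1
  rw [Real.rpow_natCast, Real.norm_of_nonneg (by positivity), Real.norm_of_nonneg (by positivity)] at hX
  linarith

private theorem final_int (M b : ℕ) {c : ℝ} (hc : 0 ≤ c) (q : ℝ) {u v : ℝ} (hu : 0 ≤ u) :
    IntegrableOn (fun y => (SB M b y c - q) ^ 2) (Set.Icc u v) := by
  have hbd : ∀ y ∈ Set.Icc u v, ‖(SB M b y c - q) ^ 2‖ ≤
      ((|v| + c + 1) * Real.log (|v| + c + 1) + |q|) ^ 2 := by
    intro y hy
    have h1 : SB M b y c ≤ (|v| + c + 1) * Real.log (|v| + c + 1) := by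
      apply SB_le M b _ (hu.trans hy.1) _ hc
      · have := abs_nonneg v
        linarith
      · have := le_abs_self v
        linarith [hy.2]
    have h2 := SB_nonneg M b y c
    rw [Real.norm_of_nonneg (sq_nonneg _)]
    have h3 : |SB M b y c - q| ≤ (|v| + c + 1) * Real.log (|v| + c + 1) + |q| := by
      calc |SB M b y c - q| ≤ |SB M b y c| + |q| := abs_sub _ _
        _ = SB M b y c + |q| := by rw [abs_of_nonneg h2]
        _ ≤ _ := by linarith
    rw [← sq_abs (SB M b y c - q)]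
    exact pow_le_pow_left₀ (abs_nonneg _) h3 2
  have hm : Measurable (fun y => (SB M b y c - q) ^ 2) := ((SB_meas M b c).sub_const q).pow_const 2
  exact Measure.integrableOn_of_bounded (by simp) hm.aestronglyMeasurable
    ((ae_restrict_iff' measurableSet_Icc).2 (Filter.Eventually.of_forall hbd))

private theorem final_shift (M b : ℕ) {c d : ℝ} (hc : 0 ≤ c) (q : ℝ) {X : ℝ} (hX : 0 ≤ X) (hd : 0 ≤ d)
    (hd' : d ≤ X) :
    ∫ y in Set.Icc X (2 * X), (SB M b (y + d) c - q) ^ 2 ≤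
      ∫ y in Set.Icc X (3 * X), (SB M b y c - q) ^ 2 := by
  have h1 : ∫ y in Set.Icc X (2 * X), (SB M b (y + d) c - q) ^ 2 =
      ∫ y in Set.Ioc (X + d) (2 * X + d), (SB M b y c - q) ^ 2 := by
    rw [integral_Icc_eq_integral_Ioc, ← intervalIntegral.integral_of_le (by linarith),
      ← intervalIntegral.integral_of_le (by linarith)]
    exact intervalIntegral.integral_comp_add_right (fun y => (SB M b y c - q) ^ 2) d
  rw [h1]
  apply setIntegral_mono_set (final_int M b hc q hX)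
  · exact Filter.Eventually.of_forall (fun y => sq_nonneg _)
  · apply LE.le.eventuallyLE
    intro y hy
    exact ⟨by linarith [hy.1], by linarith [hy.2]⟩

private theorem final_int' (M b : ℕ) {c d : ℝ} (hc : 0 ≤ c) (q : ℝ) {X : ℝ} (hX : 0 ≤ X) (hd : 0 ≤ d) :
    IntegrableOn (fun y => (SB M b (y + d) c - q) ^ 2) (Set.Icc X (2 * X)) := by
  have hbd : ∀ y ∈ Set.Icc X (2 * X), ‖(SB M b (y + d) c - q) ^ 2‖ ≤
      ((2 * X + d + c + 1) * Real.log (2 * X + d + c + 1) + |q|) ^ 2 := by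
    intro y hy
    have h1 : SB M b (y + d) c ≤ (2 * X + d + c + 1) * Real.log (2 * X + d + c + 1) := by
      apply SB_le M b (by linarith) (by linarith [hy.1]) (by linarith [hy.2]) hc
    have h2 := SB_nonneg M b (y + d) c
    rw [Real.norm_of_nonneg (sq_nonneg _)]
    have h3 : |SB M b (y + d) c - q| ≤ (2 * X + d + c + 1) * Real.log (2 * X + d + c + 1) + |q| := by
      calc |SB M b (y + d) c - q| ≤ |SB M b (y + d) c| + |q| := abs_sub _ _
        _ = SB M b (y + d) c + |q| := by rw [abs_of_nonneg h2]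
        _ ≤ _ := by linarith
    rw [← sq_abs (SB M b (y + d) c - q)]
    exact pow_le_pow_left₀ (abs_nonneg _) h3 2
  have hm : Measurable (fun y => (SB M b (y + d) c - q) ^ 2) :=
    (((SB_meas M b c).comp (measurable_id.add_const d)).sub_const q).pow_const 2
  exact Measure.integrableOn_of_bounded (by simp) hm.aestronglyMeasurable
    ((ae_restrict_iff' measurableSet_Icc).2 (Filter.Eventually.of_forall hbd))

theorem short_class {M : ℕ} (hM : 0 < M) {th : ℝ} (h1 : 1 / 2 < th) (h2 : th < 1) (A : ℕ) :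
    ∃ X0 : ℝ, 2 ≤ X0 ∧ ∀ X h : ℝ, X0 ≤ X → X ^ th ≤ h → h ≤ X → ∀ b : ℕ, b.Coprime M →
      ∫ y in Set.Icc X (2 * X),
        (∑ p ∈ (Finset.Ioc ⌊y⌋₊ ⌊y + h⌋₊).filter (fun p => p.Prime ∧ p ≡ b [MOD M]), Real.log p -
          h / (Nat.totient M : ℝ)) ^ 2 ≤ X * h ^ 2 / Real.log X ^ A := by
  classical
  obtain ⟨th', hth'⟩ : ∃ t : ℝ, t = (th + 1 / 2) / 2 := ⟨_, rfl⟩
  have ht1 : 1 / 2 < th' := by rw [hth']; linarith
  have ht2 : th' < th := by rw [hth']; linarith
  have hS : ∀ b : ℕ, ∃ X0 : ℝ, b.Coprime M → 3 ≤ X0 ∧ ∀ X h : ℝ, X0 ≤ X → X ^ th' ≤ h →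
      h ≤ X / Real.log X ^ (A + 3) →
      ∫ y in Set.Icc X (3 * X), (SB M b y h - h / (Nat.totient M : ℝ)) ^ 2 ≤ X * h ^ 2 / Real.log X ^ A := by
    intro b
    by_cases hb : b.Coprime M
    · obtain ⟨X0, h3, h4⟩ := sharp hM hb ht1 A
      exact ⟨X0, fun _ => ⟨h3, h4⟩⟩
    · exact ⟨0, fun h => absurd h hb⟩
  choose f hf using hS
  obtain ⟨C, hC⟩ := Finset.exists_le ((Finset.range M).image f)
  obtain ⟨X1, hX1⟩ := Filter.eventually_atTop.1 (final_big A (sub_pos.2 ht2))
  refine ⟨max (max C X1) 3, le_trans (by norm_num) (le_max_right _ _), ?_⟩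
  intro X h hX hh1 hh2 b hb
  have hXC : C ≤ X := ((le_max_left _ _).trans (le_max_left _ _)).trans hX
  have hXX1 : X1 ≤ X := ((le_max_right _ _).trans (le_max_left _ _)).trans hX
  have hX3 : 3 ≤ X := (le_max_right _ _).trans hX
  have hX0 : 0 < X := by linarith
  have hbM : (b % M).Coprime M := by
    have := (Nat.mod_modEq b M).gcd_eq
    unfold Nat.Coprime at hb ⊢
    rw [this]
    exact hb
  have hfX : f (b % M) ≤ X := by
    refine le_trans (hC _ ?_) hXC
    exact Finset.mem_image_of_mem f (Finset.mem_range.2 (Nat.mod_lt _ hM))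
  have hL1 : 1 ≤ Real.log X := by
    rw [Real.le_log_iff_exp_le hX0]
    linarith [Real.exp_one_lt_d9]
  have hLp : 1 ≤ Real.log X ^ (A + 3) := one_le_pow₀ hL1
  obtain ⟨J, hJ⟩ : ∃ J : ℕ, J = ⌈Real.log X ^ (A + 3)⌉₊ := ⟨_, rfl⟩
  have hJ1 : Real.log X ^ (A + 3) ≤ J := by rw [hJ]; exact Nat.le_ceil _
  have hJ2 : (J : ℝ) ≤ 2 * Real.log X ^ (A + 3) := by
    have h3 : (J : ℝ) < Real.log X ^ (A + 3) + 1 := by
      rw [hJ]
      exact Nat.ceil_lt_add_one (by linarith)
    linarith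
  have hJ0 : (0 : ℝ) < J := by linarith
  have hh0 : 0 < h := lt_of_lt_of_le (by positivity) hh1
  obtain ⟨c, hc⟩ : ∃ c : ℝ, c = h / J := ⟨_, rfl⟩
  have hc0 : 0 < c := by rw [hc]; positivity
  have hJc : (J : ℝ) * c = h := by rw [hc]; field_simp
  have hc1 : c ≤ X / Real.log X ^ (A + 3) := by
    rw [hc]
    exact div_le_div₀ hX0.le hh2 (by linarith) hJ1
  have hc2 : X ^ th' ≤ c := by
    rw [hc, le_div_iff₀ hJ0]
    calc X ^ th' * J ≤ X ^ th' * (2 * Real.log X ^ (A + 3)) := by gcongr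
      _ ≤ X ^ th' * X ^ (th - th') := by
          apply mul_le_mul_of_nonneg_left (hX1 X hXX1) (by positivity)
      _ = X ^ th := by rw [← Real.rpow_add hX0]; congr 1; ring
      _ ≤ h := hh1
  have key := (hf (b % M) hbM).2 X c hfX hc2 hc1
  have key' : ∫ y in Set.Icc X (3 * X), (SB M b y c - c / (Nat.totient M : ℝ)) ^ 2 ≤
      X * c ^ 2 / Real.log X ^ A := by
    have he : (fun y => (SB M (b % M) y c - c / (Nat.totient M : ℝ)) ^ 2) =
        fun y => (SB M b y c - c / (Nat.totient M : ℝ)) ^ 2 := by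
      funext y
      rw [final_mod]
    rw [he] at key
    exact key
  obtain ⟨q, hq⟩ : ∃ q : ℝ, q = c / (Nat.totient M : ℝ) := ⟨_, rfl⟩
  rw [← hq] at key'
  have hJq : h / (Nat.totient M : ℝ) = J * q := by
    rw [hq, ← hJc]
    ring
  have hpt : ∀ y : ℝ, (SB M b y h - h / (Nat.totient M : ℝ)) ^ 2 ≤
      J * ∑ j ∈ Finset.range J, (SB M b (y + j * c) c - q) ^ 2 := by
    intro y
    have h3 : SB M b y h - h / (Nat.totient M : ℝ) =
        ∑ j ∈ Finset.range J, (SB M b (y + j * c) c - q) := by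
      rw [hJq, Finset.sum_sub_distrib, ← final_sum M b y hc0.le J, hJc]
      simp
    rw [h3]
    have h4 := sq_sum_le_card_mul_sum_sq (s := Finset.range J) (f := fun j : ℕ => SB M b (y + j * c) c - q)
    simpa using h4
  have hid : ∀ j ∈ Finset.range J, IntegrableOn (fun y => (SB M b (y + j * c) c - q) ^ 2)
      (Set.Icc X (2 * X)) := fun j _ => final_int' M b hc0.le q hX0.le (by positivity)
  calc ∫ y in Set.Icc X (2 * X),
        (∑ p ∈ (Finset.Ioc ⌊y⌋₊ ⌊y + h⌋₊).filter (fun p => p.Prime ∧ p ≡ b [MOD M]), Real.log p -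
          h / (Nat.totient M : ℝ)) ^ 2
      = ∫ y in Set.Icc X (2 * X), (SB M b y h - h / (Nat.totient M : ℝ)) ^ 2 := rfl
    _ ≤ ∫ y in Set.Icc X (2 * X), J * ∑ j ∈ Finset.range J, (SB M b (y + j * c) c - q) ^ 2 := by
        apply setIntegral_mono_on (final_int M b hh0.le _ hX0.le) _ measurableSet_Icc (fun y _ => hpt y)
        exact (integrable_finsetSum _ hid).const_mul _
    _ = J * ∑ j ∈ Finset.range J, ∫ y in Set.Icc X (2 * X), (SB M b (y + j * c) c - q) ^ 2 := by
        rw [integral_const_mul, integral_finsetSum _ hid]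
    _ ≤ J * ∑ j ∈ Finset.range J, X * c ^ 2 / Real.log X ^ A := by
        apply mul_le_mul_of_nonneg_left _ hJ0.le
        apply Finset.sum_le_sum
        intro j hj
        have hj' : (j : ℝ) ≤ J := by exact_mod_cast (Finset.mem_range.1 hj).le
        refine (final_shift M b hc0.le q hX0.le (by positivity) ?_).trans key'
        calc (j : ℝ) * c ≤ J * c := by gcongr
          _ = h := hJc
          _ ≤ X := hh2
    _ = X * h ^ 2 / Real.log X ^ A := by
        rw [Finset.sum_const, Finset.card_range, nsmul_eq_mul, ← hJc]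
        ring

end ASC
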