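import Pool.Agent.ASC.Defs

/-!
# ASC.MSC: mean squares of the factors

PROOF. As `Pool/Agent/ASI/MS.lean` with the coefficients multiplied by `χ(n)` (`‖χ n‖ ≤ 1`): `ASI.mean_value` with
`b_m = Λ(m) hL(m) χ(m) m^(-1) exp(..)`, and `ASI.div_gauss`.
-/

namespace ASC

open MeasureTheory ArithmeticFunction ASI

private theorem MSC_np (n : ℕ) (τ : ℝ) :
    np n τ = (((n : ℝ)⁻¹ : ℝ) : ℂ) * (n : ℂ) ^ (-(τ * Complex.I)) := by
  unfold np
  rcases Nat.eq_zero_or_pos n with h | h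
  · subst h
    have hne : (-(1 + (τ : ℂ) * Complex.I)) ≠ 0 := by
      intro h0
      have := congrArg Complex.re h0
      simp at this
    simp only [Nat.cast_zero, inv_zero]
    rw [Complex.zero_cpow hne, Complex.ofReal_zero, zero_mul]
  · have hn : (n : ℂ) ≠ 0 := by exact_mod_cast h.ne'
    have : (-(1 + (τ : ℂ) * Complex.I)) = -1 + -(τ * Complex.I) := by ring
    rw [this, Complex.cpow_add _ _ hn, Complex.cpow_neg_one]
    push_cast
    rfl

private theorem MSC_main : ∃ C : ℝ, 1 ≤ C ∧ ∀ e : ℕ → ℂ,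
    (∀ n, ‖e n‖ ≤ (n.divisors.card : ℝ) * (1 + Real.log n)) → ∀ c T : ℝ, 3 ≤ T →
    ∫ τ in Set.Icc (-T) T, ‖∑' n : ℕ, e n * np n τ *
      (Real.exp (-(Real.log n - c) ^ 2 / 4) : ℝ)‖ ^ 2 ≤
      C * (1 + |c|) ^ 6 * (T * Real.exp (-c) + 1) := by
  obtain ⟨C, hC1, hC⟩ := div_gauss
  obtain ⟨D, hD1, hD⟩ := mean_value
  refine ⟨D * C, by nlinarith, ?_⟩
  intro e he c T hT
  obtain ⟨hs, hb1, hb2⟩ := hC c
  set b : ℕ → ℂ := fun n => e n *
    (((n : ℝ)⁻¹ * Real.exp (-(Real.log n - c) ^ 2 / 4) : ℝ) : ℂ) with hbdef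
  have hb0 : b 0 = 0 := by simp [hbdef]
  have hbn : ∀ n, ‖b n‖ = ‖e n‖ * (n : ℝ)⁻¹ * Real.exp (-(Real.log n - c) ^ 2 / 4) := by
    intro n
    simp only [hbdef]
    rw [norm_mul, Complex.norm_real, Real.norm_eq_abs, abs_mul, Real.abs_exp, abs_inv,
      Nat.abs_cast, mul_assoc]
  have hlog : ∀ n : ℕ, 0 ≤ Real.log (n : ℝ) := fun n => Real.log_natCast_nonneg n
  have hkey : ∀ n : ℕ, ‖e n‖ ^ 2 ≤ (n.divisors.card : ℝ) ^ 2 * (1 + Real.log n) ^ 2 := by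
    intro n
    rw [← mul_pow]
    exact pow_le_pow_left₀ (norm_nonneg _) (he n) 2
  have hkey1 : ∀ n : ℕ, ‖e n‖ ≤ (n.divisors.card : ℝ) ^ 2 * (1 + Real.log n) ^ 2 := by
    intro n
    rcases Nat.eq_zero_or_pos n with h | h
    · have h0 := he n
      subst h
      simpa using h0
    · have h1 : 1 ≤ n.divisors.card := Finset.card_pos.mpr ⟨1, Nat.one_mem_divisors.mpr h.ne'⟩
      have h2 : (1 : ℝ) ≤ (n.divisors.card : ℝ) := by exact_mod_cast h1
      have h3 : 1 ≤ (n.divisors.card : ℝ) * (1 + Real.log n) := by nlinarith [hlog n]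
      have h4 := he n
      rw [← mul_pow]
      nlinarith [norm_nonneg (e n)]
  have hexp : ∀ n : ℕ, Real.exp (-(Real.log n - c) ^ 2 / 2) ≤
      Real.exp (-(Real.log n - c) ^ 2 / 16) := by
    intro n
    apply Real.exp_le_exp.mpr
    nlinarith [sq_nonneg (Real.log n - c)]
  have hexp4 : ∀ n : ℕ, Real.exp (-(Real.log n - c) ^ 2 / 4) ≤
      Real.exp (-(Real.log n - c) ^ 2 / 16) := by
    intro n
    apply Real.exp_le_exp.mpr
    nlinarith [sq_nonneg (Real.log n - c)]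
  have hsq : ∀ n : ℕ, ‖b n‖ ^ 2 = ‖e n‖ ^ 2 * ((n : ℝ)⁻¹) ^ 2 *
      Real.exp (-(Real.log n - c) ^ 2 / 2) := by
    intro n
    rw [hbn, mul_pow, mul_pow, ← Real.exp_nat_mul]
    congr 2
    push_cast; ring
  have hS1 : Summable (fun n : ℕ => ‖b n‖) := by
    refine Summable.of_nonneg_of_le (fun n => norm_nonneg _) (fun n => ?_) hs
    rw [hbn, div_eq_mul_inv]
    apply mul_le_mul _ (hexp4 n) (Real.exp_pos _).le (by positivity)
    exact mul_le_mul_of_nonneg_right (hkey1 n) (by positivity)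
  have hn2 : ∀ n : ℕ, (n : ℝ) * ‖b n‖ ^ 2 ≤ (n.divisors.card : ℝ) ^ 2 * (1 + Real.log n) ^ 2 / n *
      Real.exp (-(Real.log n - c) ^ 2 / 16) := by
    intro n
    rcases Nat.eq_zero_or_pos n with h | h
    · subst h; simp
    · have hn : (0 : ℝ) < n := by exact_mod_cast h
      rw [hsq]
      have : (n : ℝ) * (‖e n‖ ^ 2 * ((n : ℝ)⁻¹) ^ 2 * Real.exp (-(Real.log n - c) ^ 2 / 2)) =
          ‖e n‖ ^ 2 / n * Real.exp (-(Real.log n - c) ^ 2 / 2) := by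
        field_simp
      rw [this]
      apply mul_le_mul _ (hexp n) (Real.exp_pos _).le (by positivity)
      exact div_le_div_of_nonneg_right (hkey n) hn.le
  have hS2 : Summable (fun n : ℕ => (n : ℝ) * ‖b n‖ ^ 2) :=
    Summable.of_nonneg_of_le (fun n => by positivity) hn2 hs
  have hT2 : ∀ n : ℕ, ‖b n‖ ^ 2 ≤ (n.divisors.card : ℝ) ^ 2 * (1 + Real.log n) ^ 2 / (n : ℝ) ^ 2 *
      Real.exp (-(Real.log n - c) ^ 2 / 2) := by
    intro n
    rw [hsq]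
    apply mul_le_mul_of_nonneg_right _ (Real.exp_pos _).le
    rw [div_eq_mul_inv, inv_pow]
    exact mul_le_mul_of_nonneg_right (hkey n) (by positivity)
  have hSV : Summable (fun n : ℕ => (n.divisors.card : ℝ) ^ 2 * (1 + Real.log n) ^ 2 / (n : ℝ) ^ 2 *
      Real.exp (-(Real.log n - c) ^ 2 / 2)) := by
    refine Summable.of_nonneg_of_le (fun n => by positivity) (fun n => ?_) hs
    rcases Nat.eq_zero_or_pos n with h | h
    · subst h; simp
    · have hn1 : (1 : ℝ) ≤ n := by exact_mod_cast h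
      apply mul_le_mul _ (hexp n) (Real.exp_pos _).le (by positivity)
      apply div_le_div_of_nonneg_left (by positivity) (by positivity)
      nlinarith
  have hS3 : Summable (fun n : ℕ => ‖b n‖ ^ 2) :=
    Summable.of_nonneg_of_le (fun n => by positivity) hT2 hSV
  have hmv := hD b T hT hb0 hS1 hS2
  have hlhs : (∫ τ in Set.Icc (-T) T, ‖∑' n : ℕ, e n * np n τ *
      (Real.exp (-(Real.log n - c) ^ 2 / 4) : ℝ)‖ ^ 2) =
      ∫ τ in Set.Icc (-T) T, ‖∑' n : ℕ, b n * (n : ℂ) ^ (-(τ * Complex.I))‖ ^ 2 := by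
    congr 1
    funext τ
    congr 2
    apply tsum_congr
    intro n
    rw [MSC_np]
    simp only [hbdef]
    push_cast
    ring
  rw [hlhs]
  refine hmv.trans ?_
  have hsplit : ∑' n : ℕ, (T + (n : ℝ)) * ‖b n‖ ^ 2 =
      T * ∑' n : ℕ, ‖b n‖ ^ 2 + ∑' n : ℕ, (n : ℝ) * ‖b n‖ ^ 2 := by
    rw [← tsum_mul_left, ← (hS3.mul_left T).tsum_add hS2]
    apply tsum_congr
    intro n; ring
  have h1 : ∑' n : ℕ, ‖b n‖ ^ 2 ≤ C * (1 + |c|) ^ 6 * Real.exp (-c) :=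
    (Summable.tsum_le_tsum hT2 hS3 hSV).trans hb2
  have h2 : ∑' n : ℕ, (n : ℝ) * ‖b n‖ ^ 2 ≤ C * (1 + |c|) ^ 6 :=
    (Summable.tsum_le_tsum hn2 hS2 hs).trans hb1
  rw [hsplit]
  have hT0 : 0 ≤ T := by linarith
  have h3 := mul_le_mul_of_nonneg_left h1 hT0
  calc D * (T * ∑' n : ℕ, ‖b n‖ ^ 2 + ∑' n : ℕ, (n : ℝ) * ‖b n‖ ^ 2)
      ≤ D * (T * (C * (1 + |c|) ^ 6 * Real.exp (-c)) + C * (1 + |c|) ^ 6) :=
        mul_le_mul_of_nonneg_left (add_le_add h3 h2) (by linarith)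
    _ = D * C * (1 + |c|) ^ 6 * (T * Real.exp (-c) + 1) := by ring

private theorem MSC_eA (U : ℝ) (n : ℕ) :
    |vonMangoldt n * hL U (Real.log n)| ≤ (n.divisors.card : ℝ) * (1 + Real.log n) := by
  rcases Nat.eq_zero_or_pos n with h | h
  · subst h; simp
  · have h0 : 1 ≤ n.divisors.card := Finset.card_pos.mpr ⟨1, Nat.one_mem_divisors.mpr h.ne'⟩
    have h1 : (1 : ℝ) ≤ (n.divisors.card : ℝ) := by exact_mod_cast h0
    have h2 : 0 ≤ Real.log (n : ℝ) := Real.log_natCast_nonneg n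
    have h3 : vonMangoldt n ≤ Real.log n := vonMangoldt_le_log
    have h4 : 0 ≤ vonMangoldt n := vonMangoldt_nonneg
    have h5 := hL_nonneg U (Real.log n)
    have h6 := hL_le U (Real.log n)
    rw [abs_of_nonneg (mul_nonneg h4 h5)]
    have h7 : vonMangoldt n * hL U (Real.log n) ≤ Real.log n :=
      (mul_le_of_le_one_right h4 h6).trans h3
    nlinarith

private theorem MSC_eB (U : ℝ) (n : ℕ) :
    |bt U n| ≤ (n.divisors.card : ℝ) * (1 + Real.log n) := by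
  refine (bt_le U n).trans ?_
  have h2 : 0 ≤ Real.log (n : ℝ) := Real.log_natCast_nonneg n
  exact le_mul_of_one_le_right (Nat.cast_nonneg _) (by linarith)

private theorem MSC_chi {M : ℕ} (χ : DirichletCharacter ℂ M) (r : ℝ) (n : ℕ) {B : ℝ}
    (h : |r| ≤ B) : ‖(r : ℂ) * χ n‖ ≤ B := by
  rw [norm_mul, Complex.norm_real, Real.norm_eq_abs]
  exact (mul_le_of_le_one_right (abs_nonneg r) (DirichletCharacter.norm_le_one χ _)).trans h

theorem As_ms {M : ℕ} (χ : DirichletCharacter ℂ M) : ∃ C : ℝ, 1 ≤ C ∧ ∀ U c T : ℝ, 3 ≤ T →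
    ∫ τ in Set.Icc (-T) T, ‖As χ U c τ‖ ^ 2 ≤ C * (1 + |c|) ^ 6 * (T * Real.exp (-c) + 1) := by
  obtain ⟨C, hC1, hC⟩ := MSC_main
  refine ⟨C, hC1, fun U c T hT => ?_⟩
  have h := hC (fun n => ((vonMangoldt n * hL U (Real.log n) : ℝ) : ℂ) * χ n)
    (fun n => MSC_chi χ _ n (MSC_eA U n)) c T hT
  have he : ∀ τ : ℝ, As χ U c τ = ∑' n : ℕ,
      ((vonMangoldt n * hL U (Real.log n) : ℝ) : ℂ) * χ n * np n τ *
        (Real.exp (-(Real.log n - c) ^ 2 / 4) : ℝ) := by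
    intro τ
    unfold As nc np
    apply tsum_congr
    intro n
    ring
  simp only [he]
  exact h

theorem Bs_ms {M : ℕ} (χ : DirichletCharacter ℂ M) : ∃ C : ℝ, 1 ≤ C ∧ ∀ U y T : ℝ, 3 ≤ T →
    ∫ τ in Set.Icc (-T) T, ‖Bs χ U y τ‖ ^ 2 ≤ C * (1 + |y|) ^ 6 * (T * Real.exp (-y) + 1) := by
  obtain ⟨C, hC1, hC⟩ := MSC_main
  refine ⟨C, hC1, fun U y T hT => ?_⟩
  have h := hC (fun n => ((bt U n : ℝ) : ℂ) * χ n)
    (fun n => MSC_chi χ _ n (MSC_eB U n)) y T hT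
  have he : ∀ τ : ℝ, Bs χ U y τ = ∑' n : ℕ,
      ((bt U n : ℝ) : ℂ) * χ n * np n τ * (Real.exp (-(Real.log n - y) ^ 2 / 4) : ℝ) := by
    intro τ
    unfold Bs nc np
    apply tsum_congr
    intro n
    ring
  simp only [he]
  exact h

end ASC
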