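import Pool.Agent.ASC.SmoothC
import Pool.Agent.ASI.Div

/-!
# ASC.SupC: the factors are small at every point

PROOF. As `Pool/Agent/ASI/Sup.lean` with `np` replaced by `nc χ`, `VKZ.gs a` by `VKC.gc χ a`, and `VKZ.prime_gauss`, `VKZ.mu_gauss`,
`ASI.one_gauss` by `VKC.prime_gauss`, `VKC.mu_gauss`, `ASC.one_gauss` (there is no main term now). Note that
`VKC.gc χ a w τ = ∑' n, ((a n) * χ n) * n^(-(1+iτ)) * exp(..)` and `nc χ n τ = χ n * n^(-(1+iτ))`.
-/

namespace ASC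

open MeasureTheory ArithmeticFunction ASI

private theorem SupC_gint (q c : ℝ) (hq : 0 < q) :
    Integrable (fun w : ℝ => Real.exp (-(q * (w - c) ^ 2))) := by
  have h := (integrable_exp_neg_mul_sq hq).comp_sub_right c
  refine h.congr (Filter.Eventually.of_forall fun w => ?_)
  simp only [neg_mul]

private theorem SupC_gval (q c : ℝ) :
    ∫ w : ℝ, Real.exp (-(q * (w - c) ^ 2)) = Real.sqrt (Real.pi / q) := by
  rw [integral_sub_right_eq_self (fun x : ℝ => Real.exp (-(q * x ^ 2))) c]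
  have h := integral_gaussian q
  simp only [neg_mul] at h
  exact h

private theorem SupC_gint' (q c : ℝ) (hq : 0 < q) :
    Integrable (fun w : ℝ => Real.exp (-(q * (c - w) ^ 2))) := by
  refine (SupC_gint q c hq).congr (Filter.Eventually.of_forall fun w => ?_)
  show Real.exp (-(q * (w - c) ^ 2)) = Real.exp (-(q * (c - w) ^ 2))
  rw [sub_sq_comm]

private theorem SupC_gval' (q c : ℝ) :
    ∫ w : ℝ, Real.exp (-(q * (c - w) ^ 2)) = Real.sqrt (Real.pi / q) := by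
  rw [← SupC_gval q c]
  congr 1
  ext w
  rw [sub_sq_comm]

private def SupCH (a : ℕ → ℝ) : Prop :=
  ∀ n : ℕ, |a n| ≤ (n.divisors.card : ℝ) ^ 2 * (1 + Real.log n) ^ 2

private theorem SupC_H_of {a : ℕ → ℝ} (h0 : a 0 = 0)
    (h : ∀ n : ℕ, 1 ≤ n → |a n| ≤ (1 + Real.log n) ^ 2) : SupCH a := by
  intro n
  rcases Nat.eq_zero_or_pos n with hn | hn
  · subst hn
    simp [h0]
  · have h1 : (1 : ℝ) ≤ (n.divisors.card : ℝ) := by
      exact_mod_cast Finset.card_pos.2 ⟨1, Nat.one_mem_divisors.2 hn.ne'⟩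
    have h2 := h n hn
    have h3 : (1 : ℝ) ≤ (n.divisors.card : ℝ) ^ 2 := one_le_pow₀ h1
    nlinarith [sq_nonneg (1 + Real.log n)]

private theorem SupC_H_vM : SupCH (fun n => vonMangoldt n) := by
  refine SupC_H_of (by simp) (fun n hn => ?_)
  rw [abs_of_nonneg vonMangoldt_nonneg]
  have h1 : 0 ≤ Real.log n := Real.log_natCast_nonneg n
  exact vonMangoldt_le_log.trans (by nlinarith)

private theorem SupC_mu_abs (n : ℕ) : |(moebius n : ℝ)| ≤ 1 := by
  have h := abs_moebius_le_one (n := n)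
  exact_mod_cast h

private theorem SupC_H_mu : SupCH (fun n => (moebius n : ℝ)) := by
  refine SupC_H_of (by simp) (fun n hn => ?_)
  have h1 : 0 ≤ Real.log n := Real.log_natCast_nonneg n
  exact (SupC_mu_abs n).trans (by nlinarith)

private theorem SupC_H_muM (U : ℝ) : SupCH (fun n => (moebius n : ℝ) * hM U (Real.log n)) := by
  refine SupC_H_of (by simp) (fun n hn => ?_)
  have h1 : 0 ≤ Real.log n := Real.log_natCast_nonneg n
  have h2 : |(moebius n : ℝ) * hM U (Real.log n)| ≤ 1 := by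
    rw [abs_mul, abs_of_nonneg (hM_nonneg _ _)]
    have h3 := SupC_mu_abs n
    have h4 := hM_le U (Real.log n)
    have h5 := hM_nonneg U (Real.log n)
    calc |(moebius n : ℝ)| * hM U (Real.log n) ≤ 1 * 1 := mul_le_mul h3 h4 h5 (by norm_num)
      _ = 1 := one_mul 1
  exact h2.trans (by nlinarith)

private theorem SupC_sum : ∃ C : ℝ, 1 ≤ C ∧ ∀ a : ℕ → ℝ, SupCH a → ∀ β c : ℝ, 1 / 16 ≤ β →
    Summable (fun n : ℕ => |a n| * (n : ℝ)⁻¹ * Real.exp (-(β * (Real.log n - c) ^ 2))) ∧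
    ∑' n : ℕ, |a n| * (n : ℝ)⁻¹ * Real.exp (-(β * (Real.log n - c) ^ 2)) ≤ C * (1 + |c|) ^ 6 := by
  obtain ⟨C, hC, hdg⟩ := div_gauss
  refine ⟨C, hC, fun a ha β c hβ => ?_⟩
  obtain ⟨h1, h2, -⟩ := hdg c
  have h3 : ∀ n : ℕ, |a n| * (n : ℝ)⁻¹ * Real.exp (-(β * (Real.log n - c) ^ 2)) ≤
      (n.divisors.card : ℝ) ^ 2 * (1 + Real.log n) ^ 2 / n *
        Real.exp (-(Real.log n - c) ^ 2 / 16) := by
    intro n
    rw [div_eq_mul_inv]
    refine mul_le_mul (mul_le_mul_of_nonneg_right (ha n) (by positivity)) ?_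
      (Real.exp_pos _).le (by positivity)
    refine Real.exp_le_exp.2 ?_
    nlinarith [sq_nonneg (Real.log n - c)]
  have h4 : ∀ n : ℕ, 0 ≤ |a n| * (n : ℝ)⁻¹ * Real.exp (-(β * (Real.log n - c) ^ 2)) :=
    fun n => by positivity
  have h5 := Summable.of_nonneg_of_le h4 h3 h1
  exact ⟨h5, (h5.tsum_le_tsum h3 h1).trans h2⟩

private theorem SupC_gs_bound {M : ℕ} (χ : DirichletCharacter ℂ M) :
    ∃ C : ℝ, 1 ≤ C ∧ ∀ a : ℕ → ℝ, SupCH a → ∀ m τ : ℝ,
    ‖VKC.gc χ a m τ‖ ≤ C * (1 + |m|) ^ 6 := by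
  obtain ⟨C, hC, h⟩ := SupC_sum
  refine ⟨C, hC, fun a ha m τ => ?_⟩
  obtain ⟨h1, h2⟩ := h a ha (1 / 2) m (by norm_num)
  unfold VKC.gc
  have h3 : ∀ n : ℕ, ‖((a n : ℂ) * χ n) * (n : ℂ) ^ (-(1 + τ * Complex.I)) *
      Real.exp (-(Real.log n - m) ^ 2 / 2)‖
      ≤ |a n| * (n : ℝ)⁻¹ * Real.exp (-(1 / 2 * (Real.log n - m) ^ 2)) := by
    intro n
    have h4 := nc_norm χ n τ
    unfold nc at h4
    rw [mul_assoc (a n : ℂ), norm_mul, norm_mul, Complex.norm_real, Complex.norm_real, Real.norm_eq_abs,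
      Real.norm_eq_abs, abs_of_pos (Real.exp_pos _)]
    have h5 : Real.exp (-(Real.log n - m) ^ 2 / 2) = Real.exp (-(1 / 2 * (Real.log n - m) ^ 2)) := by
      congr 1
      ring
    rw [h5]
    exact mul_le_mul_of_nonneg_right (mul_le_mul_of_nonneg_left h4 (abs_nonneg _))
      (Real.exp_pos _).le
  have h4 : Summable (fun n : ℕ => ‖((a n : ℂ) * χ n) * (n : ℂ) ^ (-(1 + τ * Complex.I)) *
      Real.exp (-(Real.log n - m) ^ 2 / 2)‖) :=
    Summable.of_nonneg_of_le (fun n => norm_nonneg _) h3 h1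
  exact (norm_tsum_le_tsum_norm h4).trans ((h4.tsum_le_tsum h3 h1).trans h2)

private theorem SupC_exch {M : ℕ} (χ : DirichletCharacter ℂ M) {a : ℕ → ℝ} (ha : SupCH a) {α β : ℝ} (hα : 0 < α) (hβ : 1 / 16 ≤ β)
    (hab : α + β = 1 / 2) (U c τ : ℝ) :
    ∑' n : ℕ, ((a n * ∫ w in Set.Ioi U, Real.exp (-(α * (Real.log n - w) ^ 2)) : ℝ) : ℂ) *
      nc χ n τ * ((Real.exp (-(β * (Real.log n - c) ^ 2)) : ℝ) : ℂ) =
    ∫ w in Set.Ioi U, ((Real.exp (-(2 * α * β * (w - c) ^ 2)) : ℝ) : ℂ) *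
      VKC.gc χ a (2 * α * w + 2 * β * c) τ := by
  obtain ⟨C, hC, h⟩ := SupC_sum
  obtain ⟨h1, -⟩ := h a ha β c hβ
  set F : ℕ → ℝ → ℂ := fun n w =>
    ((a n : ℂ) * nc χ n τ * ((Real.exp (-(β * (Real.log n - c) ^ 2)) : ℝ) : ℂ)) *
    ((Real.exp (-(α * (Real.log n - w) ^ 2)) : ℝ) : ℂ) with hF
  have hint : ∀ n : ℕ, Integrable (fun w : ℝ => Real.exp (-(α * (Real.log n - w) ^ 2))) :=
    fun n => SupC_gint' α (Real.log n) hα
  have hFint : ∀ n, Integrable (F n) (volume.restrict (Set.Ioi U)) := by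
    intro n
    have h2 : Integrable (fun w : ℝ => ((Real.exp (-(α * (Real.log n - w) ^ 2)) : ℝ) : ℂ)) :=
      (hint n).ofReal
    exact (h2.const_mul _).restrict
  have hFnorm : ∀ n w, ‖F n w‖ ≤
      (|a n| * (n : ℝ)⁻¹ * Real.exp (-(β * (Real.log n - c) ^ 2))) *
        Real.exp (-(α * (Real.log n - w) ^ 2)) := by
    intro n w
    simp only [hF]
    rw [norm_mul, norm_mul, norm_mul, Complex.norm_real, Complex.norm_real,
      Complex.norm_real, Real.norm_eq_abs, Real.norm_eq_abs, Real.norm_eq_abs,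
      abs_of_pos (Real.exp_pos _), abs_of_pos (Real.exp_pos _)]
    exact mul_le_mul_of_nonneg_right (mul_le_mul_of_nonneg_right
      (mul_le_mul_of_nonneg_left (nc_norm χ n τ) (abs_nonneg _)) (Real.exp_pos _).le)
      (Real.exp_pos _).le
  have hsum : Summable (fun n => ∫ w in Set.Ioi U, ‖F n w‖) := by
    refine Summable.of_nonneg_of_le (fun n => integral_nonneg fun w => norm_nonneg _)
      (fun n => ?_) (h1.mul_right (Real.sqrt (Real.pi / α)))
    refine (setIntegral_mono (hFint n).norm ((hint n).const_mul _).integrableOn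
      (fun w => hFnorm n w)).trans ?_
    rw [integral_const_mul]
    refine mul_le_mul_of_nonneg_left ?_ (by positivity)
    rw [← SupC_gval' α (Real.log n)]
    exact setIntegral_le_integral (hint n)
      (Filter.Eventually.of_forall fun w => (Real.exp_pos _).le)
  have h2 := (hasSum_integral_of_summable_integral_norm hFint hsum).tsum_eq
  have h3 : ∀ n, ∫ w in Set.Ioi U, F n w =
      ((a n * ∫ w in Set.Ioi U, Real.exp (-(α * (Real.log n - w) ^ 2)) : ℝ) : ℂ) * nc χ n τ *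
      ((Real.exp (-(β * (Real.log n - c) ^ 2)) : ℝ) : ℂ) := by
    intro n
    simp only [hF]
    rw [integral_const_mul, integral_complex_ofReal, Complex.ofReal_mul]
    ring
  have h4 : ∀ w, ∑' n, F n w = ((Real.exp (-(2 * α * β * (w - c) ^ 2)) : ℝ) : ℂ) *
      VKC.gc χ a (2 * α * w + 2 * β * c) τ := by
    intro w
    unfold VKC.gc
    rw [← tsum_mul_left]
    refine tsum_congr fun n => ?_
    simp only [hF, nc]
    have h5 : Real.exp (-(β * (Real.log n - c) ^ 2)) * Real.exp (-(α * (Real.log n - w) ^ 2)) =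
        Real.exp (-(2 * α * β * (w - c) ^ 2)) *
          Real.exp (-(Real.log n - (2 * α * w + 2 * β * c)) ^ 2 / 2) := by
      rw [← Real.exp_add, ← Real.exp_add]
      congr 1
      have h7 : α = 1 / 2 - β := by linarith
      subst h7
      ring
    have h6 := congrArg (fun x : ℝ => (x : ℂ)) h5
    simp only [Complex.ofReal_mul] at h6
    linear_combination ((a n : ℂ) * χ n * (n : ℂ) ^ (-(1 + τ * Complex.I))) * h6
  rw [← tsum_congr h3, h2]
  simp only [h4]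

private theorem SupC_int_bound {f : ℝ → ℂ} {U B q c : ℝ} (hq : 0 < q) (hB : 0 ≤ B)
    (h : ∀ w, U < w → ‖f w‖ ≤ B * Real.exp (-(q * (w - c) ^ 2))) :
    ‖∫ w in Set.Ioi U, f w‖ ≤ B * Real.sqrt (Real.pi / q) := by
  have h1 : Integrable (fun w : ℝ => B * Real.exp (-(q * (w - c) ^ 2))) :=
    (SupC_gint q c hq).const_mul B
  calc ‖∫ w in Set.Ioi U, f w‖ ≤ ∫ w in Set.Ioi U, B * Real.exp (-(q * (w - c) ^ 2)) :=
        norm_integral_le_of_norm_le h1.restrict (ae_restrict_of_forall_mem measurableSet_Ioi h)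
    _ ≤ ∫ w, B * Real.exp (-(q * (w - c) ^ 2)) :=
        setIntegral_le_integral h1
          (Filter.Eventually.of_forall fun w => mul_nonneg hB (Real.exp_pos _).le)
    _ = _ := by rw [integral_const_mul, SupC_gval]

private theorem SupC_six {s : ℝ} (hs : 0 ≤ s) :
    (1 + s) ^ 6 ≤ 8 * 192 ^ 3 * Real.exp (s ^ 2 / 64) := by
  have h1 : (1 + s) ^ 2 ≤ 2 * (1 + s ^ 2) := by nlinarith [sq_nonneg (1 - s)]
  have h2 : 1 + s ^ 2 ≤ 192 * Real.exp (s ^ 2 / 192) := by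
    have := Real.add_one_le_exp (s ^ 2 / 192)
    linarith
  have h3 : (1 + s) ^ 2 ≤ 2 * 192 * Real.exp (s ^ 2 / 192) := by linarith
  calc (1 + s) ^ 6 = ((1 + s) ^ 2) ^ 3 := by ring
    _ ≤ (2 * 192 * Real.exp (s ^ 2 / 192)) ^ 3 := pow_le_pow_left₀ (by positivity) h3 3
    _ = 8 * 192 ^ 3 * (Real.exp (s ^ 2 / 192)) ^ 3 := by ring
    _ = 8 * 192 ^ 3 * Real.exp (s ^ 2 / 64) := by
        rw [← Real.exp_nat_mul]
        congr 2
        push_cast
        ring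

private theorem SupC_gs_tail {M : ℕ} {χ : DirichletCharacter ℂ M} {C : ℝ} (hC : 1 ≤ C) {a : ℕ → ℝ} {m τ s : ℝ} (hs : 0 ≤ s)
    (hms : |m| ≤ s) (h : ‖VKC.gc χ a m τ‖ ≤ C * (1 + |m|) ^ 6) :
    ‖VKC.gc χ a m τ‖ ≤ C * (8 * 192 ^ 3) * Real.exp (s ^ 2 / 64) := by
  have h1 : (1 + |m|) ^ 6 ≤ (1 + s) ^ 6 :=
    pow_le_pow_left₀ (by positivity) (by linarith) 6
  have h2 := SupC_six hs
  calc ‖VKC.gc χ a m τ‖ ≤ C * (1 + |m|) ^ 6 := h
    _ ≤ C * (8 * 192 ^ 3 * Real.exp (s ^ 2 / 64)) :=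
        mul_le_mul_of_nonneg_left (h1.trans h2) (by linarith)
    _ = _ := by ring

private theorem SupC_fin (A D κ b : ℝ) (hD : 0 ≤ D) (hκ : 0 < κ) (hb : 0 < b) :
    ∃ L0 : ℝ, 1 ≤ L0 ∧ ∀ L : ℝ, L0 ≤ L →
      D * ((L / b) ^ (-(|A| + 1)) + Real.exp (-(κ * L ^ 2))) ≤ L ^ (-A) := by
  have h1 : Filter.Tendsto (fun L : ℝ => D * b ^ (|A| + 1) * L⁻¹) Filter.atTop
      (nhds (D * b ^ (|A| + 1) * 0)) := tendsto_inv_atTop_zero.const_mul _
  have h2 : Filter.Tendsto (fun L : ℝ => D * (L ^ |A| * Real.exp (-κ * L))) Filter.atTop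
      (nhds (D * 0)) :=
    (tendsto_rpow_mul_exp_neg_mul_atTop_nhds_zero |A| κ hκ).const_mul D
  rw [mul_zero] at h1 h2
  have h3 := (h1.eventually (gt_mem_nhds (show (0 : ℝ) < 1 / 2 by norm_num))).and
    (h2.eventually (gt_mem_nhds (show (0 : ℝ) < 1 / 2 by norm_num)))
  obtain ⟨L1, hL1⟩ := Filter.eventually_atTop.1 h3
  refine ⟨max L1 1, le_max_right _ _, fun L hL => ?_⟩
  obtain ⟨h4, h5⟩ := hL1 L ((le_max_left _ _).trans hL)
  have hL1' : 1 ≤ L := (le_max_right _ _).trans hL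
  have hL0 : 0 < L := by linarith
  have h6 : L ^ (-|A|) ≤ L ^ (-A) :=
    Real.rpow_le_rpow_of_exponent_le hL1' (by linarith [le_abs_self A])
  have h7 : (L / b) ^ (-(|A| + 1)) = b ^ (|A| + 1) * L⁻¹ * L ^ (-|A|) := by
    rw [Real.div_rpow hL0.le hb.le, Real.rpow_neg hb.le, div_inv_eq_mul,
      show -(|A| + 1) = -1 + -|A| by ring, Real.rpow_add hL0, Real.rpow_neg_one]
    ring
  have h8 : Real.exp (-(κ * L ^ 2)) ≤ (L ^ |A| * Real.exp (-κ * L)) * L ^ (-|A|) := by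
    have h9 : L ^ |A| * L ^ (-|A|) = 1 := by
      rw [← Real.rpow_add hL0]
      simp
    calc Real.exp (-(κ * L ^ 2)) ≤ Real.exp (-κ * L) :=
          Real.exp_le_exp.2 (by nlinarith [mul_nonneg (mul_pos hκ hL0).le (sub_nonneg.2 hL1')])
      _ = (L ^ |A| * L ^ (-|A|)) * Real.exp (-κ * L) := by rw [h9, one_mul]
      _ = _ := by ring
  have h10 : 0 < L ^ (-|A|) := Real.rpow_pos_of_pos hL0 _
  calc D * ((L / b) ^ (-(|A| + 1)) + Real.exp (-(κ * L ^ 2)))
      ≤ D * (b ^ (|A| + 1) * L⁻¹ * L ^ (-|A|) +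
          (L ^ |A| * Real.exp (-κ * L)) * L ^ (-|A|)) := by
        rw [h7]
        exact mul_le_mul_of_nonneg_left (by linarith) hD
    _ = (D * b ^ (|A| + 1) * L⁻¹ + D * (L ^ |A| * Real.exp (-κ * L))) * L ^ (-|A|) := by ring
    _ ≤ 1 * L ^ (-|A|) := mul_le_mul_of_nonneg_right (by linarith) h10.le
    _ = L ^ (-|A|) := one_mul _
    _ ≤ _ := h6

private theorem SupC_inv_sqrt_le {x : ℝ} (hx : 1 ≤ x) : 1 / Real.sqrt x ≤ 1 := by
  rw [div_le_one (Real.sqrt_pos.2 (by linarith))]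
  exact Real.one_le_sqrt.2 hx

theorem As_sup {M : ℕ} [NeZero M] {χ : DirichletCharacter ℂ M} (hχ : χ ≠ 1) (A : ℝ) :
    ∃ L0 : ℝ, 1 ≤ L0 ∧ ∀ L c τ : ℝ, L0 ≤ L → L ≤ |τ| → |τ| ≤ Real.exp (L / 2) →
    ‖As χ (L / 20) c τ‖ ≤ L ^ (-A) := by
  obtain ⟨C, hC, hgs⟩ := SupC_gs_bound χ
  obtain ⟨w0, hw0, hpg⟩ := VKC.prime_gauss hχ 20 (|A| + 1)
  obtain ⟨L1, hL1, hfin⟩ := SupC_fin A (11 * (3 + C * (8 * 192 ^ 3))) (1 / 5120) 40
    (by positivity) (by norm_num) (by norm_num)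
  refine ⟨max L1 (40 * w0), hL1.trans (le_max_left _ _), fun L c τ hLL hτ1 hτ2 => ?_⟩
  have hLL1 : L1 ≤ L := (le_max_left _ _).trans hLL
  have hLw : 40 * w0 ≤ L := (le_max_right _ _).trans hLL
  have hL0 : 1 ≤ L := hL1.trans hLL1
  refine le_trans ?_ (hfin L hLL1)
  have hpi := Real.pi_gt_three
  have hpi4 := Real.pi_lt_four
  have hrep : As χ (L / 20) c τ = ((1 / Real.sqrt (4 * Real.pi) : ℝ) : ℂ) *
      ∫ w in Set.Ioi (L / 20), ((Real.exp (-(2 * (1 / 4) * (1 / 4) * (w - c) ^ 2)) : ℝ) : ℂ) *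
        VKC.gc χ (fun n => vonMangoldt n) (2 * (1 / 4) * w + 2 * (1 / 4) * c) τ := by
    rw [← SupC_exch χ SupC_H_vM (by norm_num) (by norm_num) (by norm_num) (L / 20) c τ,
      ← tsum_mul_left]
    unfold As hL
    refine tsum_congr fun n => ?_
    have e1 : ∀ x w : ℝ, -(x - w) ^ 2 / 4 = -(1 / 4 * (x - w) ^ 2) := by
      intro x w
      ring
    simp only [e1]
    rw [Complex.ofReal_mul, Complex.ofReal_mul, Complex.ofReal_mul]
    ring
  have hB1 : 0 ≤ (L / 40) ^ (-(|A| + 1)) := Real.rpow_nonneg (by linarith) _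
  have hB2 : 0 < Real.exp (-(1 / 5120 * L ^ 2)) := Real.exp_pos _
  set B : ℝ := (L / 40) ^ (-(|A| + 1)) + (3 + C * (8 * 192 ^ 3)) *
    Real.exp (-(1 / 5120 * L ^ 2)) with hB
  have hBnn : 0 ≤ B := by positivity
  have hbd : ∀ w, L / 20 < w →
      ‖((Real.exp (-(2 * (1 / 4) * (1 / 4) * (w - c) ^ 2)) : ℝ) : ℂ) *
        VKC.gc χ (fun n => vonMangoldt n) (2 * (1 / 4) * w + 2 * (1 / 4) * c) τ‖ ≤
      B * Real.exp (-(1 / 32 * (w - c) ^ 2)) := by
    intro w hw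
    rw [norm_mul, Complex.norm_real, Real.norm_eq_abs, abs_of_pos (Real.exp_pos _)]
    have hm : (2 * (1 / 4) * w + 2 * (1 / 4) * c : ℝ) = (w + c) / 2 := by ring
    rw [hm]
    rcases le_or_gt (L / 40) ((w + c) / 2) with h | h
    · have h1 : ‖VKC.gc χ (fun n => vonMangoldt n) ((w + c) / 2) τ‖ ≤ B := by
        have h3 := hpg ((w + c) / 2) τ (by linarith)
          (hτ2.trans (Real.exp_le_exp.2 (by linarith)))
        have h8 : ((w + c) / 2) ^ (-(|A| + 1)) ≤ (L / 40) ^ (-(|A| + 1)) :=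
          Real.rpow_le_rpow_of_nonpos (by linarith) h (by linarith [abs_nonneg A])
        refine (h3.trans h8).trans ?_
        rw [hB]
        have : 0 ≤ (3 + C * (8 * 192 ^ 3)) * Real.exp (-(1 / 5120 * L ^ 2)) := by positivity
        linarith
      have h2 : Real.exp (-(2 * (1 / 4) * (1 / 4) * (w - c) ^ 2)) ≤
          Real.exp (-(1 / 32 * (w - c) ^ 2)) :=
        Real.exp_le_exp.2 (by nlinarith [sq_nonneg (w - c)])
      calc _ ≤ Real.exp (-(1 / 32 * (w - c) ^ 2)) * B :=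
            mul_le_mul h2 h1 (norm_nonneg _) (Real.exp_pos _).le
        _ = _ := mul_comm _ _
    · have hs : L / 20 ≤ w - c := by linarith
      have hms : |(w + c) / 2| ≤ w - c := abs_le.2 ⟨by linarith, by linarith⟩
      have h1 := SupC_gs_tail hC (by linarith : (0 : ℝ) ≤ w - c) hms
        (hgs _ SupC_H_vM ((w + c) / 2) τ)
      have h2 : Real.exp (-(2 * (1 / 4) * (1 / 4) * (w - c) ^ 2)) *
          Real.exp ((w - c) ^ 2 / 64) ≤
          Real.exp (-(1 / 5120 * L ^ 2)) * Real.exp (-(1 / 32 * (w - c) ^ 2)) := by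
        rw [← Real.exp_add, ← Real.exp_add]
        refine Real.exp_le_exp.2 ?_
        have h3 : (L / 20) ^ 2 ≤ (w - c) ^ 2 := pow_le_pow_left₀ (by linarith) hs 2
        nlinarith
      calc _ ≤ Real.exp (-(2 * (1 / 4) * (1 / 4) * (w - c) ^ 2)) *
            (C * (8 * 192 ^ 3) * Real.exp ((w - c) ^ 2 / 64)) :=
            mul_le_mul_of_nonneg_left h1 (Real.exp_pos _).le
        _ = C * (8 * 192 ^ 3) * (Real.exp (-(2 * (1 / 4) * (1 / 4) * (w - c) ^ 2)) *
            Real.exp ((w - c) ^ 2 / 64)) := by ring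
        _ ≤ C * (8 * 192 ^ 3) * (Real.exp (-(1 / 5120 * L ^ 2)) *
            Real.exp (-(1 / 32 * (w - c) ^ 2))) :=
            mul_le_mul_of_nonneg_left h2 (by positivity)
        _ = (C * (8 * 192 ^ 3) * Real.exp (-(1 / 5120 * L ^ 2))) *
            Real.exp (-(1 / 32 * (w - c) ^ 2)) := by ring
        _ ≤ B * Real.exp (-(1 / 32 * (w - c) ^ 2)) := by
            refine mul_le_mul_of_nonneg_right ?_ (Real.exp_pos _).le
            rw [hB]
            linarith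
  have hint := SupC_int_bound (by norm_num : (0 : ℝ) < 1 / 32) hBnn hbd
  rw [hrep, norm_mul, Complex.norm_real, Real.norm_eq_abs,
    abs_of_nonneg (by positivity : (0 : ℝ) ≤ 1 / Real.sqrt (4 * Real.pi))]
  have h1 : 1 / Real.sqrt (4 * Real.pi) ≤ 1 := SupC_inv_sqrt_le (by linarith)
  have h2 : Real.sqrt (Real.pi / (1 / 32)) ≤ 11 := by
    rw [Real.sqrt_le_iff]
    constructor
    · norm_num
    · have := Real.pi_lt_d2
      rw [div_le_iff₀ (by norm_num)]
      linarith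
  have h3 : B ≤ (3 + C * (8 * 192 ^ 3)) *
      ((L / 40) ^ (-(|A| + 1)) + Real.exp (-(1 / 5120 * L ^ 2))) := by
    rw [hB]
    have h4 : (L / 40) ^ (-(|A| + 1)) ≤ (3 + C * (8 * 192 ^ 3)) * (L / 40) ^ (-(|A| + 1)) := by
      have h5 : 0 ≤ (2 + C * (8 * 192 ^ 3)) * (L / 40) ^ (-(|A| + 1)) := by positivity
      linarith
    linarith
  calc _ ≤ 1 * (B * 11) := by
        refine mul_le_mul h1 (hint.trans (mul_le_mul_of_nonneg_left h2 hBnn)) (norm_nonneg _)
          (by norm_num)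
    _ ≤ _ := by linarith

private theorem SupC_term {M : ℕ} (χ : DirichletCharacter ℂ M) (f : ℕ → ℂ) (τ : ℝ) (n : ℕ) :
    LSeries.term (fun n => f n * χ n) (1 + τ * Complex.I) n = f n * nc χ n τ := by
  rcases Nat.eq_zero_or_pos n with h | h
  · subst h
    rw [LSeries.term_zero]
    have h0 : nc χ 0 τ = 0 := by
      rw [← norm_eq_zero]
      refine le_antisymm ?_ (norm_nonneg _)
      simpa using nc_norm χ 0 τ
    rw [h0, mul_zero]
  · rw [LSeries.term_of_ne_zero h.ne', nc, Complex.cpow_neg, div_eq_mul_inv, mul_assoc]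

private theorem SupC_conv {M : ℕ} (χ : DirichletCharacter ℂ M) {f g : ℕ → ℂ} {τ : ℝ}
    (hf : Summable (fun n => f n * nc χ n τ))
    (hg : Summable (fun n => g n * nc χ n τ)) :
    ∑' k : ℕ, (∑ p ∈ k.divisorsAntidiagonal, f p.1 * g p.2) * nc χ k τ =
      (∑' n, f n * nc χ n τ) * (∑' n, g n * nc χ n τ) := by
  have e : ∀ f : ℕ → ℂ, LSeries.term (fun n => f n * χ n) (1 + τ * Complex.I) =
      fun n => f n * nc χ n τ := fun f => funext (SupC_term χ f τ)
  have h := LSeries_convolution' (f := fun n => f n * χ n) (g := fun n => g n * χ n)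
    (s := 1 + τ * Complex.I)
    (by unfold LSeriesSummable; rw [e]; exact hf) (by unfold LSeriesSummable; rw [e]; exact hg)
  have h2 : LSeries.convolution (fun n => f n * χ n) (fun n => g n * χ n) =
      fun k : ℕ => (∑ p ∈ k.divisorsAntidiagonal, f p.1 * g p.2) * χ k := by
    rw [LSeries.convolution_def]
    funext k
    rw [Finset.sum_mul]
    refine Finset.sum_congr rfl fun p hp => ?_
    obtain ⟨h1, -⟩ := Nat.mem_divisorsAntidiagonal.1 hp
    rw [← h1, Nat.cast_mul, map_mul]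
    ring
  unfold LSeries at h
  rw [h2, e, e, e] at h
  exact h

private theorem SupC_gconv_eq (x z y t : ℝ) :
    Real.exp (-(3 / 8 * (x - t) ^ 2)) * Real.exp (-(3 * (z - (y - t)) ^ 2) / 4) =
      Real.exp (-(9 / 8 * (t - (x + 2 * (y - z)) / 3) ^ 2)) * Real.exp (-(x + z - y) ^ 2 / 4) := by
  rw [← Real.exp_add, ← Real.exp_add]
  congr 1
  ring

private theorem SupC_gconv_int (x z y : ℝ) : Integrable (fun t : ℝ =>
    Real.exp (-(3 / 8 * (x - t) ^ 2)) * Real.exp (-(3 * (z - (y - t)) ^ 2) / 4)) := by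
  simp only [SupC_gconv_eq x z y]
  exact (SupC_gint (9 / 8) _ (by norm_num)).mul_const _

private theorem SupC_gconv (x z y : ℝ) :
    ∫ t : ℝ, Real.exp (-(3 / 8 * (x - t) ^ 2)) * Real.exp (-(3 * (z - (y - t)) ^ 2) / 4) =
      Real.sqrt (Real.pi / (9 / 8)) * Real.exp (-(x + z - y) ^ 2 / 4) := by
  simp only [SupC_gconv_eq x z y]
  rw [integral_mul_const, SupC_gval]

private theorem SupC_H_card : SupCH (fun n => (n.divisors.card : ℝ)) := by
  intro n
  rcases Nat.eq_zero_or_pos n with hn | hn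
  · subst hn
    simp
  · have h1 : (1 : ℝ) ≤ (n.divisors.card : ℝ) := by
      exact_mod_cast Finset.card_pos.2 ⟨1, Nat.one_mem_divisors.2 hn.ne'⟩
    have h2 : 0 ≤ Real.log n := Real.log_natCast_nonneg n
    show |(n.divisors.card : ℝ)| ≤ _
    rw [abs_of_nonneg (by linarith)]
    have h3 : (1 : ℝ) ≤ (1 + Real.log n) ^ 2 := by nlinarith
    have h4 : (n.divisors.card : ℝ) ≤ (n.divisors.card : ℝ) ^ 2 := by nlinarith
    nlinarith

private theorem SupC_antidiag_log {k : ℕ} {p : ℕ × ℕ} (hp : p ∈ k.divisorsAntidiagonal) :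
    Real.log p.1 + Real.log p.2 = Real.log k := by
  obtain ⟨h1, h2⟩ := Nat.mem_divisorsAntidiagonal.1 hp
  have h3 : p.1 ≠ 0 := fun h => h2 (by rw [← h1, h, zero_mul])
  have h4 : p.2 ≠ 0 := fun h => h2 (by rw [← h1, h, mul_zero])
  rw [← Real.log_mul (by exact_mod_cast h3) (by exact_mod_cast h4), ← h1]
  push_cast
  rfl

private theorem SupC_Bs_rep {M : ℕ} (χ : DirichletCharacter ℂ M) (U y τ : ℝ) :
    ((Real.sqrt (Real.pi / (9 / 8)) : ℝ) : ℂ) * Bs χ U y τ =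
    ∫ t : ℝ, (∑' d : ℕ, ((moebius d * hM U (Real.log d) *
        Real.exp (-(3 / 8 * (Real.log d - t) ^ 2)) : ℝ) : ℂ) * nc χ d τ) *
      (∑' e : ℕ, ((Real.exp (-(3 * (Real.log e - (y - t)) ^ 2) / 4) : ℝ) : ℂ) * nc χ e τ) := by
  set κ : ℝ := Real.sqrt (Real.pi / (9 / 8)) with hκ
  set G : ℕ → ℝ → ℂ := fun k t => ((∑ p ∈ k.divisorsAntidiagonal,
    (moebius p.1 * hM U (Real.log p.1)) * (Real.exp (-(3 / 8 * (Real.log p.1 - t) ^ 2)) *
      Real.exp (-(3 * (Real.log p.2 - (y - t)) ^ 2) / 4)) : ℝ) : ℂ) * nc χ k τ with hG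
  have hint : ∀ k : ℕ, Integrable (fun t : ℝ => ∑ p ∈ k.divisorsAntidiagonal,
      (moebius p.1 * hM U (Real.log p.1)) * (Real.exp (-(3 / 8 * (Real.log p.1 - t) ^ 2)) *
      Real.exp (-(3 * (Real.log p.2 - (y - t)) ^ 2) / 4))) :=
    fun k => integrable_finsetSum _ fun p _ => (SupC_gconv_int _ _ _).const_mul _
  have hGint : ∀ k : ℕ, Integrable (G k) := fun k => ((hint k).ofReal (𝕜 := ℂ)).mul_const _
  have hGnorm : ∀ (k : ℕ) (t : ℝ), ‖G k t‖ ≤ (∑ p ∈ k.divisorsAntidiagonal,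
      (Real.exp (-(3 / 8 * (Real.log p.1 - t) ^ 2)) *
        Real.exp (-(3 * (Real.log p.2 - (y - t)) ^ 2) / 4))) * (k : ℝ)⁻¹ := by
    intro k t
    simp only [hG]
    rw [norm_mul, Complex.norm_real, Real.norm_eq_abs]
    refine mul_le_mul ?_ (nc_norm χ k τ) (norm_nonneg _)
      (Finset.sum_nonneg fun p _ => by positivity)
    refine (Finset.abs_sum_le_sum_abs _ _).trans (Finset.sum_le_sum fun p _ => ?_)
    have h1 : |(moebius p.1 : ℝ) * hM U (Real.log p.1)| ≤ 1 := by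
      rw [abs_mul, abs_of_nonneg (hM_nonneg _ _)]
      calc |(moebius p.1 : ℝ)| * hM U (Real.log p.1) ≤ 1 * 1 :=
            mul_le_mul (SupC_mu_abs _) (hM_le _ _) (hM_nonneg _ _) (by norm_num)
        _ = 1 := one_mul 1
    have h2 : 0 ≤ Real.exp (-(3 / 8 * (Real.log p.1 - t) ^ 2)) *
        Real.exp (-(3 * (Real.log p.2 - (y - t)) ^ 2) / 4) := by positivity
    rw [abs_mul, abs_of_nonneg h2]
    nlinarith
  have hsumint : ∀ k : ℕ, ∫ t : ℝ, (∑ p ∈ k.divisorsAntidiagonal,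
      (Real.exp (-(3 / 8 * (Real.log p.1 - t) ^ 2)) *
        Real.exp (-(3 * (Real.log p.2 - (y - t)) ^ 2) / 4))) * (k : ℝ)⁻¹ =
      κ * (|(k.divisors.card : ℝ)| * (k : ℝ)⁻¹ * Real.exp (-(1 / 4 * (Real.log k - y) ^ 2))) := by
    intro k
    rw [integral_mul_const, integral_finsetSum _ fun p _ => SupC_gconv_int _ _ _]
    have h1 : ∑ p ∈ k.divisorsAntidiagonal, ∫ t : ℝ,
        (Real.exp (-(3 / 8 * (Real.log p.1 - t) ^ 2)) *
        Real.exp (-(3 * (Real.log p.2 - (y - t)) ^ 2) / 4)) =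
        ∑ p ∈ k.divisorsAntidiagonal, κ * Real.exp (-(1 / 4 * (Real.log k - y) ^ 2)) := by
      refine Finset.sum_congr rfl fun p hp => ?_
      rw [SupC_gconv, SupC_antidiag_log hp, hκ]
      congr 2
      ring
    rw [h1]
    have h2 := Nat.sum_divisorsAntidiagonal (n := k)
      (fun _ _ => κ * Real.exp (-(1 / 4 * (Real.log k - y) ^ 2)))
    rw [h2, Finset.sum_const, nsmul_eq_mul, abs_of_nonneg (by positivity)]
    ring
  obtain ⟨C, hC, hS⟩ := SupC_sum
  obtain ⟨hS1, -⟩ := hS _ SupC_H_card (1 / 4) y (by norm_num)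
  have hsum : Summable (fun k => ∫ t, ‖G k t‖) := by
    refine Summable.of_nonneg_of_le (fun k => integral_nonneg fun t => norm_nonneg _)
      (fun k => ?_) (hS1.mul_left κ)
    rw [← hsumint k]
    refine integral_mono (hGint k).norm ?_ (hGnorm k)
    exact (integrable_finsetSum _ fun p _ => SupC_gconv_int _ _ _).mul_const _
  have h2 := (hasSum_integral_of_summable_integral_norm hGint hsum).tsum_eq
  have h3 : ∀ k : ℕ, ∫ t, G k t = (κ : ℂ) * ((bt U k : ℂ) * nc χ k τ *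
      ((Real.exp (-(Real.log k - y) ^ 2 / 4) : ℝ) : ℂ)) := by
    intro k
    simp only [hG]
    rw [integral_mul_const, integral_complex_ofReal,
      integral_finsetSum _ fun p _ => (SupC_gconv_int _ _ _).const_mul _]
    have h4 : ∑ p ∈ k.divisorsAntidiagonal, ∫ t : ℝ,
        (moebius p.1 * hM U (Real.log p.1)) * (Real.exp (-(3 / 8 * (Real.log p.1 - t) ^ 2)) *
        Real.exp (-(3 * (Real.log p.2 - (y - t)) ^ 2) / 4)) =
        κ * bt U k * Real.exp (-(Real.log k - y) ^ 2 / 4) := by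
      have h5 : ∑ p ∈ k.divisorsAntidiagonal, ∫ t : ℝ,
          (moebius p.1 * hM U (Real.log p.1)) * (Real.exp (-(3 / 8 * (Real.log p.1 - t) ^ 2)) *
          Real.exp (-(3 * (Real.log p.2 - (y - t)) ^ 2) / 4)) =
          ∑ p ∈ k.divisorsAntidiagonal, (moebius p.1 * hM U (Real.log p.1)) *
            (κ * Real.exp (-(Real.log k - y) ^ 2 / 4)) := by
        refine Finset.sum_congr rfl fun p hp => ?_
        rw [integral_const_mul, SupC_gconv, SupC_antidiag_log hp, hκ]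
      rw [h5, ← Finset.sum_mul]
      have h6 := Nat.sum_divisorsAntidiagonal (n := k)
        (fun i _ => (moebius i : ℝ) * hM U (Real.log i))
      rw [h6]
      unfold bt
      ring
    rw [h4]
    push_cast
    ring
  have h4 : ∀ t, ∑' k, G k t = (∑' d : ℕ, ((moebius d * hM U (Real.log d) *
        Real.exp (-(3 / 8 * (Real.log d - t) ^ 2)) : ℝ) : ℂ) * nc χ d τ) *
      (∑' e : ℕ, ((Real.exp (-(3 * (Real.log e - (y - t)) ^ 2) / 4) : ℝ) : ℂ) * nc χ e τ) := by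
    intro t
    obtain ⟨C1, hC1, hog⟩ := one_gauss χ
    have hf : Summable (fun d : ℕ => ((moebius d * hM U (Real.log d) *
        Real.exp (-(3 / 8 * (Real.log d - t) ^ 2)) : ℝ) : ℂ) * nc χ d τ) := by
      refine Summable.of_norm ?_
      obtain ⟨h5, -⟩ := hS _ (SupC_H_muM U) (3 / 8) t (by norm_num)
      refine Summable.of_nonneg_of_le (fun n => norm_nonneg _) (fun n => ?_) h5
      rw [norm_mul, Complex.norm_real, Real.norm_eq_abs,
        abs_mul _ (Real.exp _), abs_of_pos (Real.exp_pos _), mul_right_comm]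
      exact mul_le_mul_of_nonneg_right (mul_le_mul_of_nonneg_left (nc_norm χ n τ)
        (abs_nonneg _)) (Real.exp_pos _).le
    have hg : Summable (fun e : ℕ =>
        ((Real.exp (-(3 * (Real.log e - (y - t)) ^ 2) / 4) : ℝ) : ℂ) * nc χ e τ) :=
      (hog (y - t) τ).1.of_norm
    rw [← SupC_conv χ hf hg]
    refine tsum_congr fun k => ?_
    simp only [hG]
    congr 1
    push_cast
    refine Finset.sum_congr rfl fun p _ => ?_
    ring
  have h5 : ∑' k, ∫ t, G k t = (κ : ℂ) * Bs χ U y τ := by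
    rw [tsum_congr h3, tsum_mul_left]
    rfl
  rw [← h5, h2]
  simp only [h4]

private theorem SupC_D_bound {M : ℕ} [NeZero M] {χ : DirichletCharacter ℂ M} (hχ : χ ≠ 1) (A : ℝ) : ∃ C L0 : ℝ, 1 ≤ C ∧ 1 ≤ L0 ∧ ∀ L t τ : ℝ, L0 ≤ L →
    |τ| ≤ Real.exp (L / 2) →
    ‖∑' d : ℕ, ((moebius d * hM (L / 20) (Real.log d) *
        Real.exp (-(3 / 8 * (Real.log d - t) ^ 2)) : ℝ) : ℂ) * nc χ d τ‖
      ≤ C * ((L / 80) ^ (-(|A| + 1)) + Real.exp (-(1 / 12800 * L ^ 2))) * (1 + t ^ 2)⁻¹ := by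
  obtain ⟨C, hC, hgs⟩ := SupC_gs_bound χ
  obtain ⟨w0, hw0, hmu⟩ := VKC.mu_gauss hχ 40 (|A| + 3)
  refine ⟨15 * (2 + 32 * (C * (8 * 192 ^ 3))), max 80 (80 * w0), by nlinarith, ?_, ?_⟩
  · exact le_trans (by norm_num) (le_max_left _ _)
  intro L t τ hLL hτ2
  have hL80 : 80 ≤ L := (le_max_left _ _).trans hLL
  have hLw : 80 * w0 ≤ L := (le_max_right _ _).trans hLL
  have hpi := Real.pi_gt_three
  have hpi4 := Real.pi_lt_four
  have hrep : ∑' d : ℕ, ((moebius d * hM (L / 20) (Real.log d) *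
        Real.exp (-(3 / 8 * (Real.log d - t) ^ 2)) : ℝ) : ℂ) * nc χ d τ =
      ((1 / Real.sqrt (8 * Real.pi) : ℝ) : ℂ) *
      ∫ w in Set.Ioi (L / 20), ((Real.exp (-(2 * (1 / 8) * (3 / 8) * (w - t) ^ 2)) : ℝ) : ℂ) *
        VKC.gc χ (fun n => (moebius n : ℝ)) (2 * (1 / 8) * w + 2 * (3 / 8) * t) τ := by
    rw [← SupC_exch χ SupC_H_mu (by norm_num) (by norm_num) (by norm_num) (L / 20) t τ,
      ← tsum_mul_left]
    unfold hM
    refine tsum_congr fun n => ?_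
    have e1 : ∀ x w : ℝ, -(x - w) ^ 2 / 8 = -(1 / 8 * (x - w) ^ 2) := by
      intro x w
      ring
    simp only [e1]
    rw [Complex.ofReal_mul, Complex.ofReal_mul, Complex.ofReal_mul, Complex.ofReal_mul]
    ring
  have hB1 : 0 ≤ (L / 80) ^ (-(|A| + 1)) := Real.rpow_nonneg (by linarith) _
  have hB2 : 0 < Real.exp (-(1 / 12800 * L ^ 2)) := Real.exp_pos _
  have ht2 : 0 < 1 + t ^ 2 := by positivity
  set Q : ℝ := (2 * (L / 80) ^ (-(|A| + 1)) + 32 * (C * (8 * 192 ^ 3)) *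
    Real.exp (-(1 / 12800 * L ^ 2))) * (1 + t ^ 2)⁻¹ with hQ
  have hQnn : 0 ≤ Q := by positivity
  have hbd : ∀ w, L / 20 < w →
      ‖((Real.exp (-(2 * (1 / 8) * (3 / 8) * (w - t) ^ 2)) : ℝ) : ℂ) *
        VKC.gc χ (fun n => (moebius n : ℝ)) (2 * (1 / 8) * w + 2 * (3 / 8) * t) τ‖ ≤
      Q * Real.exp (-(1 / 64 * (w - t) ^ 2)) := by
    intro w hw
    rw [norm_mul, Complex.norm_real, Real.norm_eq_abs, abs_of_pos (Real.exp_pos _)]
    have hm : (2 * (1 / 8) * w + 2 * (3 / 8) * t : ℝ) = (w + 3 * t) / 4 := by ring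
    rw [hm]
    rcases le_or_gt 0 t with h | h
    · have hm1 : L / 80 ≤ (w + 3 * t) / 4 := by linarith
      have hm2 : (4 + 3 * t) / 4 ≤ (w + 3 * t) / 4 := by linarith
      have hm0 : 0 < (w + 3 * t) / 4 := by linarith
      have h1 : ‖VKC.gc χ (fun n => (moebius n : ℝ)) ((w + 3 * t) / 4) τ‖ ≤ Q := by
        have h3 := hmu ((w + 3 * t) / 4) τ (by linarith)
          (hτ2.trans (Real.exp_le_exp.2 (by linarith)))
        refine h3.trans ?_
        rw [show -(|A| + 3) = -(|A| + 1) + -2 by ring, Real.rpow_add hm0]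
        have h4 : ((w + 3 * t) / 4) ^ (-(|A| + 1)) ≤ (L / 80) ^ (-(|A| + 1)) :=
          Real.rpow_le_rpow_of_nonpos (by linarith) hm1 (by linarith [abs_nonneg A])
        have h5 : ((w + 3 * t) / 4) ^ (-2 : ℝ) ≤ 2 * (1 + t ^ 2)⁻¹ := by
          rw [Real.rpow_neg hm0.le, show (2 : ℝ) = ((2 : ℕ) : ℝ) by norm_num,
            Real.rpow_natCast]
          have h6 : (1 + t ^ 2) / 2 ≤ ((w + 3 * t) / 4) ^ 2 := by
            have h7 : ((4 + 3 * t) / 4) ^ 2 ≤ ((w + 3 * t) / 4) ^ 2 :=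
              pow_le_pow_left₀ (by linarith) hm2 2
            nlinarith
          have h8 := inv_anti₀ (by positivity) h6
          rw [inv_div, div_eq_mul_inv] at h8
          exact_mod_cast h8
        calc _ ≤ (L / 80) ^ (-(|A| + 1)) * (2 * (1 + t ^ 2)⁻¹) :=
              mul_le_mul h4 h5 (Real.rpow_nonneg hm0.le _) hB1
          _ ≤ Q := by
              rw [hQ]
              have : 0 ≤ 32 * (C * (8 * 192 ^ 3)) * Real.exp (-(1 / 12800 * L ^ 2)) *
                (1 + t ^ 2)⁻¹ := by positivity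
              linarith
      have h2 : Real.exp (-(2 * (1 / 8) * (3 / 8) * (w - t) ^ 2)) ≤
          Real.exp (-(1 / 64 * (w - t) ^ 2)) :=
        Real.exp_le_exp.2 (by nlinarith [sq_nonneg (w - t)])
      calc _ ≤ Real.exp (-(1 / 64 * (w - t) ^ 2)) * Q :=
            mul_le_mul h2 h1 (norm_nonneg _) (Real.exp_pos _).le
        _ = _ := mul_comm _ _
    · have hs : L / 20 ≤ w - t := by linarith
      have hms : |(w + 3 * t) / 4| ≤ w - t := abs_le.2 ⟨by linarith, by linarith⟩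
      have h1 := SupC_gs_tail hC (by linarith : (0 : ℝ) ≤ w - t) hms
        (hgs _ SupC_H_mu ((w + 3 * t) / 4) τ)
      have h2 : Real.exp (-(2 * (1 / 8) * (3 / 8) * (w - t) ^ 2)) *
          Real.exp ((w - t) ^ 2 / 64) ≤
          Real.exp (-(1 / 12800 * L ^ 2)) * Real.exp (-((w - t) ^ 2 / 32)) *
            Real.exp (-(1 / 64 * (w - t) ^ 2)) := by
        rw [← Real.exp_add, ← Real.exp_add, ← Real.exp_add]
        refine Real.exp_le_exp.2 ?_
        have h3 : (L / 20) ^ 2 ≤ (w - t) ^ 2 := pow_le_pow_left₀ (by linarith) hs 2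
        nlinarith
      have h4 : Real.exp (-((w - t) ^ 2 / 32)) ≤ 32 * (1 + t ^ 2)⁻¹ := by
        have h5 : (1 + t ^ 2) / 32 ≤ Real.exp ((w - t) ^ 2 / 32) := by
          have h6 := Real.add_one_le_exp ((w - t) ^ 2 / 32)
          have h7 : t ^ 2 ≤ (w - t) ^ 2 := by nlinarith
          linarith
        have h8 := inv_anti₀ (by positivity) h5
        rw [inv_div, div_eq_mul_inv, ← Real.exp_neg] at h8
        exact h8
      calc _ ≤ Real.exp (-(2 * (1 / 8) * (3 / 8) * (w - t) ^ 2)) *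
            (C * (8 * 192 ^ 3) * Real.exp ((w - t) ^ 2 / 64)) :=
            mul_le_mul_of_nonneg_left h1 (Real.exp_pos _).le
        _ = C * (8 * 192 ^ 3) * (Real.exp (-(2 * (1 / 8) * (3 / 8) * (w - t) ^ 2)) *
            Real.exp ((w - t) ^ 2 / 64)) := by ring
        _ ≤ C * (8 * 192 ^ 3) * (Real.exp (-(1 / 12800 * L ^ 2)) *
            Real.exp (-((w - t) ^ 2 / 32)) * Real.exp (-(1 / 64 * (w - t) ^ 2))) :=
            mul_le_mul_of_nonneg_left h2 (by positivity)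
        _ ≤ C * (8 * 192 ^ 3) * (Real.exp (-(1 / 12800 * L ^ 2)) *
            (32 * (1 + t ^ 2)⁻¹) * Real.exp (-(1 / 64 * (w - t) ^ 2))) := by
            refine mul_le_mul_of_nonneg_left ?_ (by positivity)
            refine mul_le_mul_of_nonneg_right ?_ (Real.exp_pos _).le
            exact mul_le_mul_of_nonneg_left h4 (Real.exp_pos _).le
        _ = (32 * (C * (8 * 192 ^ 3)) * Real.exp (-(1 / 12800 * L ^ 2)) * (1 + t ^ 2)⁻¹) *
            Real.exp (-(1 / 64 * (w - t) ^ 2)) := by ring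
        _ ≤ Q * Real.exp (-(1 / 64 * (w - t) ^ 2)) := by
            refine mul_le_mul_of_nonneg_right ?_ (Real.exp_pos _).le
            rw [hQ]
            have : 0 ≤ 2 * (L / 80) ^ (-(|A| + 1)) * (1 + t ^ 2)⁻¹ := by positivity
            linarith
  have hint := SupC_int_bound (by norm_num : (0 : ℝ) < 1 / 64) hQnn hbd
  rw [hrep, norm_mul, Complex.norm_real, Real.norm_eq_abs,
    abs_of_nonneg (by positivity : (0 : ℝ) ≤ 1 / Real.sqrt (8 * Real.pi))]
  have h1 : 1 / Real.sqrt (8 * Real.pi) ≤ 1 := SupC_inv_sqrt_le (by linarith)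
  have h2 : Real.sqrt (Real.pi / (1 / 64)) ≤ 15 := by
    rw [Real.sqrt_le_iff]
    constructor
    · norm_num
    · have := Real.pi_lt_d2
      rw [div_le_iff₀ (by norm_num)]
      linarith
  have h3 : Q ≤ (2 + 32 * (C * (8 * 192 ^ 3))) *
      ((L / 80) ^ (-(|A| + 1)) + Real.exp (-(1 / 12800 * L ^ 2))) * (1 + t ^ 2)⁻¹ := by
    rw [hQ]
    refine mul_le_mul_of_nonneg_right ?_ (by positivity)
    have h5 : 0 ≤ 32 * (C * (8 * 192 ^ 3)) * (L / 80) ^ (-(|A| + 1)) := by positivity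
    nlinarith
  calc _ ≤ 1 * (Q * 15) := by
        refine mul_le_mul h1 (hint.trans (mul_le_mul_of_nonneg_left h2 hQnn)) (norm_nonneg _)
          (by norm_num)
    _ ≤ _ := by linarith

theorem Bs_sup {M : ℕ} [NeZero M] {χ : DirichletCharacter ℂ M} (hχ : χ ≠ 1) (A : ℝ) :
    ∃ L0 : ℝ, 1 ≤ L0 ∧ ∀ L y τ : ℝ, L0 ≤ L → L ≤ |τ| → |τ| ≤ Real.exp (L / 2) →
    ‖Bs χ (L / 20) y τ‖ ≤ L ^ (-A) := by
  obtain ⟨C, L1, hC, hL1, hD⟩ := SupC_D_bound hχ A
  obtain ⟨C1, hC1, hog⟩ := one_gauss χ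
  obtain ⟨L2, hL2, hfin⟩ := SupC_fin A (4 * (C * C1)) (1 / 12800) 80
    (by positivity) (by norm_num) (by norm_num)
  refine ⟨max L1 L2, hL1.trans (le_max_left _ _), fun L y τ hLL hτ1 hτ2 => ?_⟩
  have hLL1 : L1 ≤ L := (le_max_left _ _).trans hLL
  have hLL2 : L2 ≤ L := (le_max_right _ _).trans hLL
  refine le_trans ?_ (hfin L hLL2)
  set X : ℝ := (L / 80) ^ (-(|A| + 1)) + Real.exp (-(1 / 12800 * L ^ 2)) with hX
  have hXnn : 0 ≤ X := by
    have h1 : 0 ≤ (L / 80) ^ (-(|A| + 1)) := Real.rpow_nonneg (by linarith) _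
    positivity
  have hrep := SupC_Bs_rep χ (L / 20) y τ
  have hg : Integrable (fun t : ℝ => C * X * C1 * (1 + t ^ 2)⁻¹) :=
    integrable_inv_one_add_sq.const_mul _
  have h1 : ‖((Real.sqrt (Real.pi / (9 / 8)) : ℝ) : ℂ) * Bs χ (L / 20) y τ‖ ≤ C * X * C1 * Real.pi := by
    rw [hrep]
    refine (norm_integral_le_of_norm_le hg (Filter.Eventually.of_forall fun t => ?_)).trans ?_
    · have h2 := hD L t τ hLL1 hτ2
      have h3 : ‖∑' e : ℕ, ((Real.exp (-(3 * (Real.log e - (y - t)) ^ 2) / 4) : ℝ) : ℂ) *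
          nc χ e τ‖ ≤ C1 :=
        (norm_tsum_le_tsum_norm (hog (y - t) τ).1).trans (hog (y - t) τ).2
      rw [norm_mul]
      calc _ ≤ C * X * (1 + t ^ 2)⁻¹ * C1 :=
            mul_le_mul h2 h3 (norm_nonneg _) (by positivity)
        _ = _ := by ring
    · rw [integral_const_mul, integral_univ_inv_one_add_sq]
  have h2 : 1 ≤ Real.sqrt (Real.pi / (9 / 8)) := by
    rw [Real.one_le_sqrt, le_div_iff₀ (by norm_num)]
    linarith [Real.pi_gt_three]
  rw [norm_mul, Complex.norm_real, Real.norm_eq_abs, abs_of_nonneg (by linarith)] at h1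
  calc ‖Bs χ (L / 20) y τ‖ ≤ Real.sqrt (Real.pi / (9 / 8)) * ‖Bs χ (L / 20) y τ‖ := by
        nlinarith [norm_nonneg (Bs χ (L / 20) y τ)]
    _ ≤ C * X * C1 * Real.pi := h1
    _ ≤ C * X * C1 * 4 := mul_le_mul_of_nonneg_left Real.pi_lt_four.le (by positivity)
    _ = _ := by ring

end ASC
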