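import Pool.Agent.ASC.T4EqC
import Pool.Agent.ASC.SupC
import Pool.Agent.ASC.MSC

/-!
# ASC.TypeIIC: the mean square of the type II sum

PROOF. As `Pool/Agent/ASI/TypeII.lean`, with the twisted versions of all the imported results.
-/

namespace ASC

open MeasureTheory ArithmeticFunction ASI

attribute [local irreducible] As Bs T4

private theorem TypeIIC_poly (x : ℝ) (hx : 0 ≤ x) :
    (1 + 2 * x) ^ 6 ≤ 10 ^ 9 * Real.exp (x ^ 2 / 32) := by
  have h1 : (1 + 2 * x) ^ 6 ≤ 64 + 64 * (2 * x) ^ 6 := by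
    rcases le_total (2 * x) 1 with h | h
    · have h2 : (1 + 2 * x) ^ 6 ≤ 2 ^ 6 := pow_le_pow_left₀ (by linarith) (by linarith) 6
      have h3 : 0 ≤ (2 * x) ^ 6 := by positivity
      norm_num at h2 h3 ⊢
      linarith
    · have h2 : (1 + 2 * x) ^ 6 ≤ (2 * (2 * x)) ^ 6 := pow_le_pow_left₀ (by linarith) (by linarith) 6
      have h3 : (2 * (2 * x)) ^ 6 = 64 * (2 * x) ^ 6 := by ring
      rw [h3] at h2
      linarith
  have h2 : (x ^ 2 / 32) ^ 3 / (Nat.factorial 3 : ℝ) ≤ Real.exp (x ^ 2 / 32) :=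
    Real.pow_div_factorial_le_exp (x ^ 2 / 32) (by positivity) 3
  have h3 : (Nat.factorial 3 : ℝ) = 6 := by norm_num [Nat.factorial]
  rw [h3] at h2
  have h4 : 1 ≤ Real.exp (x ^ 2 / 32) := Real.one_le_exp (by positivity)
  have h5 : (2 * x) ^ 6 = 64 * 32 ^ 3 * 6 * ((x ^ 2 / 32) ^ 3 / 6) := by ring
  rw [h5] at h1
  nlinarith

private theorem TypeIIC_cs (g : ℝ → ℝ) (hg : Continuous g) {a b : ℝ} (hab : a < b) :
    (∫ x in Set.Icc a b, g x) ^ 2 ≤ (b - a) * ∫ x in Set.Icc a b, g x ^ 2 := by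
  have hm : 0 < b - a := by linarith
  set t := (∫ x in Set.Icc a b, g x) / (b - a) with ht
  have hi1 : IntegrableOn g (Set.Icc a b) := hg.continuousOn.integrableOn_compact isCompact_Icc
  have hi2 : IntegrableOn (fun x => g x ^ 2) (Set.Icc a b) :=
    (hg.pow 2).continuousOn.integrableOn_compact isCompact_Icc
  have h0 : 0 ≤ ∫ x in Set.Icc a b, (g x - t) ^ 2 := integral_nonneg fun x => sq_nonneg _
  have h1 : ∫ x in Set.Icc a b, (g x - t) ^ 2 = (∫ x in Set.Icc a b, g x ^ 2) -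
      2 * t * (∫ x in Set.Icc a b, g x) + t ^ 2 * (b - a) := by
    have e1 : ∀ x, (g x - t) ^ 2 = g x ^ 2 - 2 * t * g x + t ^ 2 := fun x => by ring
    simp only [e1]
    have e2 : ∫ x in Set.Icc a b, (g x ^ 2 - 2 * t * g x + t ^ 2) =
        (∫ x in Set.Icc a b, (g x ^ 2 - 2 * t * g x)) + ∫ _x in Set.Icc a b, t ^ 2 :=
      integral_add (hi2.sub (hi1.const_mul (2 * t))) (integrable_const _)
    have e3 : ∫ x in Set.Icc a b, (g x ^ 2 - 2 * t * g x) =
        (∫ x in Set.Icc a b, g x ^ 2) - ∫ x in Set.Icc a b, 2 * t * g x :=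
      integral_sub hi2 (hi1.const_mul (2 * t))
    rw [e2, e3, integral_const_mul, setIntegral_const,
      smul_eq_mul, Real.volume_real_Icc_of_le hab.le]
    ring
  rw [h1] at h0
  have h2 : (∫ x in Set.Icc a b, g x) = t * (b - a) := by
    rw [ht]
    field_simp
  rw [h2] at h0 ⊢
  have h3 : 0 ≤ (∫ x in Set.Icc a b, g x ^ 2) - t ^ 2 * (b - a) := by
    have : (∫ x in Set.Icc a b, g x ^ 2) - 2 * t * (t * (b - a)) + t ^ 2 * (b - a) =
      (∫ x in Set.Icc a b, g x ^ 2) - t ^ 2 * (b - a) := by ring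
    linarith
  have h4 := mul_nonneg hm.le h3
  nlinarith

private theorem TypeIIC_off {M : ℕ} {χ : DirichletCharacter ℂ M} {Ca Cb : ℝ} (hCa1 : 1 ≤ Ca) (hCb1 : 1 ≤ Cb)
    (hCa : ∀ U c τ : ℝ, ‖As χ U c τ‖ ≤ Ca * (1 + |c|) ^ 6 ∧
      (c ≤ 0 → ‖As χ U c τ‖ ≤ Ca * Real.exp (-c ^ 2 / 16)))
    (hCb : ∀ U y τ : ℝ, ‖Bs χ U y τ‖ ≤ Cb * (1 + |y|) ^ 6 ∧
      (y ≤ 0 → ‖Bs χ U y τ‖ ≤ Cb * Real.exp (-y ^ 2 / 16)))
    {L c : ℝ} (hL : 1 ≤ L) (hc : c ∉ Set.Icc (-L) (2 * L)) (U τ : ℝ) :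
    ‖As χ U c τ‖ * ‖Bs χ U (L - c) τ‖ ≤ Ca * Cb * 10 ^ 9 * Real.exp (-L ^ 2 / 64) *
      (Real.exp (-(1 / 64) * c ^ 2) + Real.exp (-(1 / 64) * (c - L) ^ 2)) := by
  have key : ∀ z : ℝ, L ≤ |z| → (1 + 2 * |z|) ^ 6 * Real.exp (-z ^ 2 / 16) ≤
      10 ^ 9 * Real.exp (-L ^ 2 / 64) * Real.exp (-(1 / 64) * z ^ 2) := by
    intro z hz
    have h1 := TypeIIC_poly |z| (abs_nonneg z)
    rw [sq_abs] at h1
    have h2 : L ^ 2 ≤ z ^ 2 := by
      rw [← sq_abs z]
      exact pow_le_pow_left₀ (by linarith) hz 2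
    calc (1 + 2 * |z|) ^ 6 * Real.exp (-z ^ 2 / 16) ≤
        (10 ^ 9 * Real.exp (z ^ 2 / 32)) * Real.exp (-z ^ 2 / 16) :=
          mul_le_mul_of_nonneg_right h1 (Real.exp_pos _).le
      _ = 10 ^ 9 * Real.exp (z ^ 2 / 32 + -z ^ 2 / 16) := by rw [mul_assoc, ← Real.exp_add]
      _ ≤ 10 ^ 9 * Real.exp (-L ^ 2 / 64 + -(1 / 64) * z ^ 2) := by
          apply mul_le_mul_of_nonneg_left _ (by norm_num)
          apply Real.exp_le_exp.mpr
          linarith
      _ = 10 ^ 9 * Real.exp (-L ^ 2 / 64) * Real.exp (-(1 / 64) * z ^ 2) := by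
          rw [Real.exp_add, mul_assoc]
  have hCC : 0 ≤ Ca * Cb := by positivity
  rw [Set.mem_Icc, not_and_or, not_le, not_le] at hc
  rcases hc with hc | hc
  · have hcabs : |c| = -c := abs_of_neg (by linarith)
    have h1 : ‖As χ U c τ‖ ≤ Ca * Real.exp (-c ^ 2 / 16) := (hCa U c τ).2 (by linarith)
    have h2 : ‖Bs χ U (L - c) τ‖ ≤ Cb * (1 + 2 * |c|) ^ 6 := by
      refine (hCb U (L - c) τ).1.trans ?_
      apply mul_le_mul_of_nonneg_left _ (by linarith)
      apply pow_le_pow_left₀ (by positivity)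
      rw [abs_of_nonneg (by linarith : 0 ≤ L - c), hcabs]
      linarith
    calc ‖As χ U c τ‖ * ‖Bs χ U (L - c) τ‖ ≤ (Ca * Real.exp (-c ^ 2 / 16)) * (Cb * (1 + 2 * |c|) ^ 6) :=
          mul_le_mul h1 h2 (norm_nonneg _) (by positivity)
      _ = (Ca * Cb) * ((1 + 2 * |c|) ^ 6 * Real.exp (-c ^ 2 / 16)) := by ring
      _ ≤ (Ca * Cb) * (10 ^ 9 * Real.exp (-L ^ 2 / 64) * Real.exp (-(1 / 64) * c ^ 2)) :=
          mul_le_mul_of_nonneg_left (key c (by rw [hcabs]; linarith)) hCC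
      _ ≤ _ := by
          have h3 : 0 ≤ Ca * Cb * 10 ^ 9 * Real.exp (-L ^ 2 / 64) := by positivity
          have h4 := (Real.exp_pos (-(1 / 64) * (c - L) ^ 2)).le
          nlinarith [mul_nonneg h3 h4]
  · have hyabs : |c - L| = c - L := abs_of_pos (by linarith)
    have h1 : ‖Bs χ U (L - c) τ‖ ≤ Cb * Real.exp (-(c - L) ^ 2 / 16) := by
      have h := (hCb U (L - c) τ).2 (by linarith)
      have e : (L - c) ^ 2 = (c - L) ^ 2 := by ring
      rwa [e] at h
    have h2 : ‖As χ U c τ‖ ≤ Ca * (1 + 2 * |c - L|) ^ 6 := by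
      refine (hCa U c τ).1.trans ?_
      apply mul_le_mul_of_nonneg_left _ (by linarith)
      apply pow_le_pow_left₀ (by positivity)
      rw [abs_of_nonneg (by linarith : 0 ≤ c), hyabs]
      linarith
    calc ‖As χ U c τ‖ * ‖Bs χ U (L - c) τ‖ ≤ (Ca * (1 + 2 * |c - L|) ^ 6) *
          (Cb * Real.exp (-(c - L) ^ 2 / 16)) :=
          mul_le_mul h2 h1 (norm_nonneg _) (by positivity)
      _ = (Ca * Cb) * ((1 + 2 * |c - L|) ^ 6 * Real.exp (-(c - L) ^ 2 / 16)) := by ring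
      _ ≤ (Ca * Cb) * (10 ^ 9 * Real.exp (-L ^ 2 / 64) * Real.exp (-(1 / 64) * (c - L) ^ 2)) :=
          mul_le_mul_of_nonneg_left (key (c - L) (by rw [hyabs]; linarith)) hCC
      _ ≤ _ := by
          have h3 : 0 ≤ Ca * Cb * 10 ^ 9 * Real.exp (-L ^ 2 / 64) := by positivity
          have h4 := (Real.exp_pos (-(1 / 64) * c ^ 2)).le
          nlinarith [mul_nonneg h3 h4]

/-- the pointwise bound -/
private theorem TypeIIC_point {M : ℕ} {χ : DirichletCharacter ℂ M} {Ca Cb : ℝ} (hCa1 : 1 ≤ Ca) (hCb1 : 1 ≤ Cb)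
    (hCa : ∀ U c τ : ℝ, ‖As χ U c τ‖ ≤ Ca * (1 + |c|) ^ 6 ∧
      (c ≤ 0 → ‖As χ U c τ‖ ≤ Ca * Real.exp (-c ^ 2 / 16)))
    (hCb : ∀ U y τ : ℝ, ‖Bs χ U y τ‖ ≤ Cb * (1 + |y|) ^ 6 ∧
      (y ≤ 0 → ‖Bs χ U y τ‖ ≤ Cb * Real.exp (-y ^ 2 / 16)))
    {L : ℝ} (hL : 1 ≤ L) (U τ : ℝ) :
    ‖T4 χ L U τ‖ ^ 2 ≤ 6 * L * (∫ c in Set.Icc (-L) (2 * L), (‖As χ U c τ‖ * ‖Bs χ U (L - c) τ‖) ^ 2) +
      2 * (Ca * Cb * 10 ^ 9 * Real.exp (-L ^ 2 / 64) *
        (2 * ∫ c : ℝ, Real.exp (-(1 / 64) * c ^ 2))) ^ 2 := by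
  obtain ⟨hcA, hcB⟩ := AsBs_cont χ U
  have hg : Continuous (fun c => ‖As χ U c τ‖ * ‖Bs χ U (L - c) τ‖) := by
    have h1 : Continuous fun c : ℝ => As χ U c τ := hcA.comp (continuous_id.prodMk continuous_const)
    have h2 : Continuous fun c : ℝ => Bs χ U (L - c) τ :=
      hcB.comp ((continuous_const.sub continuous_id).prodMk continuous_const)
    exact h1.norm.mul h2.norm
  set D := Ca * Cb * 10 ^ 9 * Real.exp (-L ^ 2 / 64) with hD
  have hD0 : 0 ≤ D := by positivity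
  have hG : Integrable (fun c : ℝ => Real.exp (-(1 / 64) * c ^ 2)) :=
    integrable_exp_neg_mul_sq (by norm_num)
  have hG2 : Integrable (fun c : ℝ => Real.exp (-(1 / 64) * (c - L) ^ 2)) :=
    hG.comp_sub_right L
  set G := ∫ c : ℝ, Real.exp (-(1 / 64) * c ^ 2) with hGdef
  have hGe : ∫ c : ℝ, Real.exp (-(1 / 64) * (c - L) ^ 2) = G :=
    integral_sub_right_eq_self (fun c : ℝ => Real.exp (-(1 / 64) * c ^ 2)) L
  have hG0 : 0 ≤ G := integral_nonneg fun c => (Real.exp_pos _).le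
  have hK : IntegrableOn (fun c => ‖As χ U c τ‖ * ‖Bs χ U (L - c) τ‖) (Set.Icc (-L) (2 * L)) :=
    hg.continuousOn.integrableOn_compact isCompact_Icc
  have hind : Integrable ((Set.Icc (-L) (2 * L)).indicator
      (fun c => ‖As χ U c τ‖ * ‖Bs χ U (L - c) τ‖)) := hK.integrable_indicator measurableSet_Icc
  have hle : ∫ c : ℝ, ‖As χ U c τ * Bs χ U (L - c) τ‖ ≤
      (∫ c in Set.Icc (-L) (2 * L), ‖As χ U c τ‖ * ‖Bs χ U (L - c) τ‖) + D * (2 * G) := by
    have h1 : ∫ c : ℝ, ‖As χ U c τ * Bs χ U (L - c) τ‖ ≤ ∫ c : ℝ, ((Set.Icc (-L) (2 * L)).indicator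
        (fun c => ‖As χ U c τ‖ * ‖Bs χ U (L - c) τ‖) c +
        D * (Real.exp (-(1 / 64) * c ^ 2) + Real.exp (-(1 / 64) * (c - L) ^ 2))) := by
      apply integral_mono_of_nonneg
      · exact Filter.Eventually.of_forall fun c => norm_nonneg _
      · exact hind.add ((hG.add hG2).const_mul D)
      · refine Filter.Eventually.of_forall fun c => ?_
        show ‖As χ U c τ * Bs χ U (L - c) τ‖ ≤ (Set.Icc (-L) (2 * L)).indicator
          (fun c => ‖As χ U c τ‖ * ‖Bs χ U (L - c) τ‖) c +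
          D * (Real.exp (-(1 / 64) * c ^ 2) + Real.exp (-(1 / 64) * (c - L) ^ 2))
        rw [norm_mul]
        by_cases hc : c ∈ Set.Icc (-L) (2 * L)
        · rw [Set.indicator_of_mem hc]
          have h2 : 0 ≤ D * (Real.exp (-(1 / 64) * c ^ 2) + Real.exp (-(1 / 64) * (c - L) ^ 2)) :=
            mul_nonneg hD0 (add_nonneg (Real.exp_pos _).le (Real.exp_pos _).le)
          linarith
        · rw [Set.indicator_of_notMem hc, zero_add]
          exact TypeIIC_off hCa1 hCb1 hCa hCb hL hc U τ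
    refine h1.trans (le_of_eq ?_)
    have h3 : ∫ c : ℝ, (Real.exp (-(1 / 64) * c ^ 2) + Real.exp (-(1 / 64) * (c - L) ^ 2)) =
        2 * G := by
      rw [integral_add hG hG2, hGe]
      ring
    have h4 : ∫ c : ℝ, ((Set.Icc (-L) (2 * L)).indicator
        (fun c => ‖As χ U c τ‖ * ‖Bs χ U (L - c) τ‖) c +
        D * (Real.exp (-(1 / 64) * c ^ 2) + Real.exp (-(1 / 64) * (c - L) ^ 2))) =
        (∫ c : ℝ, (Set.Icc (-L) (2 * L)).indicator
          (fun c => ‖As χ U c τ‖ * ‖Bs χ U (L - c) τ‖) c) +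
        ∫ c : ℝ, D * (Real.exp (-(1 / 64) * c ^ 2) + Real.exp (-(1 / 64) * (c - L) ^ 2)) :=
      integral_add hind ((hG.add hG2).const_mul D)
    rw [h4, integral_const_mul, integral_indicator measurableSet_Icc, h3]
  have hT4 : ‖T4 χ L U τ‖ ≤ (∫ c in Set.Icc (-L) (2 * L), ‖As χ U c τ‖ * ‖Bs χ U (L - c) τ‖) +
      D * (2 * G) := by
    rw [T4_eq, norm_mul, Complex.norm_real]
    have h1 : ‖(1 / Real.sqrt (2 * Real.pi) : ℝ)‖ ≤ 1 := by
      rw [Real.norm_of_nonneg (by positivity), div_le_one (by positivity)]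
      rw [Real.one_le_sqrt]
      have := Real.pi_gt_three
      linarith
    calc ‖(1 / Real.sqrt (2 * Real.pi) : ℝ)‖ * ‖∫ c : ℝ, As χ U c τ * Bs χ U (L - c) τ‖ ≤
        1 * ∫ c : ℝ, ‖As χ U c τ * Bs χ U (L - c) τ‖ :=
          mul_le_mul h1 (norm_integral_le_integral_norm _) (norm_nonneg _) zero_le_one
      _ ≤ _ := by rw [one_mul]; exact hle
  have hcs := TypeIIC_cs _ hg (by linarith : -L < 2 * L)
  set I := ∫ c in Set.Icc (-L) (2 * L), ‖As χ U c τ‖ * ‖Bs χ U (L - c) τ‖ with hI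
  have hsq : ‖T4 χ L U τ‖ ^ 2 ≤ (I + D * (2 * G)) ^ 2 := pow_le_pow_left₀ (norm_nonneg _) hT4 2
  have h5 : (I + D * (2 * G)) ^ 2 ≤ 2 * I ^ 2 + 2 * (D * (2 * G)) ^ 2 := by
    nlinarith [sq_nonneg (I - D * (2 * G))]
  have e : 2 * L - -L = 3 * L := by ring
  rw [e] at hcs
  linarith

theorem T4_ms {M : ℕ} [NeZero M] {χ : DirichletCharacter ℂ M} (hχ : χ ≠ 1) (A : ℝ) :
    ∃ L0 : ℝ, 1 ≤ L0 ∧ ∀ L : ℝ, L0 ≤ L →
    ∫ τ in {τ : ℝ | L ≤ |τ| ∧ |τ| ≤ Real.exp (L / 2)}, ‖T4 χ L (L / 20) τ‖ ^ 2 ≤ L ^ (-A) := by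
  obtain ⟨Ca, hCa1, hCa⟩ := As_tail χ
  obtain ⟨Cb, hCb1, hCb⟩ := Bs_tail χ
  obtain ⟨Ma, hMa1, hMa⟩ := As_ms χ
  obtain ⟨Mb, hMb1, hMb⟩ := Bs_ms χ
  obtain ⟨La, hLa1, hLa⟩ := As_sup hχ ((A + 9) / 2)
  obtain ⟨Lb, hLb1, hLb⟩ := Bs_sup hχ ((A + 9) / 2)
  set MM := max Ma Mb with hM
  have hM1 : 1 ≤ MM := le_trans hMa1 (le_max_left _ _)
  set D0 := Ca * Cb * 10 ^ 9 * (2 * ∫ c : ℝ, Real.exp (-(1 / 64) * c ^ 2)) with hD0
  -- the tiny term
  obtain ⟨Lc, hLc⟩ : ∃ Lc : ℝ, ∀ L ≥ Lc, 4 * D0 ^ 2 * (L ^ A * Real.exp (-(1 / 2) * L)) ≤ 1 / 2 := by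
    have h1 : Filter.Tendsto (fun L : ℝ => 4 * D0 ^ 2 * (L ^ A * Real.exp (-(1 / 2) * L)))
        Filter.atTop (nhds (4 * D0 ^ 2 * 0)) :=
      (tendsto_rpow_mul_exp_neg_mul_atTop_nhds_zero A (1 / 2) (by norm_num)).const_mul _
    rw [mul_zero] at h1
    exact Filter.eventually_atTop.mp (h1.eventually (ge_mem_nhds (by norm_num : (0 : ℝ) < 1 / 2)))
  refine ⟨max (max La Lb) (max Lc (max 32 (72 * 4 ^ 6 * MM))),
    le_trans hLa1 (le_trans (le_max_left _ _) (le_max_left _ _)), fun L hL => ?_⟩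
  have hL1 : La ≤ L := le_trans (le_trans (le_max_left _ _) (le_max_left _ _)) hL
  have hL2 : Lb ≤ L := le_trans (le_trans (le_max_right _ _) (le_max_left _ _)) hL
  have hL3 : Lc ≤ L := le_trans (le_trans (le_max_left _ _) (le_max_right _ _)) hL
  have hL4 : 32 ≤ L := le_trans (le_trans (le_trans (le_max_left _ _) (le_max_right _ _))
    (le_max_right _ _)) hL
  have hL5 : 72 * 4 ^ 6 * MM ≤ L := le_trans (le_trans (le_trans (le_max_right _ _)
    (le_max_right _ _)) (le_max_right _ _)) hL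
  have hL0 : 0 < L := by linarith
  have hL1' : 1 ≤ L := by linarith
  set T := Real.exp (L / 2) with hT
  have hT3 : 3 ≤ T := by
    have h1 := Real.add_one_le_exp (L / 2)
    linarith
  set S := {τ : ℝ | L ≤ |τ| ∧ |τ| ≤ T} with hS
  have hSc : IsCompact S := by
    have h1 : IsClosed S := by
      have e : S = (fun τ : ℝ => |τ|) ⁻¹' (Set.Icc L T) := rfl
      rw [e]
      exact isClosed_Icc.preimage continuous_abs
    apply IsCompact.of_isClosed_subset (isCompact_Icc (a := -T) (b := T)) h1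
    intro τ hτ
    exact abs_le.mp hτ.2
  have hSm : MeasurableSet S := hSc.measurableSet
  have hSsub : S ⊆ Set.Icc (-T) T := fun τ hτ => abs_le.mp hτ.2
  obtain ⟨hcA, hcB⟩ := AsBs_cont χ (L / 20)
  have hA1 : ∀ c, Continuous fun τ => ‖As χ (L / 20) c τ‖ ^ 2 := fun c =>
    (hcA.comp (continuous_const.prodMk continuous_id)).norm.pow 2
  have hB1 : ∀ c, Continuous fun τ => ‖Bs χ (L / 20) c τ‖ ^ 2 := fun c =>
    (hcB.comp (continuous_const.prodMk continuous_id)).norm.pow 2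
  set f : ℝ → ℝ → ℝ := fun τ c => (‖As χ (L / 20) c τ‖ * ‖Bs χ (L / 20) (L - c) τ‖) ^ 2 with hf
  have hfc : Continuous (Function.uncurry f) := by
    have h1 : Continuous fun q : ℝ × ℝ => As χ (L / 20) q.2 q.1 :=
      hcA.comp (continuous_snd.prodMk continuous_fst)
    have h2 : Continuous fun q : ℝ × ℝ => Bs χ (L / 20) (L - q.2) q.1 :=
      hcB.comp ((continuous_const.sub continuous_snd).prodMk continuous_fst)
    exact (h1.norm.mul h2.norm).pow 2
  have hfi : Integrable (Function.uncurry f)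
      ((volume.restrict S).prod (volume.restrict (Set.Icc (-L) (2 * L)))) := by
    rw [Measure.prod_restrict]
    exact hfc.continuousOn.integrableOn_compact (hSc.prod isCompact_Icc)
  have hfi2 : Integrable (fun τ => ∫ c in Set.Icc (-L) (2 * L), f τ c) (volume.restrict S) :=
    hfi.integral_prod_left
  -- inner bound
  have hinner : ∀ c ∈ Set.Icc (-L) (2 * L), ∫ τ in S, f τ c ≤
      L ^ (-(A + 9)) * (2 * MM * (4 * L) ^ 6) := by
    intro c hc
    have hLp : (L ^ (-((A + 9) / 2))) ^ 2 = L ^ (-(A + 9)) := by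
      rw [← Real.rpow_natCast, ← Real.rpow_mul hL0.le]
      congr 1
      push_cast
      ring
    have hLp0 : 0 ≤ L ^ (-(A + 9)) := Real.rpow_nonneg hL0.le _
    have hpow : ∀ y : ℝ, |y| ≤ 3 * L → (1 + |y|) ^ 6 ≤ (4 * L) ^ 6 := fun y hy =>
      pow_le_pow_left₀ (by positivity) (by linarith) 6
    rcases le_total c (L / 2) with h | h
    · have h1 : ∫ τ in S, f τ c ≤ ∫ τ in S, L ^ (-(A + 9)) * ‖Bs χ (L / 20) (L - c) τ‖ ^ 2 := by
        apply setIntegral_mono_on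
        · exact (hfc.comp (continuous_id.prodMk continuous_const)).continuousOn.integrableOn_compact hSc
        · exact (continuous_const.mul (hB1 (L - c))).continuousOn.integrableOn_compact hSc
        · exact hSm
        · intro τ hτ
          have h2 := hLa L c τ hL1 hτ.1 hτ.2
          have h3 : ‖As χ (L / 20) c τ‖ ^ 2 ≤ L ^ (-(A + 9)) := by
            rw [← hLp]
            exact pow_le_pow_left₀ (norm_nonneg _) h2 2
          show (‖As χ (L / 20) c τ‖ * ‖Bs χ (L / 20) (L - c) τ‖) ^ 2 ≤ _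
          rw [mul_pow]
          exact mul_le_mul_of_nonneg_right h3 (sq_nonneg _)
      have h4 : ∫ τ in S, ‖Bs χ (L / 20) (L - c) τ‖ ^ 2 ≤ 2 * MM * (4 * L) ^ 6 := by
        have h5 : ∫ τ in S, ‖Bs χ (L / 20) (L - c) τ‖ ^ 2 ≤
            ∫ τ in Set.Icc (-T) T, ‖Bs χ (L / 20) (L - c) τ‖ ^ 2 := by
          apply setIntegral_mono_set
          · exact (hB1 (L - c)).continuousOn.integrableOn_compact isCompact_Icc
          · exact Filter.Eventually.of_forall fun τ => sq_nonneg _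
          · exact hSsub.eventuallyLE
        refine h5.trans ((hMb (L / 20) (L - c) T hT3).trans ?_)
        have h6 : T * Real.exp (-(L - c)) ≤ 1 := by
          rw [hT, ← Real.exp_add]
          apply Real.exp_le_one_iff.mpr
          linarith
        have h7 : |L - c| ≤ 3 * L := by
          rw [abs_le]
          constructor <;> linarith [hc.1, hc.2]
        calc Mb * (1 + |L - c|) ^ 6 * (T * Real.exp (-(L - c)) + 1) ≤ MM * (4 * L) ^ 6 * 2 := by
              apply mul_le_mul _ (by linarith) (by positivity) (by positivity)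
              exact mul_le_mul (le_max_right _ _) (hpow _ h7) (by positivity) (by linarith)
          _ = 2 * MM * (4 * L) ^ 6 := by ring
      rw [integral_const_mul] at h1
      exact h1.trans (mul_le_mul_of_nonneg_left h4 hLp0)
    · have h1 : ∫ τ in S, f τ c ≤ ∫ τ in S, L ^ (-(A + 9)) * ‖As χ (L / 20) c τ‖ ^ 2 := by
        apply setIntegral_mono_on
        · exact (hfc.comp (continuous_id.prodMk continuous_const)).continuousOn.integrableOn_compact hSc
        · exact (continuous_const.mul (hA1 c)).continuousOn.integrableOn_compact hSc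
        · exact hSm
        · intro τ hτ
          have h2 := hLb L (L - c) τ hL2 hτ.1 hτ.2
          have h3 : ‖Bs χ (L / 20) (L - c) τ‖ ^ 2 ≤ L ^ (-(A + 9)) := by
            rw [← hLp]
            exact pow_le_pow_left₀ (norm_nonneg _) h2 2
          show (‖As χ (L / 20) c τ‖ * ‖Bs χ (L / 20) (L - c) τ‖) ^ 2 ≤ _
          rw [mul_pow, mul_comm]
          exact mul_le_mul_of_nonneg_right h3 (sq_nonneg _)
      have h4 : ∫ τ in S, ‖As χ (L / 20) c τ‖ ^ 2 ≤ 2 * MM * (4 * L) ^ 6 := by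
        have h5 : ∫ τ in S, ‖As χ (L / 20) c τ‖ ^ 2 ≤
            ∫ τ in Set.Icc (-T) T, ‖As χ (L / 20) c τ‖ ^ 2 := by
          apply setIntegral_mono_set
          · exact (hA1 c).continuousOn.integrableOn_compact isCompact_Icc
          · exact Filter.Eventually.of_forall fun τ => sq_nonneg _
          · exact hSsub.eventuallyLE
        refine h5.trans ((hMa (L / 20) c T hT3).trans ?_)
        have h6 : T * Real.exp (-c) ≤ 1 := by
          rw [hT, ← Real.exp_add]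
          apply Real.exp_le_one_iff.mpr
          linarith
        have h7 : |c| ≤ 3 * L := by
          rw [abs_le]
          constructor <;> linarith [hc.1, hc.2]
        calc Ma * (1 + |c|) ^ 6 * (T * Real.exp (-c) + 1) ≤ MM * (4 * L) ^ 6 * 2 := by
              apply mul_le_mul _ (by linarith) (by positivity) (by positivity)
              exact mul_le_mul (le_max_left _ _) (hpow _ h7) (by positivity) (by linarith)
          _ = 2 * MM * (4 * L) ^ 6 := by ring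
      rw [integral_const_mul] at h1
      exact h1.trans (mul_le_mul_of_nonneg_left h4 hLp0)
  -- Tonelli
  have hswap : ∫ τ in S, ∫ c in Set.Icc (-L) (2 * L), f τ c =
      ∫ c in Set.Icc (-L) (2 * L), ∫ τ in S, f τ c := integral_integral_swap hfi
  have hdouble : ∫ τ in S, ∫ c in Set.Icc (-L) (2 * L), f τ c ≤
      3 * L * (L ^ (-(A + 9)) * (2 * MM * (4 * L) ^ 6)) := by
    rw [hswap]
    have h1 : ∫ c in Set.Icc (-L) (2 * L), ∫ τ in S, f τ c ≤
        ∫ _c in Set.Icc (-L) (2 * L), L ^ (-(A + 9)) * (2 * MM * (4 * L) ^ 6) := by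
      apply setIntegral_mono_on
      · exact hfi.integral_prod_right
      · exact integrable_const _
      · exact measurableSet_Icc
      · exact hinner
    refine h1.trans (le_of_eq ?_)
    rw [setIntegral_const, smul_eq_mul, Real.volume_real_Icc_of_le (by linarith)]
    ring
  set R := Ca * Cb * 10 ^ 9 * Real.exp (-L ^ 2 / 64) *
        (2 * ∫ c : ℝ, Real.exp (-(1 / 64) * c ^ 2)) with hR
  have hRe : R = D0 * Real.exp (-L ^ 2 / 64) := by
    rw [hR, hD0]
    ring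
  have hconst : ∫ _τ in S, 2 * R ^ 2 ≤ 2 * T * (2 * R ^ 2) := by
    have h1 : ∫ _τ in S, 2 * R ^ 2 ≤ ∫ _τ in Set.Icc (-T) T, 2 * R ^ 2 := by
      apply setIntegral_mono_set
      · exact integrable_const _
      · exact Filter.Eventually.of_forall fun τ => by positivity
      · exact hSsub.eventuallyLE
    refine h1.trans (le_of_eq ?_)
    rw [setIntegral_const, smul_eq_mul, Real.volume_real_Icc_of_le (by linarith)]
    ring
  have hmain : ∫ τ in S, ‖T4 χ L (L / 20) τ‖ ^ 2 ≤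
      ∫ τ in S, (6 * L * (∫ c in Set.Icc (-L) (2 * L), f τ c) + 2 * R ^ 2) := by
    apply integral_mono_of_nonneg
    · exact Filter.Eventually.of_forall fun τ => sq_nonneg _
    · have : IsFiniteMeasure (volume.restrict S) :=
        ⟨by rw [Measure.restrict_apply_univ]; exact hSc.measure_lt_top⟩
      exact (hfi2.const_mul (6 * L)).add (integrable_const _)
    · exact Filter.Eventually.of_forall fun τ => TypeIIC_point hCa1 hCb1 hCa hCb hL1' (L / 20) τ
  have hsplit : ∫ τ in S, (6 * L * (∫ c in Set.Icc (-L) (2 * L), f τ c) + 2 * R ^ 2) =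
      6 * L * (∫ τ in S, ∫ c in Set.Icc (-L) (2 * L), f τ c) + ∫ _τ in S, 2 * R ^ 2 := by
    have : IsFiniteMeasure (volume.restrict S) :=
      ⟨by rw [Measure.restrict_apply_univ]; exact hSc.measure_lt_top⟩
    rw [integral_add (hfi2.const_mul (6 * L)) (integrable_const _), integral_const_mul]
  have hfirst : 6 * L * (3 * L * (L ^ (-(A + 9)) * (2 * MM * (4 * L) ^ 6))) ≤ L ^ (-A) / 2 := by
    have e1 : L ^ (-A) = L ^ (-(A + 9)) * L ^ 9 := by
      rw [← Real.rpow_natCast L 9, ← Real.rpow_add hL0]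
      congr 1
      push_cast
      ring
    have e2 : 6 * L * (3 * L * (L ^ (-(A + 9)) * (2 * MM * (4 * L) ^ 6))) =
        L ^ (-(A + 9)) * (36 * 4 ^ 6 * MM * L ^ 8) := by ring
    rw [e1, e2, mul_div_assoc]
    apply mul_le_mul_of_nonneg_left _ (Real.rpow_nonneg hL0.le _)
    have h1 : 0 ≤ L ^ 8 := by positivity
    have h2 := mul_le_mul_of_nonneg_right hL5 h1
    have e3 : L * L ^ 8 = L ^ 9 := by ring
    rw [e3] at h2
    linarith
  have hsecond : 2 * T * (2 * R ^ 2) ≤ L ^ (-A) / 2 := by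
    have h1 : 2 * T * (2 * R ^ 2) ≤ 4 * D0 ^ 2 * Real.exp (-(1 / 2) * L) := by
      have e1 : 2 * T * (2 * R ^ 2) = 4 * D0 ^ 2 * Real.exp (L / 2 + (-L ^ 2 / 64 + -L ^ 2 / 64)) := by
        rw [hRe, hT, Real.exp_add, Real.exp_add]
        ring
      rw [e1]
      apply mul_le_mul_of_nonneg_left _ (by positivity)
      apply Real.exp_le_exp.mpr
      nlinarith
    have h2 := hLc L hL3
    have hLA : 0 < L ^ A := Real.rpow_pos_of_pos hL0 A
    have h3 : L ^ (-A) = (L ^ A)⁻¹ := Real.rpow_neg hL0.le A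
    refine h1.trans ?_
    rw [h3, inv_eq_one_div, div_div, le_div_iff₀ (by positivity)]
    linarith
  calc ∫ τ in S, ‖T4 χ L (L / 20) τ‖ ^ 2 ≤
      6 * L * (∫ τ in S, ∫ c in Set.Icc (-L) (2 * L), f τ c) + ∫ _τ in S, 2 * R ^ 2 := by
        rw [← hsplit]
        exact hmain
    _ ≤ 6 * L * (3 * L * (L ^ (-(A + 9)) * (2 * MM * (4 * L) ^ 6))) + 2 * T * (2 * R ^ 2) :=
        add_le_add (mul_le_mul_of_nonneg_left hdouble (by linarith)) hconst
    _ ≤ L ^ (-A) / 2 + L ^ (-A) / 2 := add_le_add hfirst hsecond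
    _ = L ^ (-A) := by ring

end ASC
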