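import Pool.Agent.ASC.TypeIC
import Pool.Agent.ASC.TypeIIC

/-!
# ASC.PMSC: the mean square of `P χ`, `χ ≠ 1`

PROOF. As `Pool/Agent/ASI/PMS.lean`, with `mainT` replaced by `0` (`χ ≠ 1`) and the twisted versions of all the imported
results; `gs Λ` there is `VKC.gc χ Λ` here.
-/

namespace ASC

open MeasureTheory ArithmeticFunction ASI

private noncomputable def PMSC_a (n : ℕ) : ℝ :=
  (n.divisors.card : ℝ) ^ 2 * (1 + Real.log n) ^ 2 / n

private theorem PMSC_a_nonneg (n : ℕ) : 0 ≤ PMSC_a n := by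
  unfold PMSC_a
  positivity

private theorem PMSC_term {M : ℕ} (χ : DirichletCharacter ℂ M) (n : ℕ) (τ : ℝ) :
    ‖(ArithmeticFunction.vonMangoldt n : ℂ) * nc χ n τ‖ ≤ PMSC_a n := by
  rw [norm_mul, Complex.norm_real, Real.norm_of_nonneg
    ArithmeticFunction.vonMangoldt_nonneg]
  refine (mul_le_mul_of_nonneg_left (nc_norm χ n τ)
    ArithmeticFunction.vonMangoldt_nonneg).trans ?_
  unfold PMSC_a
  rcases Nat.eq_zero_or_pos n with h | h
  · subst h
    simp
  · have h1 : (1 : ℝ) ≤ n := by exact_mod_cast h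
    have h2 : 0 ≤ Real.log n := Real.log_nonneg h1
    have h3 : ArithmeticFunction.vonMangoldt n ≤ Real.log n :=
      ArithmeticFunction.vonMangoldt_le_log
    have h4 : (1 : ℝ) ≤ n.divisors.card := by
      have : 0 < n.divisors.card := Finset.card_pos.mpr ⟨1, Nat.one_mem_divisors.mpr h.ne'⟩
      exact_mod_cast this
    have h5 : Real.log n ≤ (n.divisors.card : ℝ) ^ 2 * (1 + Real.log n) ^ 2 := by
      have h6 : (1 : ℝ) ≤ (n.divisors.card : ℝ) ^ 2 := one_le_pow₀ h4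
      nlinarith [sq_nonneg (Real.log n)]
    rw [← div_eq_mul_inv]
    exact div_le_div_of_nonneg_right (h3.trans h5) (by positivity)

private theorem PMSC_zero_cpow_ne (τ : ℝ) : -(1 + (τ : ℂ) * Complex.I) ≠ 0 := by
  intro h0
  have := congrArg Complex.re h0
  simp at this

private theorem PMSC_nc_cont {M : ℕ} (χ : DirichletCharacter ℂ M) (n : ℕ) :
    Continuous (fun τ : ℝ => nc χ n τ) := by
  unfold nc
  refine continuous_const.mul ?_
  rw [continuous_iff_continuousAt]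
  intro τ
  refine ContinuousAt.const_cpow ?_ (Or.inr (PMSC_zero_cpow_ne τ))
  fun_prop

/-- the weighted majorant -/
private theorem PMSC_sum : ∃ C : ℝ, 1 ≤ C ∧ ∀ y : ℝ,
    Summable (fun n : ℕ => PMSC_a n * Real.exp (-(Real.log n - y) ^ 2 / 16)) ∧
    ∑' n : ℕ, PMSC_a n * Real.exp (-(Real.log n - y) ^ 2 / 16) ≤ C * (1 + |y|) ^ 6 := by
  obtain ⟨C, hC, h⟩ := div_gauss
  exact ⟨C, hC, fun y => ⟨(h y).1, (h y).2.1⟩⟩

private theorem PMSC_exp_mono {x c c' : ℝ} (hc : 0 < c) (hcc : c ≤ c') :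
    Real.exp (-x ^ 2 / c) ≤ Real.exp (-x ^ 2 / c') := by
  apply Real.exp_le_exp.mpr
  rw [neg_div, neg_div, neg_le_neg_iff]
  exact div_le_div_of_nonneg_left (sq_nonneg x) hc hcc

private theorem PMSC_summand {M : ℕ} (χ : DirichletCharacter ℂ M) (L : ℝ) (n : ℕ) (τ : ℝ) :
    ‖(ArithmeticFunction.vonMangoldt n : ℂ) * nc χ n τ * (ps L (Real.log n) : ℝ)‖ ≤
      PMSC_a n * Real.exp (-(Real.log n - L) ^ 2 / 16) := by
  rw [norm_mul, Complex.norm_real, Real.norm_of_nonneg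
    (show 0 ≤ ps L (Real.log n) from (Real.exp_pos _).le)]
  exact mul_le_mul (PMSC_term χ n τ) (PMSC_exp_mono (by norm_num) (by norm_num))
    (Real.exp_pos _).le (PMSC_a_nonneg n)

theorem P_triv {M : ℕ} (χ : DirichletCharacter ℂ M) : ∃ C : ℝ, 1 ≤ C ∧ ∀ L τ : ℝ,
    ‖P χ L τ‖ ≤ C * (1 + |L|) ^ 6 := by
  obtain ⟨C, hC, h⟩ := PMSC_sum
  refine ⟨C, hC, fun L τ => ?_⟩
  obtain ⟨h1, h2⟩ := h L
  refine le_trans ?_ h2
  unfold P
  exact tsum_of_norm_bounded h1.hasSum fun n => PMSC_summand χ L n τ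

theorem P_cont {M : ℕ} (χ : DirichletCharacter ℂ M) (L : ℝ) : Continuous (P χ L) := by
  obtain ⟨C, hC, h⟩ := PMSC_sum
  unfold P
  refine continuous_tsum (fun n => ?_) (h L).1 fun n τ => PMSC_summand χ L n τ
  exact (continuous_const.mul (PMSC_nc_cont χ n)).mul continuous_const

private theorem PMSC_square (x w L : ℝ) :
    -(x - w) ^ 2 / 2 + -(w - L) ^ 2 / 6 =
      -(x - L) ^ 2 / 8 + -(2 / 3) * (w - (3 * x + L) / 4) ^ 2 := by
  ring

private theorem PMSC_prod (x w L : ℝ) :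
    Real.exp (-(x - w) ^ 2 / 2) * Real.exp (-(w - L) ^ 2 / 6) =
      Real.exp (-(x - L) ^ 2 / 8) * Real.exp (-(2 / 3) * (w - (3 * x + L) / 4) ^ 2) := by
  rw [← Real.exp_add, ← Real.exp_add, PMSC_square]

private theorem PMSC_conv_int (x L : ℝ) :
    Integrable (fun w : ℝ => Real.exp (-(x - w) ^ 2 / 2) * Real.exp (-(w - L) ^ 2 / 6)) := by
  simp only [PMSC_prod]
  exact ((integrable_exp_neg_mul_sq (b := 2 / 3) (by norm_num)).comp_sub_right _).const_mul _

private theorem PMSC_conv (x L : ℝ) :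
    ∫ w : ℝ, Real.exp (-(x - w) ^ 2 / 2) * Real.exp (-(w - L) ^ 2 / 6) =
      Real.sqrt (3 * Real.pi / 2) * Real.exp (-(x - L) ^ 2 / 8) := by
  simp only [PMSC_prod]
  rw [integral_const_mul]
  have h := integral_sub_right_eq_self (μ := (volume : Measure ℝ))
    (fun w : ℝ => Real.exp (-(2 / 3) * w ^ 2)) ((3 * x + L) / 4)
  rw [h, integral_gaussian]
  have : Real.pi / (2 / 3) = 3 * Real.pi / 2 := by ring
  rw [this, mul_comm]

private noncomputable def PMSC_F {M : ℕ} (χ : DirichletCharacter ℂ M) (L τ : ℝ) (n : ℕ) (w : ℝ) : ℂ :=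
  (ArithmeticFunction.vonMangoldt n : ℂ) * nc χ n τ *
    ((Real.exp (-(Real.log n - w) ^ 2 / 2) * Real.exp (-(w - L) ^ 2 / 6) : ℝ) : ℂ)

private theorem PMSC_F_int {M : ℕ} (χ : DirichletCharacter ℂ M) (L τ : ℝ) (n : ℕ) : Integrable (PMSC_F χ L τ n) := by
  unfold PMSC_F
  exact ((PMSC_conv_int _ _).ofReal).const_mul _

private theorem PMSC_F_integral {M : ℕ} (χ : DirichletCharacter ℂ M) (L τ : ℝ) (n : ℕ) : ∫ w : ℝ, PMSC_F χ L τ n w =
    (Real.sqrt (3 * Real.pi / 2) : ℂ) *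
      ((ArithmeticFunction.vonMangoldt n : ℂ) * nc χ n τ * (ps L (Real.log n) : ℝ)) := by
  unfold PMSC_F
  rw [integral_const_mul, integral_complex_ofReal, PMSC_conv]
  unfold ps
  push_cast
  ring

private theorem PMSC_F_norm {M : ℕ} (χ : DirichletCharacter ℂ M) (L τ : ℝ) (n : ℕ) : ∫ w : ℝ, ‖PMSC_F χ L τ n w‖ =
    Real.sqrt (3 * Real.pi / 2) *
      ‖(ArithmeticFunction.vonMangoldt n : ℂ) * nc χ n τ * (ps L (Real.log n) : ℝ)‖ := by
  have h1 : ∀ w, ‖PMSC_F χ L τ n w‖ = ‖(ArithmeticFunction.vonMangoldt n : ℂ) * nc χ n τ‖ *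
      (Real.exp (-(Real.log n - w) ^ 2 / 2) * Real.exp (-(w - L) ^ 2 / 6)) := fun w => by
    unfold PMSC_F
    rw [norm_mul, Complex.norm_real, Real.norm_of_nonneg (by positivity)]
  simp only [h1]
  rw [integral_const_mul, PMSC_conv, norm_mul (_ * _), Complex.norm_real,
    Real.norm_of_nonneg (show 0 ≤ ps L (Real.log n) from (Real.exp_pos _).le)]
  unfold ps
  ring

private theorem PMSC_F_tsum {M : ℕ} (χ : DirichletCharacter ℂ M) (L τ w : ℝ) : ∑' n : ℕ, PMSC_F χ L τ n w =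
    VKC.gc χ (fun n => ArithmeticFunction.vonMangoldt n) w τ *
      (Real.exp (-(w - L) ^ 2 / 6) : ℝ) := by
  unfold VKC.gc
  rw [← tsum_mul_right]
  refine tsum_congr fun n => ?_
  unfold PMSC_F nc
  push_cast
  ring

private theorem PMSC_F_cont {M : ℕ} (χ : DirichletCharacter ℂ M) (L τ : ℝ) : Continuous (fun w : ℝ => ∑' n : ℕ, PMSC_F χ L τ n w) := by
  obtain ⟨C, hC, h⟩ := PMSC_sum
  refine continuous_tsum (fun n => ?_) (h L).1 fun n w => ?_
  · unfold PMSC_F
    fun_prop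
  · unfold PMSC_F
    rw [norm_mul, Complex.norm_real, Real.norm_of_nonneg (by positivity)]
    refine mul_le_mul (PMSC_term χ n τ) ?_ (by positivity) (PMSC_a_nonneg n)
    rw [← Real.exp_add]
    apply Real.exp_le_exp.mpr
    rw [PMSC_square]
    nlinarith [sq_nonneg (w - (3 * Real.log n + L) / 4), sq_nonneg (Real.log n - L)]

private theorem PMSC_P_eq {M : ℕ} (χ : DirichletCharacter ℂ M) (L τ : ℝ) : (Real.sqrt (3 * Real.pi / 2) : ℂ) * P χ L τ =
    ∫ w : ℝ, VKC.gc χ (fun n => ArithmeticFunction.vonMangoldt n) w τ *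
      (Real.exp (-(w - L) ^ 2 / 6) : ℝ) := by
  obtain ⟨C, hC, h⟩ := PMSC_sum
  have hsum := integral_tsum_of_summable_integral_norm (μ := volume) (F := PMSC_F χ L τ)
    (PMSC_F_int χ L τ) (by
      simp only [PMSC_F_norm]
      refine Summable.mul_left _ ?_
      exact Summable.of_nonneg_of_le (fun n => norm_nonneg _) (fun n => PMSC_summand χ L n τ) (h L).1)
  simp only [PMSC_F_tsum, PMSC_F_integral] at hsum
  rw [← hsum, tsum_mul_left]
  rfl

private theorem PMSC_gs_bound {M : ℕ} (χ : DirichletCharacter ℂ M) : ∃ C : ℝ, 1 ≤ C ∧ ∀ w τ : ℝ,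
    ‖VKC.gc χ (fun n => ArithmeticFunction.vonMangoldt n) w τ‖ ≤ C * (1 + |w|) ^ 6 := by
  obtain ⟨C, hC, h⟩ := PMSC_sum
  refine ⟨C, hC, fun w τ => ?_⟩
  obtain ⟨h1, h2⟩ := h w
  refine le_trans ?_ h2
  unfold VKC.gc
  refine tsum_of_norm_bounded h1.hasSum fun n => ?_
  rw [norm_mul, Complex.norm_real, Real.norm_of_nonneg (Real.exp_pos _).le]
  have h3 := PMSC_term χ n τ
  unfold nc at h3
  rw [← mul_assoc] at h3
  exact mul_le_mul h3 (PMSC_exp_mono (by norm_num) (by norm_num))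
    (Real.exp_pos _).le (PMSC_a_nonneg n)

/-- the integrable majorant -/
private noncomputable def PMSC_G (u : ℝ) : ℝ := (1 + |u|) ^ 6 * Real.exp (-u ^ 2 / 12)

private theorem PMSC_G_nonneg (u : ℝ) : 0 ≤ PMSC_G u := by
  unfold PMSC_G
  positivity

private theorem PMSC_G_int : Integrable PMSC_G := by
  have h1 := integrable_exp_neg_mul_sq (b := 1 / 24) (by norm_num)
  have hb : ∃ K : ℝ, ∀ u : ℝ, (1 + |u|) ^ 6 * Real.exp (-u ^ 2 / 24) ≤ K := by
    refine ⟨Real.exp 216, fun u => ?_⟩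
    have h2 : (1 + |u|) ≤ Real.exp |u| := by
      have := Real.add_one_le_exp |u|
      linarith
    have h3 : (1 + |u|) ^ 6 ≤ Real.exp (6 * |u|) := by
      calc (1 + |u|) ^ 6 ≤ (Real.exp |u|) ^ 6 := pow_le_pow_left₀ (by positivity) h2 6
        _ = Real.exp (6 * |u|) := by
          rw [← Real.exp_nat_mul]
          norm_num
    calc (1 + |u|) ^ 6 * Real.exp (-u ^ 2 / 24)
        ≤ Real.exp (6 * |u|) * Real.exp (-u ^ 2 / 24) :=
          mul_le_mul_of_nonneg_right h3 (Real.exp_pos _).le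
      _ = Real.exp (6 * |u| + -u ^ 2 / 24) := (Real.exp_add _ _).symm
      _ ≤ Real.exp 216 := by
          apply Real.exp_le_exp.mpr
          rw [← sq_abs u]
          nlinarith [sq_nonneg (|u| - 72)]
  obtain ⟨K, hK⟩ := hb
  refine Integrable.mono' (h1.const_mul K) ?_ (Filter.Eventually.of_forall fun u => ?_)
  · refine Continuous.aestronglyMeasurable ?_
    unfold PMSC_G
    fun_prop
  · rw [Real.norm_of_nonneg (PMSC_G_nonneg u)]
    have e : PMSC_G u = ((1 + |u|) ^ 6 * Real.exp (-u ^ 2 / 24)) * Real.exp (-(1 / 24) * u ^ 2) := by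
      unfold PMSC_G
      rw [mul_assoc, ← Real.exp_add]
      congr 2
      ring
    rw [e]
    exact mul_le_mul_of_nonneg_right (hK u) (Real.exp_pos _).le

private theorem PMSC_shift (L w : ℝ) : (1 + |w|) ^ 6 ≤ (1 + |L|) ^ 6 * (1 + |w - L|) ^ 6 := by
  rw [← mul_pow]
  refine pow_le_pow_left₀ (by positivity) ?_ 6
  have h1 : |w| ≤ |L| + |w - L| := by
    calc |w| = |L + (w - L)| := by congr 1; ring
      _ ≤ _ := abs_add_le _ _
  nlinarith [mul_nonneg (abs_nonneg L) (abs_nonneg (w - L))]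

private theorem PMSC_point_aux {M : ℕ} [NeZero M] {χ : DirichletCharacter ℂ M} (hχ : χ ≠ 1)
    {A : ℝ} (hA : 0 ≤ A) : ∃ L0 : ℝ, 1 ≤ L0 ∧ ∀ L τ : ℝ, L0 ≤ L →
    |τ| ≤ Real.exp L → ‖P χ L τ‖ ≤ L ^ (-A) := by
  obtain ⟨C, hC, hgs⟩ := PMSC_gs_bound χ
  obtain ⟨w0, hw0, hpg⟩ := VKC.prime_gauss hχ 2 (A + 1)
  set s0 := Real.sqrt (3 * Real.pi / 2) with hs0
  have hs0p : 0 < s0 := Real.sqrt_pos.mpr (by positivity)
  set s1 := Real.sqrt (2 * Real.pi) with hs1
  have hs1p : 0 ≤ s1 := Real.sqrt_nonneg _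
  set I1 := ∫ u : ℝ, PMSC_G u with hI1
  have hI1p : 0 ≤ I1 := integral_nonneg PMSC_G_nonneg
  -- the limits
  have hlim1 : Filter.Tendsto (fun L : ℝ => I1 * 2 ^ (A + 1) * L⁻¹) Filter.atTop (nhds 0) := by
    have := (tendsto_inv_atTop_zero (𝕜 := ℝ)).const_mul (I1 * 2 ^ (A + 1))
    rwa [mul_zero] at this
  have hlim2 : Filter.Tendsto (fun L : ℝ => (I1 * (C + s1) * 2 ^ (6 : ℕ)) *
      (L ^ (6 + A) * Real.exp (-(1 / 48) * L))) Filter.atTop (nhds 0) := by
    have := (tendsto_rpow_mul_exp_neg_mul_atTop_nhds_zero (6 + A) (1 / 48)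
      (by norm_num)).const_mul (I1 * (C + s1) * 2 ^ (6 : ℕ))
    rwa [mul_zero] at this
  obtain ⟨L1, hL1⟩ := Filter.eventually_atTop.1
    (hlim1.eventually_le_const (show (0 : ℝ) < s0 / 2 by positivity))
  obtain ⟨L2, hL2⟩ := Filter.eventually_atTop.1
    (hlim2.eventually_le_const (show (0 : ℝ) < s0 / 2 by positivity))
  refine ⟨max (max (2 * w0) 2) (max L1 L2), le_trans (by norm_num : (1 : ℝ) ≤ 2)
    ((le_max_right _ _).trans (le_max_left _ _)), fun L τ hL hτ => ?_⟩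
  have hLw : 2 * w0 ≤ L := ((le_max_left _ _).trans (le_max_left _ _)).trans hL
  have hL2' : 2 ≤ L := ((le_max_right _ _).trans (le_max_left _ _)).trans hL
  have hLL1 := hL1 L (((le_max_left _ _).trans (le_max_right _ _)).trans hL)
  have hLL2 := hL2 L (((le_max_right _ _).trans (le_max_right _ _)).trans hL)
  have hLp : 0 < L := by linarith
  -- pointwise bound
  set D : ℝ := (L / 2) ^ (-(A + 1)) + Real.exp (-L ^ 2 / 48) * ((C + s1) * (1 + L) ^ 6) with hD
  have hDp : 0 ≤ D := by positivity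
  have hpt : ∀ w : ℝ, ‖VKC.gc χ (fun n => ArithmeticFunction.vonMangoldt n) w τ *
      (Real.exp (-(w - L) ^ 2 / 6) : ℝ)‖ ≤ D * PMSC_G (w - L) := by
    intro w
    rw [norm_mul, Complex.norm_real, Real.norm_of_nonneg (Real.exp_pos _).le]
    have hG1 : Real.exp (-(w - L) ^ 2 / 12) ≤ PMSC_G (w - L) := by
      unfold PMSC_G
      refine le_mul_of_one_le_left (Real.exp_pos _).le (one_le_pow₀ ?_)
      have := abs_nonneg (w - L)
      linarith
    rcases le_total (L / 2) w with hw | hw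
    · have hww : w0 ≤ w := by linarith
      have hτw : |τ| ≤ Real.exp (2 * w) := hτ.trans (Real.exp_le_exp.mpr (by linarith))
      have h1 := hpg w τ hww hτw
      have h2 : w ^ (-(A + 1)) ≤ (L / 2) ^ (-(A + 1)) :=
        Real.rpow_le_rpow_of_nonpos (by positivity) hw (by linarith)
      have h3 : ‖VKC.gc χ (fun n => ArithmeticFunction.vonMangoldt n) w τ‖ ≤ D := by
        refine (h1.trans h2).trans ?_
        rw [hD]
        have : 0 ≤ Real.exp (-L ^ 2 / 48) * ((C + s1) * (1 + L) ^ 6) := by positivity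
        linarith
      refine mul_le_mul h3 (le_trans (PMSC_exp_mono (by norm_num) (by norm_num)) hG1)
        (Real.exp_pos _).le hDp
    · have h1 : ‖VKC.gc χ (fun n => ArithmeticFunction.vonMangoldt n) w τ‖ ≤
          (C + s1) * ((1 + L) ^ 6 * (1 + |w - L|) ^ 6) := by
        have h2 := hgs w τ
        have h4 := PMSC_shift L w
        rw [abs_of_pos hLp] at h4
        have h8 : C * (1 + |w|) ^ 6 ≤ C * ((1 + L) ^ 6 * (1 + |w - L|) ^ 6) :=
          mul_le_mul_of_nonneg_left h4 (by linarith)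
        rw [add_mul]
        have h10 : 0 ≤ s1 * ((1 + L) ^ 6 * (1 + |w - L|) ^ 6) := by positivity
        exact (h2.trans h8).trans (by linarith)
      have h2 : Real.exp (-(w - L) ^ 2 / 6) ≤
          Real.exp (-L ^ 2 / 48) * Real.exp (-(w - L) ^ 2 / 12) := by
        rw [← Real.exp_add]
        apply Real.exp_le_exp.mpr
        nlinarith
      calc ‖VKC.gc χ (fun n => ArithmeticFunction.vonMangoldt n) w τ‖ *
            Real.exp (-(w - L) ^ 2 / 6)
          ≤ ((C + s1) * ((1 + L) ^ 6 * (1 + |w - L|) ^ 6)) *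
            (Real.exp (-L ^ 2 / 48) * Real.exp (-(w - L) ^ 2 / 12)) :=
            mul_le_mul h1 h2 (Real.exp_pos _).le (by positivity)
        _ = (Real.exp (-L ^ 2 / 48) * ((C + s1) * (1 + L) ^ 6)) * PMSC_G (w - L) := by
            unfold PMSC_G
            ring
        _ ≤ D * PMSC_G (w - L) := by
            refine mul_le_mul_of_nonneg_right ?_ (PMSC_G_nonneg _)
            rw [hD]
            have : 0 ≤ (L / 2) ^ (-(A + 1)) := by positivity
            linarith
  have hGint : Integrable (fun w : ℝ => D * PMSC_G (w - L)) :=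
    (PMSC_G_int.comp_sub_right L).const_mul D
  have hgsint : Integrable (fun w : ℝ =>
      VKC.gc χ (fun n => ArithmeticFunction.vonMangoldt n) w τ *
        (Real.exp (-(w - L) ^ 2 / 6) : ℝ)) := by
    refine Integrable.mono' ((PMSC_G_int.comp_sub_right L).const_mul (C * (1 + |L|) ^ 6)) ?_
      (Filter.Eventually.of_forall fun w => ?_)
    · have := PMSC_F_cont χ L τ
      simp only [PMSC_F_tsum] at this
      exact this.aestronglyMeasurable
    · rw [norm_mul, Complex.norm_real, Real.norm_of_nonneg (Real.exp_pos _).le]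
      have h4 := PMSC_shift L w
      calc ‖VKC.gc χ (fun n => ArithmeticFunction.vonMangoldt n) w τ‖ *
            Real.exp (-(w - L) ^ 2 / 6)
          ≤ (C * ((1 + |L|) ^ 6 * (1 + |w - L|) ^ 6)) * Real.exp (-(w - L) ^ 2 / 12) := by
            refine mul_le_mul ((hgs w τ).trans (mul_le_mul_of_nonneg_left h4 (by linarith)))
              (PMSC_exp_mono (by norm_num) (by norm_num)) (Real.exp_pos _).le (by positivity)
        _ = C * (1 + |L|) ^ 6 * PMSC_G (w - L) := by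
            unfold PMSC_G
            ring
  have hdiff : (s0 : ℂ) * P χ L τ = ∫ w : ℝ,
      VKC.gc χ (fun n => ArithmeticFunction.vonMangoldt n) w τ *
        (Real.exp (-(w - L) ^ 2 / 6) : ℝ) := by
    rw [PMSC_P_eq]
  have hbound : s0 * ‖P χ L τ‖ ≤ D * I1 := by
    have h1 := norm_integral_le_of_norm_le hGint (Filter.Eventually.of_forall hpt)
    rw [← hdiff, norm_mul, Complex.norm_real, Real.norm_of_nonneg hs0p.le, integral_const_mul,
      integral_sub_right_eq_self (μ := (volume : Measure ℝ)) PMSC_G L] at h1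
    exact h1
  -- conclusion
  have hLA : 0 < L ^ (-A) := Real.rpow_pos_of_pos hLp _
  have e1 : (L / 2) ^ (-(A + 1)) = 2 ^ (A + 1) * L⁻¹ * L ^ (-A) := by
    rw [Real.div_rpow hLp.le (by norm_num), Real.rpow_neg (by norm_num : (0 : ℝ) ≤ 2),
      neg_add, Real.rpow_add hLp, Real.rpow_neg_one]
    field_simp
  have e2 : Real.exp (-L ^ 2 / 48) * ((C + s1) * (1 + L) ^ 6) ≤
      (C + s1) * 2 ^ (6 : ℕ) * (L ^ (6 + A) * Real.exp (-(1 / 48) * L)) * L ^ (-A) := by
    have h1 : Real.exp (-L ^ 2 / 48) ≤ Real.exp (-(1 / 48) * L) := by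
      apply Real.exp_le_exp.mpr
      nlinarith
    have h2 : (1 + L) ^ 6 ≤ 2 ^ (6 : ℕ) * L ^ 6 := by
      rw [← mul_pow]
      exact pow_le_pow_left₀ (by positivity) (by linarith) 6
    have h3 : L ^ (6 + A) * L ^ (-A) = L ^ 6 := by
      rw [← Real.rpow_add hLp]
      have : (6 : ℝ) + A + -A = (6 : ℕ) := by
        push_cast
        ring
      rw [this, Real.rpow_natCast]
    calc Real.exp (-L ^ 2 / 48) * ((C + s1) * (1 + L) ^ 6)
        ≤ Real.exp (-(1 / 48) * L) * ((C + s1) * (2 ^ (6 : ℕ) * L ^ 6)) :=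
          mul_le_mul h1 (mul_le_mul_of_nonneg_left h2 (by positivity)) (by positivity)
            (Real.exp_pos _).le
      _ = (C + s1) * 2 ^ (6 : ℕ) * (L ^ (6 + A) * Real.exp (-(1 / 48) * L)) * L ^ (-A) := by
          rw [← h3]
          ring
  have h7 : D * I1 ≤ s0 * L ^ (-A) := by
    calc D * I1 ≤ (2 ^ (A + 1) * L⁻¹ * L ^ (-A) +
          (C + s1) * 2 ^ (6 : ℕ) * (L ^ (6 + A) * Real.exp (-(1 / 48) * L)) * L ^ (-A)) * I1 := by
          refine mul_le_mul_of_nonneg_right ?_ hI1p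
          rw [hD, e1]
          linarith
      _ = (I1 * 2 ^ (A + 1) * L⁻¹ + (I1 * (C + s1) * 2 ^ (6 : ℕ)) *
          (L ^ (6 + A) * Real.exp (-(1 / 48) * L))) * L ^ (-A) := by ring
      _ ≤ (s0 / 2 + s0 / 2) * L ^ (-A) :=
          mul_le_mul_of_nonneg_right (add_le_add hLL1 hLL2) hLA.le
      _ = s0 * L ^ (-A) := by ring
  exact le_of_mul_le_mul_left (hbound.trans h7) hs0p

private theorem PMSC_point {M : ℕ} [NeZero M] {χ : DirichletCharacter ℂ M} (hχ : χ ≠ 1) (A : ℝ) :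
    ∃ L0 : ℝ, 1 ≤ L0 ∧ ∀ L τ : ℝ, L0 ≤ L → |τ| ≤ Real.exp L → ‖P χ L τ‖ ≤ L ^ (-A) := by
  obtain ⟨L0, h1, h2⟩ := PMSC_point_aux hχ (le_max_right A 0)
  refine ⟨L0, h1, fun L τ hL hτ => (h2 L τ hL hτ).trans ?_⟩
  refine Real.rpow_le_rpow_of_exponent_le (h1.trans hL) ?_
  have := le_max_left A 0
  linarith

private theorem PMSC_T4_meas {M : ℕ} (χ : DirichletCharacter ℂ M) (L U : ℝ) :
    StronglyMeasurable (fun τ : ℝ => T4 χ L U τ) := by
  simp only [T4_eq]
  obtain ⟨h1, h2⟩ := AsBs_cont χ U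
  refine StronglyMeasurable.const_mul ?_ _
  have g1 : Continuous (fun q : ℝ × ℝ => (q.2, q.1)) := continuous_snd.prodMk continuous_fst
  have g2 : Continuous (fun q : ℝ × ℝ => (L - q.2, q.1)) :=
    (continuous_const.sub continuous_snd).prodMk continuous_fst
  have k1 := Continuous.comp (f := fun q : ℝ × ℝ => (q.2, q.1))
    (g := fun q : ℝ × ℝ => As χ U q.1 q.2) h1 g1
  have k2 := Continuous.comp (f := fun q : ℝ × ℝ => (L - q.2, q.1))
    (g := fun q : ℝ × ℝ => Bs χ U q.1 q.2) h2 g2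
  have hc : Continuous (fun q : ℝ × ℝ => As χ U q.2 q.1 * Bs χ U (L - q.2) q.1) := k1.mul k2
  exact hc.stronglyMeasurable.integral_prod_right (f := fun τ c => As χ U c τ * Bs χ U (L - c) τ)

theorem P_mean_sq {M : ℕ} [NeZero M] {χ : DirichletCharacter ℂ M} (hχ : χ ≠ 1) (A : ℝ) :
    ∃ L0 : ℝ, 1 ≤ L0 ∧ ∀ L : ℝ, L0 ≤ L →
    ∫ τ in Set.Icc (-Real.exp (L / 2)) (Real.exp (L / 2)), ‖P χ L τ‖ ^ 2 ≤ L ^ (-A) := by
  obtain ⟨L1, hL1, H1⟩ := PMSC_point hχ ((A + 2) / 2)
  obtain ⟨L2, hL2, H2⟩ := typeI hχ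
  obtain ⟨L3, hL3, H3⟩ := T4_ms hχ (A + 1)
  have hlim : Filter.Tendsto (fun L : ℝ => 222 * (L ^ A * Real.exp (-(1 / 25) * L))) Filter.atTop
      (nhds 0) := by
    have := (tendsto_rpow_mul_exp_neg_mul_atTop_nhds_zero A (1 / 25)
      (by norm_num)).const_mul (222 : ℝ)
    rwa [mul_zero] at this
  obtain ⟨L4, hL4⟩ := Filter.eventually_atTop.1
    (hlim.eventually_le_const (show (0 : ℝ) < 1 / 4 by norm_num))
  refine ⟨max (max L1 L2) (max (max L3 L4) 12), le_trans (by norm_num : (1 : ℝ) ≤ 12)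
    ((le_max_right _ _).trans (le_max_right _ _)), fun L hL => ?_⟩
  have hLL1 : L1 ≤ L := ((le_max_left _ _).trans (le_max_left _ _)).trans hL
  have hLL2 : L2 ≤ L := ((le_max_right _ _).trans (le_max_left _ _)).trans hL
  have hLL3 : L3 ≤ L :=
    ((le_max_left _ _).trans ((le_max_left _ _).trans (le_max_right _ _))).trans hL
  have hLL4 := hL4 L
    (((le_max_right _ _).trans ((le_max_left _ _).trans (le_max_right _ _))).trans hL)
  have hL12 : 12 ≤ L := ((le_max_right _ _).trans (le_max_right _ _)).trans hL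
  have hLp : 0 < L := by linarith
  have hLA : 0 < L ^ (-A) := Real.rpow_pos_of_pos hLp _
  set T := Real.exp (L / 2) with hT
  have hTp : 0 < T := Real.exp_pos _
  set f : ℝ → ℝ := fun τ => ‖P χ L τ‖ ^ 2 with hf
  have hfc : Continuous f := ((P_cont χ L).norm).pow 2
  have hf0 : ∀ τ, 0 ≤ f τ := fun τ => by
    rw [hf]
    positivity
  set E : Set ℝ := {τ : ℝ | L ≤ |τ| ∧ |τ| ≤ T} with hE
  have hEm : MeasurableSet E :=
    (measurableSet_le measurable_const measurable_abs).inter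
      (measurableSet_le measurable_abs measurable_const)
  have hEsub : E ⊆ Set.Icc (-T) T := fun τ hτ => abs_le.mp hτ.2
  have hfI : IntegrableOn f (Set.Icc (-T) T) := hfc.continuousOn.integrableOn_Icc
  have hsplit := integral_inter_add_sdiff (μ := (volume : Measure ℝ)) (f := f)
    (measurableSet_Icc (a := -L) (b := L)) hfI
  show ∫ τ in Set.Icc (-T) T, f τ ≤ L ^ (-A)
  rw [← hsplit]
  -- the small `τ`
  have hsmall : ∫ τ in Set.Icc (-T) T ∩ Set.Icc (-L) L, f τ ≤ L ^ (-A) / 4 := by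
    have h1 : ∫ τ in Set.Icc (-T) T ∩ Set.Icc (-L) L, f τ ≤ ∫ τ in Set.Icc (-L) L, f τ :=
      setIntegral_mono_set hfc.continuousOn.integrableOn_Icc
        (Filter.Eventually.of_forall fun τ => hf0 τ)
        (Filter.Eventually.of_forall fun τ hτ => hτ.2)
    have h2 : ∫ τ in Set.Icc (-L) L, f τ ≤ ∫ τ in Set.Icc (-L) L, L ^ (-(A + 2)) := by
      refine setIntegral_mono_on hfc.continuousOn.integrableOn_Icc
        (continuous_const.continuousOn.integrableOn_Icc) measurableSet_Icc fun τ hτ => ?_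
      have h3 : |τ| ≤ Real.exp L := by
        have := Real.add_one_le_exp L
        have := abs_le.mpr hτ
        linarith
      have h4 := H1 L τ hLL1 h3
      have h4' : ‖P χ L τ‖ ^ 2 ≤ (L ^ (-((A + 2) / 2))) ^ 2 :=
        pow_le_pow_left₀ (norm_nonneg _) h4 2
      have e0 : (L ^ (-((A + 2) / 2))) ^ 2 = L ^ (-(A + 2)) := by
        rw [← Real.rpow_natCast, ← Real.rpow_mul hLp.le]
        congr 1
        push_cast
        ring
      rw [e0] at h4'
      exact h4'
    refine h1.trans (h2.trans ?_)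
    rw [setIntegral_const, smul_eq_mul, Real.volume_real_Icc_of_le (by linarith)]
    have e : L ^ (-(A + 2)) = L ^ (-A) * (L⁻¹ * L⁻¹) := by
      rw [neg_add, Real.rpow_add hLp, Real.rpow_neg hLp.le 2]
      congr 1
      rw [show (2 : ℝ) = ((2 : ℕ) : ℝ) by norm_num, Real.rpow_natCast]
      field_simp
    rw [e]
    have e2 : (L - -L) * (L ^ (-A) * (L⁻¹ * L⁻¹)) = L ^ (-A) * (2 * L⁻¹) := by
      field_simp
      ring
    rw [e2]
    have h5 : 2 * L⁻¹ ≤ 1 / 4 := by
      rw [← div_eq_mul_inv, div_le_div_iff₀ hLp (by norm_num)]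
      linarith
    calc L ^ (-A) * (2 * L⁻¹) ≤ L ^ (-A) * (1 / 4) := mul_le_mul_of_nonneg_left h5 hLA.le
      _ = L ^ (-A) / 4 := by ring
  -- the large `τ`
  have hlarge : ∫ τ in Set.Icc (-T) T \ Set.Icc (-L) L, f τ ≤ 3 / 4 * L ^ (-A) := by
    have h1 : ∫ τ in Set.Icc (-T) T \ Set.Icc (-L) L, f τ ≤ ∫ τ in E, f τ := by
      refine setIntegral_mono_set (hfI.mono_set hEsub)
        (Filter.Eventually.of_forall fun τ => hf0 τ)
        (Filter.Eventually.of_forall fun τ hτ => ?_)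
      refine ⟨?_, abs_le.mpr hτ.1⟩
      by_contra h
      push Not at h
      exact hτ.2 (abs_le.mp h.le)
    have hT4b : ∀ τ ∈ E, ‖P χ L τ - T4 χ L (L / 20) τ‖ ≤ |τ| * Real.exp (-(77 / 100) * L) :=
      fun τ hτ => H2 L τ hLL2 hτ.1 hτ.2
    obtain ⟨B, hB⟩ := (isCompact_Icc (a := -T) (b := T)).exists_bound_of_continuousOn
      (P_cont χ L).continuousOn
    have hvolE : volume E < ⊤ := (measure_mono hEsub).trans_lt measure_Icc_lt_top
    have hT4int : IntegrableOn (fun τ => ‖T4 χ L (L / 20) τ‖ ^ 2) E := by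
      refine Measure.integrableOn_of_bounded hvolE.ne
        (((PMSC_T4_meas χ L (L / 20)).norm.pow 2).aestronglyMeasurable)
        (M := (B + T) ^ 2) ?_
      refine (ae_restrict_iff' hEm).mpr (Filter.Eventually.of_forall fun τ hτ => ?_)
      rw [Real.norm_of_nonneg (by positivity)]
      refine pow_le_pow_left₀ (norm_nonneg _) ?_ 2
      have h2 := hT4b τ hτ
      have h3 := hB τ (hEsub hτ)
      have h4 : |τ| * Real.exp (-(77 / 100) * L) ≤ T := by
        have : Real.exp (-(77 / 100) * L) ≤ 1 := Real.exp_le_one_iff.mpr (by linarith)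
        calc |τ| * Real.exp (-(77 / 100) * L) ≤ |τ| * 1 :=
              mul_le_mul_of_nonneg_left this (abs_nonneg _)
          _ ≤ T := by
              rw [mul_one]
              exact hτ.2
      calc ‖T4 χ L (L / 20) τ‖ = ‖P χ L τ - (P χ L τ - T4 χ L (L / 20) τ)‖ := by
            congr 1
            ring
        _ ≤ ‖P χ L τ‖ + ‖P χ L τ - T4 χ L (L / 20) τ‖ := norm_sub_le _ _
        _ ≤ B + T := add_le_add h3 (h2.trans h4)
    have hconst : IntegrableOn (fun _ : ℝ => 3 * (36 * Real.exp (-L) +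
        Real.exp (L - 154 / 100 * L))) E := integrableOn_const hvolE.ne
    have h2 : ∫ τ in E, f τ ≤ ∫ τ in E, (3 * (36 * Real.exp (-L) +
        Real.exp (L - 154 / 100 * L)) + 3 * ‖T4 χ L (L / 20) τ‖ ^ 2) := by
      refine setIntegral_mono_on (hfI.mono_set hEsub) (hconst.add (hT4int.const_mul 3)) hEm
        fun τ hτ => ?_
      have a2 := hT4b τ hτ
      have a4 : ‖P χ L τ - T4 χ L (L / 20) τ‖ ^ 2 ≤ Real.exp (L - 154 / 100 * L) := by
        calc ‖P χ L τ - T4 χ L (L / 20) τ‖ ^ 2 ≤ (T * Real.exp (-(77 / 100) * L)) ^ 2 := by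
              refine pow_le_pow_left₀ (norm_nonneg _) (a2.trans ?_) 2
              exact mul_le_mul_of_nonneg_right hτ.2 (Real.exp_pos _).le
          _ = Real.exp (L - 154 / 100 * L) := by
              rw [hT, ← Real.exp_add, ← Real.exp_nat_mul]
              congr 1
              push_cast
              ring
      have a5 : ‖P χ L τ‖ ≤ ‖P χ L τ - T4 χ L (L / 20) τ‖ + ‖T4 χ L (L / 20) τ‖ := by
        calc ‖P χ L τ‖ = ‖(P χ L τ - T4 χ L (L / 20) τ) + T4 χ L (L / 20) τ‖ := by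
              congr 1
              ring
          _ ≤ _ := norm_add_le _ _
      have a6 : ‖P χ L τ‖ ^ 2 ≤ (‖P χ L τ - T4 χ L (L / 20) τ‖ + ‖T4 χ L (L / 20) τ‖) ^ 2 :=
        pow_le_pow_left₀ (norm_nonneg _) a5 2
      show ‖P χ L τ‖ ^ 2 ≤ _
      have a7 : 0 ≤ 36 * Real.exp (-L) := by positivity
      nlinarith [sq_nonneg (‖P χ L τ - T4 χ L (L / 20) τ‖ - ‖T4 χ L (L / 20) τ‖),
        sq_nonneg (‖P χ L τ - T4 χ L (L / 20) τ‖), sq_nonneg (‖T4 χ L (L / 20) τ‖)]
    have h3 : ∫ τ in E, (3 * (36 * Real.exp (-L) + Real.exp (L - 154 / 100 * L)) +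
        3 * ‖T4 χ L (L / 20) τ‖ ^ 2) = (volume.real E) * (3 * (36 * Real.exp (-L) +
        Real.exp (L - 154 / 100 * L))) + 3 * ∫ τ in E, ‖T4 χ L (L / 20) τ‖ ^ 2 := by
      rw [integral_add hconst (hT4int.const_mul 3), setIntegral_const, smul_eq_mul,
        integral_const_mul]
    have h4 := H3 L hLL3
    have h5 : volume.real E ≤ 2 * T := by
      have h6 := measureReal_mono (μ := (volume : Measure ℝ)) hEsub measure_Icc_lt_top.ne
      rw [Real.volume_real_Icc_of_le (by linarith)] at h6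
      linarith
    have h7 : volume.real E * (3 * (36 * Real.exp (-L) + Real.exp (L - 154 / 100 * L))) ≤
        L ^ (-A) / 4 := by
      have b1 : T * Real.exp (-L) ≤ Real.exp (-(1 / 25) * L) := by
        rw [hT, ← Real.exp_add]
        apply Real.exp_le_exp.mpr
        linarith
      have b2 : T * Real.exp (L - 154 / 100 * L) ≤ Real.exp (-(1 / 25) * L) := by
        rw [hT, ← Real.exp_add]
        apply Real.exp_le_exp.mpr
        linarith
      have b3 : volume.real E * (3 * (36 * Real.exp (-L) + Real.exp (L - 154 / 100 * L))) ≤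
          2 * T * (3 * (36 * Real.exp (-L) + Real.exp (L - 154 / 100 * L))) :=
        mul_le_mul_of_nonneg_right h5 (by positivity)
      have b4 : 222 * Real.exp (-(1 / 25) * L) ≤ L ^ (-A) / 4 := by
        have c1 : L ^ (-A) * (222 * (L ^ A * Real.exp (-(1 / 25) * L))) ≤ L ^ (-A) * (1 / 4) :=
          mul_le_mul_of_nonneg_left hLL4 hLA.le
        have c2 : L ^ (-A) * L ^ A = 1 := by
          rw [← Real.rpow_add hLp]
          simp
        have c3 : L ^ (-A) * (222 * (L ^ A * Real.exp (-(1 / 25) * L))) =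
            222 * Real.exp (-(1 / 25) * L) * (L ^ (-A) * L ^ A) := by ring
        rw [c3, c2, mul_one] at c1
        linarith
      linarith
    have h8 : 3 * ∫ τ in E, ‖T4 χ L (L / 20) τ‖ ^ 2 ≤ L ^ (-A) / 4 := by
      have b1 : L ^ (-(A + 1)) = L ^ (-A) * L⁻¹ := by
        rw [neg_add, Real.rpow_add hLp, Real.rpow_neg_one]
      rw [b1] at h4
      have b2 : L⁻¹ ≤ 1 / 12 := by
        rw [inv_eq_one_div]
        exact one_div_le_one_div_of_le (by norm_num) hL12
      have b3 : L ^ (-A) * L⁻¹ ≤ L ^ (-A) * (1 / 12) := mul_le_mul_of_nonneg_left b2 hLA.le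
      have h4' : ∫ τ in E, ‖T4 χ L (L / 20) τ‖ ^ 2 ≤ L ^ (-A) * L⁻¹ := h4
      linarith
    rw [h3] at h2
    linarith
  linarith

end ASC
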