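import Pool.Agent.ASC.SharpK

/-!
# ASC.SharpI: the smoothed and the sharp integral

PROOF. As `SharpP`, steps (1)-(3), with the measure `exp(x) dx` in place of the primes: `∫ 1_{[log y, log(y+h)]} exp x dx = h`,
and `∫ |rho KK - 1_{[log y, log(y+h)]}| exp x dx` is at most (1) `h (8h/X + 9 exp(-L²/2))` from the core, (2)
`10 · 4 · 4X r` from `|x - log y| < r`, `|x - log(y+h)| < r`, where `X r = h/L^(A+2)`, (3) outside `KK ≤ exp(-L²/2)` and
`∫ rho(x) exp x dx = (y/ps L (log y)) ∫ ps L = C X`. The integrand is integrable since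
`rho L y x * exp x = y ps L x/ps L (log y)` and `0 ≤ KK ≤ 1`.
-/

namespace ASC

open MeasureTheory ASI

private theorem SharpI_exp_sub (c r : ℝ) :
    Real.exp (c + r) - Real.exp (c - r) ≤ 2 * r * Real.exp (c + r) := by
  have h1 : Real.exp (c - r) = Real.exp (c + r) * Real.exp (-(2 * r)) := by
    rw [← Real.exp_add]; congr 1; ring
  have h2 := Real.add_one_le_exp (-(2 * r))
  have h3 := Real.exp_pos (c + r)
  rw [h1]
  nlinarith

private theorem SharpI_ps_cont (L : ℝ) : Continuous (ps L) := by
  unfold ps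
  fun_prop

private theorem SharpI_ps_int (L : ℝ) : Integrable (ps L) := by
  have h := (integrable_exp_neg_mul_sq (show (0 : ℝ) < 1 / 8 by norm_num)).comp_sub_right L
  refine h.congr (Filter.Eventually.of_forall fun v => ?_)
  unfold ps
  simp only
  congr 1
  ring

private theorem SharpI_ps_val (L : ℝ) : ∫ x, ps L x ≤ 6 := by
  have h := integral_sub_right_eq_self (μ := (volume : Measure ℝ))
    (fun v => Real.exp (-(1 / 8) * v ^ 2)) L
  have h1 : ∫ x, ps L x = ∫ x, Real.exp (-(1 / 8) * (x - L) ^ 2) := by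
    refine integral_congr_ae (Filter.Eventually.of_forall fun v => ?_)
    unfold ps
    simp only
    congr 1
    ring
  rw [h1, h, integral_gaussian]
  rw [Real.sqrt_le_left (by norm_num)]
  have := Real.pi_le_four
  linarith

private theorem SharpI_ind_int (c d : ℝ) : Integrable (Set.indicator (Set.Icc c d) Real.exp) := by
  rw [integrable_indicator_iff measurableSet_Icc]
  exact Real.continuous_exp.continuousOn.integrableOn_compact isCompact_Icc

private theorem SharpI_ind_val {c d : ℝ} (h : c ≤ d) :
    ∫ x, Set.indicator (Set.Icc c d) Real.exp x = Real.exp d - Real.exp c := by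
  rw [integral_indicator measurableSet_Icc, integral_Icc_eq_integral_Ioc,
    ← intervalIntegral.integral_of_le h, integral_exp]

theorem cmp_int {th : ℝ} (h1 : 1 / 2 < th) (A : ℕ) :
    ∃ X0 : ℝ, 3 ≤ X0 ∧ ∀ X h y : ℝ, X0 ≤ X → X ^ th ≤ h → h ≤ X / Real.log X ^ (A + 2) → X ≤ y → y ≤ 3 * X →
      |(∫ x : ℝ, rho (Real.log X) y x * KK (h / X / Real.log X ^ (A + 3)) y h x * Real.exp x) - h| ≤
        h / Real.log X ^ A := by
  refine ⟨Real.exp (2 * A + 30), ?_, ?_⟩
  · have := Real.add_one_le_exp (2 * (A : ℝ) + 30)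
    have hA : (0 : ℝ) ≤ A := Nat.cast_nonneg A
    linarith
  intro X h y hX0 hh hh' hy hy'
  have hA : (0 : ℝ) ≤ A := Nat.cast_nonneg A
  have hXpos : 0 < X := (Real.exp_pos _).trans_le hX0
  obtain ⟨L, hL⟩ : ∃ L, L = Real.log X := ⟨_, rfl⟩
  have hL30 : 2 * (A : ℝ) + 30 ≤ L := by
    rw [hL, Real.le_log_iff_exp_le hXpos]
    exact hX0
  have hXe : X = Real.exp L := by rw [hL, Real.exp_log hXpos]
  have hX1 : 1 ≤ X := by
    have := Real.add_one_le_exp (2 * (A : ℝ) + 30)
    linarith
  have hL0 : 0 < L := by linarith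
  have hh1 : 1 ≤ h := (Real.one_le_rpow hX1 (by linarith)).trans hh
  have hh0 : 0 < h := by linarith
  have hy0 : 0 < y := by linarith
  rw [← hL] at hh' ⊢
  obtain ⟨Q, hQ⟩ : ∃ Q, Q = L ^ A := ⟨_, rfl⟩
  have hQ0 : 0 < Q := by rw [hQ]; positivity
  have hQ1 : 1 ≤ Q := by rw [hQ]; exact one_le_pow₀ (by linarith)
  have hQ2 : L ^ (A + 2) = Q * L ^ 2 := by rw [pow_add, hQ]
  have hQ3 : L ^ (A + 3) = Q * L ^ 3 := by rw [pow_add, hQ]
  have hL900 : 900 ≤ L ^ 2 := by nlinarith
  rw [hQ2] at hh'
  rw [hQ3, ← hQ]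
  -- `h / X` is small
  obtain ⟨s, hs⟩ : ∃ s, s = h / X := ⟨_, rfl⟩
  have hs0 : 0 < s := by rw [hs]; positivity
  have hsX : s * X = h := by rw [hs]; field_simp
  have hs1 : s * (Q * L ^ 2) ≤ 1 := by
    rw [le_div_iff₀ (by positivity)] at hh'
    rw [hs, div_mul_eq_mul_div, div_le_one hXpos]
    exact hh'
  have hs2 : s ≤ 1 / 900 := by
    have : 900 ≤ Q * L ^ 2 := by nlinarith
    rw [le_div_iff₀ (by norm_num)]
    nlinarith
  rw [← hs]
  obtain ⟨δ, hδ⟩ : ∃ δ, δ = s / (Q * L ^ 3) := ⟨_, rfl⟩
  rw [← hδ]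
  have hδ0 : 0 < δ := by rw [hδ]; positivity
  obtain ⟨r, hr⟩ : ∃ r, r = δ * L := ⟨_, rfl⟩
  have hr0 : 0 < r := by rw [hr]; positivity
  have hrs : r * (Q * L ^ 2) = s := by
    rw [hr, hδ]; field_simp
  have hr1 : r ≤ 1 / 900 := by
    have h2 : 1 ≤ Q * L ^ 2 := by nlinarith
    have h3 : r ≤ r * (Q * L ^ 2) := by nlinarith
    linarith
  have hrd : r / δ = L := by rw [hr]; field_simp
  obtain ⟨E, hE⟩ : ∃ E, E = Real.exp (-L ^ 2 / 2) := ⟨_, rfl⟩
  have hE0 : 0 < E := by rw [hE]; exact Real.exp_pos _
  have hEr : Real.exp (-(r / δ) ^ 2 / 2) = E := by rw [hrd, hE]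
  -- the small quantity
  have hsmall : X * E * Q ≤ 1 / 421 := by
    have h2 : Q ≤ Real.exp (A * L) := by
      rw [hQ, Real.exp_nat_mul]
      exact pow_le_pow_left₀ hL0.le (by linarith [Real.add_one_le_exp L]) A
    have h3 : X * E * Q ≤ Real.exp (-420) := by
      calc X * E * Q ≤ X * E * Real.exp (A * L) := mul_le_mul_of_nonneg_left h2 (by positivity)
        _ = Real.exp (L + -L ^ 2 / 2 + A * L) := by
          rw [hXe, hE, Real.exp_add, Real.exp_add]
        _ ≤ Real.exp (-420) := by
          apply Real.exp_le_exp.2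
          nlinarith
    have h4 : Real.exp (-420) ≤ 1 / 421 := by
      have h5 := Real.add_one_le_exp (420 : ℝ)
      rw [Real.exp_neg, ← one_div]
      exact one_div_le_one_div_of_le (by norm_num) (by linarith)
    exact h3.trans h4
  have hsmall2 : E * Q ≤ 1 / 421 := by
    have h2 : E * Q ≤ X * (E * Q) := by nlinarith [mul_pos hE0 hQ0]
    linarith
  -- end points
  obtain ⟨a, ha⟩ : ∃ a, a = Real.log y := ⟨_, rfl⟩
  obtain ⟨b, hb⟩ : ∃ b, b = Real.log (y + h) := ⟨_, rfl⟩
  have hea : Real.exp a = y := by rw [ha, Real.exp_log hy0]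
  have heb : Real.exp b = y + h := by rw [hb, Real.exp_log (by linarith)]
  have hab : a ≤ b := by rw [ha, hb]; exact Real.log_le_log hy0 (by linarith)
  have hba : b - a ≤ s := by
    rw [ha, hb, ← Real.log_div (by linarith) (by linarith)]
    have h2 := Real.log_le_sub_one_of_pos (show 0 < (y + h) / y by positivity)
    have h3 : (y + h) / y - 1 = h / y := by field_simp; ring
    rw [h3] at h2
    refine h2.trans ?_
    rw [hs]
    exact div_le_div_of_nonneg_left hh0.le hXpos hy
  have haL : 0 ≤ a - L := by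
    rw [ha, hL]
    linarith [Real.log_le_log hXpos hy]
  have haL2 : a - L ≤ 2 := by
    rw [ha, hL, ← Real.log_div (by linarith) (by linarith)]
    have h2 := Real.log_le_sub_one_of_pos (show 0 < y / X by positivity)
    have h3 : y / X ≤ 3 := by rw [div_le_iff₀ hXpos]; exact hy'
    linarith
  have hpsa : 1 / 2 ≤ ps L a := by
    unfold ps
    have h2 := Real.add_one_le_exp (-(a - L) ^ 2 / 8)
    nlinarith
  have hpsa0 : 0 < ps L a := by linarith
  obtain ⟨C0, hC0⟩ : ∃ C0, C0 = y / ps L a := ⟨_, rfl⟩
  have hC00 : 0 ≤ C0 := by rw [hC0]; positivity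
  have hC06 : C0 ≤ 6 * X := by
    rw [hC0, div_le_iff₀ hpsa0]
    nlinarith
  have hrho : ∀ x, rho L y x * Real.exp x = C0 * ps L x := by
    intro x
    unfold rho
    rw [← ha, hC0]
    have h2 : Real.exp (a - x) * Real.exp x = y := by
      rw [← Real.exp_add, sub_add_cancel, hea]
    calc Real.exp (a - x) * ps L x / ps L a * Real.exp x =
        (Real.exp (a - x) * Real.exp x) * ps L x / ps L a := by ring
      _ = _ := by rw [h2]; ring
  have hps0 : ∀ x, 0 < ps L x := fun x => Real.exp_pos _
  -- the function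
  obtain ⟨f, hf⟩ : ∃ f : ℝ → ℝ, f = fun x => rho L y x * KK δ y h x * Real.exp x := ⟨_, rfl⟩
  have hfx : ∀ x, f x = C0 * ps L x * KK δ y h x := by
    intro x
    rw [hf, ← hrho]
    ring
  have hfint : Integrable f := by
    refine ((SharpI_ps_int L).const_mul C0).mono' ?_ (Filter.Eventually.of_forall fun x => ?_)
    · have : f = fun x => C0 * ps L x * KK δ y h x := funext hfx
      rw [this]
      exact ((continuous_const.mul (SharpI_ps_cont L)).mul (KK_cont hδ0 y h)).aestronglyMeasurable
    · rw [hfx, Real.norm_eq_abs, abs_of_nonneg (mul_nonneg (mul_nonneg hC00 (hps0 x).le)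
        (KK_nonneg hδ0 y h x))]
      exact mul_le_of_le_one_right (mul_nonneg hC00 (hps0 x).le) (KK_le hδ0 y h x)
  obtain ⟨I, hI⟩ : ∃ I : ℝ → ℝ, I = Set.indicator (Set.Icc a b) Real.exp := ⟨_, rfl⟩
  have hIint : Integrable I := by rw [hI]; exact SharpI_ind_int a b
  have hIval : ∫ x, I x = h := by
    rw [hI, SharpI_ind_val hab, hea, heb]
    ring
  obtain ⟨g, hg⟩ : ∃ g : ℝ → ℝ, g = fun x => (8 * s + 9 * E) * I x +
      10 * (Set.indicator (Set.Icc (a - r) (a + r)) Real.exp x +
        Set.indicator (Set.Icc (b - r) (b + r)) Real.exp x) + E * (C0 * ps L x) := ⟨_, rfl⟩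
  have hgint : Integrable g := by
    rw [hg]
    exact ((hIint.const_mul _).add (((SharpI_ind_int _ _).add (SharpI_ind_int _ _)).const_mul 10)).add
      (((SharpI_ps_int L).const_mul C0).const_mul E)
  have hgval : ∫ x, g x = (8 * s + 9 * E) * h +
      10 * ((Real.exp (a + r) - Real.exp (a - r)) + (Real.exp (b + r) - Real.exp (b - r))) +
      E * (C0 * ∫ x, ps L x) := by
    have hA1 : Integrable (fun x => (8 * s + 9 * E) * I x) := hIint.const_mul _
    have hA2 : Integrable (fun x => Set.indicator (Set.Icc (a - r) (a + r)) Real.exp x +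
        Set.indicator (Set.Icc (b - r) (b + r)) Real.exp x) :=
      (SharpI_ind_int _ _).add (SharpI_ind_int _ _)
    have hA3 : Integrable (fun x => E * (C0 * ps L x)) :=
      ((SharpI_ps_int L).const_mul C0).const_mul E
    have i1 : ∫ x, g x = (∫ x, (8 * s + 9 * E) * I x + 10 * (Set.indicator (Set.Icc (a - r) (a + r)) Real.exp x +
        Set.indicator (Set.Icc (b - r) (b + r)) Real.exp x)) + ∫ x, E * (C0 * ps L x) := by
      rw [hg]
      exact integral_add (hA1.add (hA2.const_mul 10)) hA3
    have i2 : (∫ x, (8 * s + 9 * E) * I x + 10 * (Set.indicator (Set.Icc (a - r) (a + r)) Real.exp x +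
        Set.indicator (Set.Icc (b - r) (b + r)) Real.exp x)) = (∫ x, (8 * s + 9 * E) * I x) +
        ∫ x, 10 * (Set.indicator (Set.Icc (a - r) (a + r)) Real.exp x +
        Set.indicator (Set.Icc (b - r) (b + r)) Real.exp x) := integral_add hA1 (hA2.const_mul 10)
    have i3 : (∫ x, Set.indicator (Set.Icc (a - r) (a + r)) Real.exp x +
        Set.indicator (Set.Icc (b - r) (b + r)) Real.exp x) =
        (∫ x, Set.indicator (Set.Icc (a - r) (a + r)) Real.exp x) +
        ∫ x, Set.indicator (Set.Icc (b - r) (b + r)) Real.exp x :=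
      integral_add (SharpI_ind_int _ _) (SharpI_ind_int _ _)
    rw [i1, i2, integral_const_mul, integral_const_mul, integral_const_mul, integral_const_mul, i3,
      hIval, SharpI_ind_val (by linarith), SharpI_ind_val (by linarith)]
  -- pointwise bound
  have hpt : ∀ x, ‖f x - I x‖ ≤ g x := by
    intro x
    rw [Real.norm_eq_abs]
    have hIn0 : ∀ c d : ℝ, 0 ≤ Set.indicator (Set.Icc c d) Real.exp x := fun c d =>
      Set.indicator_nonneg (fun z _ => (Real.exp_pos z).le) x
    have hI0 : 0 ≤ I x := by rw [hI]; exact hIn0 a b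
    have hIe : I x ≤ Real.exp x := by
      rw [hI]
      exact Set.indicator_le_self' (fun z _ => (Real.exp_pos z).le) x
    have hex := Real.exp_pos x
    have hK0 := KK_nonneg hδ0 y h x
    have hK1 := KK_le hδ0 y h x
    have hrho0 := rho_pos L y x
    have hC0ps : 0 ≤ C0 * ps L x := mul_nonneg hC00 (hps0 x).le
    have hf0 : 0 ≤ f x := by
      rw [hfx]
      exact mul_nonneg hC0ps hK0
    have hlast : 0 ≤ E * (C0 * ps L x) := mul_nonneg hE0.le hC0ps
    have hfirst : 0 ≤ (8 * s + 9 * E) * I x := mul_nonneg (by positivity) hI0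
    have hrsub : |x - a| ≤ 1 → |rho L y x - 1| ≤ 8 * |x - a| := by
      intro h2
      rw [ha] at h2 ⊢
      rw [hL]
      exact rho_sub hX1 hy hy' h2
    have hmid0 : 0 ≤ 10 * (Set.indicator (Set.Icc (a - r) (a + r)) Real.exp x +
        Set.indicator (Set.Icc (b - r) (b + r)) Real.exp x) := by
      have := hIn0 (a - r) (a + r)
      have := hIn0 (b - r) (b + r)
      positivity
    rw [hg]
    simp only
    by_cases hnear : |x - a| ≤ r ∨ |x - b| ≤ r
    · -- near the end points
      have hxa1 : |x - a| ≤ 1 := by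
        rcases hnear with h2 | h2
        · linarith
        · have h3 : |x - a| ≤ |x - b| + |b - a| := by
            have := abs_add_le (x - b) (b - a)
            rwa [show x - b + (b - a) = x - a by ring] at this
          rw [abs_of_nonneg (by linarith : 0 ≤ b - a)] at h3
          linarith
      have h2 := hrsub hxa1
      have h3 : rho L y x ≤ 9 := by
        have := (abs_le.1 h2).2
        linarith
      have h4 : f x ≤ 9 * Real.exp x := by
        rw [hf]
        simp only
        calc rho L y x * KK δ y h x * Real.exp x ≤ 9 * 1 * Real.exp x := by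
              refine mul_le_mul_of_nonneg_right ?_ hex.le
              exact mul_le_mul h3 hK1 hK0 (by norm_num)
          _ = 9 * Real.exp x := by ring
      have h5 : Real.exp x ≤ Set.indicator (Set.Icc (a - r) (a + r)) Real.exp x +
          Set.indicator (Set.Icc (b - r) (b + r)) Real.exp x := by
        rcases hnear with h6 | h6
        · rw [abs_le] at h6
          have h7 : x ∈ Set.Icc (a - r) (a + r) := ⟨by linarith, by linarith⟩
          rw [Set.indicator_of_mem h7]
          linarith [hIn0 (b - r) (b + r)]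
        · rw [abs_le] at h6
          have h7 : x ∈ Set.Icc (b - r) (b + r) := ⟨by linarith, by linarith⟩
          rw [Set.indicator_of_mem h7]
          linarith [hIn0 (a - r) (a + r)]
      rw [abs_le]
      constructor <;> linarith
    · push Not at hnear
      obtain ⟨hna, hnb⟩ := hnear
      by_cases hin : x ∈ Set.Icc a b
      · -- core
        have h2 : a + r ≤ x := by
          rw [abs_of_nonneg (by linarith [hin.1])] at hna
          linarith
        have h3 : x ≤ b - r := by
          rw [abs_of_nonpos (by linarith [hin.2])] at hnb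
          linarith
        have h4 : 1 - KK δ y h x ≤ E := by
          rw [← hEr]
          refine KK_core hδ0 hr0.le ?_ ?_
          · rw [← ha]; exact h2
          · rw [← hb]; exact h3
        have hxa : |x - a| ≤ s := by
          rw [abs_of_nonneg (by linarith)]
          linarith
        have h5 := hrsub (by linarith)
        have h6 : |rho L y x - 1| ≤ 8 * s := by linarith
        have h7 : rho L y x ≤ 9 := by
          have := (abs_le.1 h6).2
          linarith
        have h8 : I x = Real.exp x := by rw [hI, Set.indicator_of_mem hin]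
        have h9 : f x - I x = (rho L y x * KK δ y h x - 1) * Real.exp x := by
          rw [h8, hf]
          ring
        have h10 : |rho L y x * KK δ y h x - 1| ≤ 8 * s + 9 * E := by
          have e : rho L y x * KK δ y h x - 1 =
              (rho L y x - 1) - rho L y x * (1 - KK δ y h x) := by ring
          rw [e]
          refine (abs_sub _ _).trans ?_
          rw [abs_of_nonneg (mul_nonneg hrho0.le (by linarith))]
          have h11 : rho L y x * (1 - KK δ y h x) ≤ 9 * E :=
            mul_le_mul h7 h4 (by linarith) (by norm_num)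
          linarith
        have h11 : |f x - I x| ≤ (8 * s + 9 * E) * I x := by
          rw [h9, abs_mul, abs_of_pos hex, h8]
          exact mul_le_mul_of_nonneg_right h10 hex.le
        linarith
      · -- outside
        have h2 : I x = 0 := by rw [hI, Set.indicator_of_notMem hin]
        have h3 : KK δ y h x ≤ E := by
          rw [← hEr]
          refine KK_out hδ0 hr0.le ?_
          rw [← ha, ← hb]
          by_cases hxa : x < a
          · left
            rw [abs_of_nonpos (by linarith)] at hna
            linarith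
          · right
            have hxb : b < x := by
              by_contra hcon
              exact hin ⟨not_lt.1 hxa, not_lt.1 hcon⟩
            rw [abs_of_nonneg (by linarith)] at hnb
            linarith
        have h4 : f x ≤ E * (C0 * ps L x) := by
          rw [hfx, mul_comm E]
          exact mul_le_mul_of_nonneg_left h3 hC0ps
        rw [h2, sub_zero, abs_of_nonneg hf0, mul_zero]
        linarith
  have hmain : |(∫ x, f x) - h| ≤ ∫ x, g x := by
    rw [← hIval, ← integral_sub hfint hIint]
    exact norm_integral_le_of_norm_le hgint (Filter.Eventually.of_forall hpt)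
  have hgoal : (∫ x : ℝ, rho L y x * KK δ y h x * Real.exp x) = ∫ x, f x := by rw [hf]
  rw [hgoal]
  refine hmain.trans ?_
  rw [hgval]
  -- final estimates
  have e1 := SharpI_exp_sub a r
  have e2 := SharpI_exp_sub b r
  have e3 : Real.exp (b + r) ≤ 8 * X := by
    rw [Real.exp_add, heb]
    have h2 : Real.exp r ≤ 2 := by
      have h3 : Real.exp r ≤ Real.exp (Real.log 2) := by
        apply Real.exp_le_exp.2
        have := Real.log_two_gt_d9
        linarith
      rwa [Real.exp_log (by norm_num)] at h3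
    have h3 : h ≤ X := by rw [← hsX]; nlinarith
    have h4 : y + h ≤ 4 * X := by linarith
    calc (y + h) * Real.exp r ≤ (4 * X) * 2 :=
        mul_le_mul h4 h2 (Real.exp_pos _).le (by positivity)
      _ = 8 * X := by ring
  have e4 : Real.exp (a + r) ≤ 8 * X := (Real.exp_le_exp.2 (by linarith)).trans e3
  have e5 : 10 * ((Real.exp (a + r) - Real.exp (a - r)) + (Real.exp (b + r) - Real.exp (b - r))) ≤
      320 * (X * r) := by
    have h2 : 2 * r * Real.exp (a + r) ≤ 2 * r * (8 * X) :=
      mul_le_mul_of_nonneg_left e4 (by positivity)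
    have h3 : 2 * r * Real.exp (b + r) ≤ 2 * r * (8 * X) :=
      mul_le_mul_of_nonneg_left e3 (by positivity)
    linarith
  have e6 : E * (C0 * ∫ x, ps L x) ≤ 36 * (X * E) := by
    have h2 := SharpI_ps_val L
    have h3 : C0 * ∫ x, ps L x ≤ 6 * X * 6 :=
      mul_le_mul hC06 h2 (integral_nonneg fun x => (hps0 x).le) (by positivity)
    calc E * (C0 * ∫ x, ps L x) ≤ E * (6 * X * 6) := mul_le_mul_of_nonneg_left h3 hE0.le
      _ = _ := by ring
  have e7 : h / Q = h * (1 / Q) := by ring
  -- multiply by Q
  rw [le_div_iff₀ hQ0]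
  have k1 : s * Q * 900 ≤ 1 := by
    calc s * Q * 900 ≤ s * Q * L ^ 2 := mul_le_mul_of_nonneg_left hL900 (by positivity)
      _ = s * (Q * L ^ 2) := by ring
      _ ≤ 1 := hs1
  have k2 : X * r * Q * 900 ≤ h := by
    calc X * r * Q * 900 ≤ X * r * Q * L ^ 2 := mul_le_mul_of_nonneg_left hL900 (by positivity)
      _ = X * (r * (Q * L ^ 2)) := by ring
      _ = h := by rw [hrs, mul_comm, hsX]
  have k3 : (8 * s + 9 * E) * h * Q = 8 * (s * Q) * h + 9 * (E * Q) * h := by ring
  have k4 : 8 * (s * Q) * h ≤ 8 * (1 / 900) * h := by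
    refine mul_le_mul_of_nonneg_right ?_ hh0.le
    linarith
  have k5 : 9 * (E * Q) * h ≤ 9 * (1 / 421) * h := by
    refine mul_le_mul_of_nonneg_right ?_ hh0.le
    linarith
  have k6 : 36 * (X * E) * Q ≤ 36 * (1 / 421) * h := by
    have h2 : 36 * (X * E) * Q = 36 * (X * E * Q) := by ring
    rw [h2]
    nlinarith
  have k7 : ((8 * s + 9 * E) * h + 10 * ((Real.exp (a + r) - Real.exp (a - r)) +
      (Real.exp (b + r) - Real.exp (b - r))) + E * (C0 * ∫ x, ps L x)) * Q ≤
      ((8 * s + 9 * E) * h + 320 * (X * r) + 36 * (X * E)) * Q := by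
    refine mul_le_mul_of_nonneg_right ?_ hQ0.le
    linarith
  refine k7.trans ?_
  have k8 : ((8 * s + 9 * E) * h + 320 * (X * r) + 36 * (X * E)) * Q =
      (8 * s + 9 * E) * h * Q + 320 * (X * r * Q) + 36 * (X * E) * Q := by ring
  rw [k8, k3]
  linarith

end ASC
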