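import Pool.Agent.ASC.SharpE
import Pool.Agent.ASC.SharpI

/-!
# ASC.Sharp: primes in residue classes in almost all short intervals, `h ≤ X/(log X)^C`

PROOF. Apply `cmp_prime`, `cmp_int` and `EE_eq`, `EE_ms`, `short_ms` with `A' = A + 1` for `A` (so `C = A + 3`), `L = log X`,
`δ = h/(X L^(A'+3))`, `ε = (th - 1/2)/2`: `δ ≥ X^(th-1) L^(-A'-3) ≥ exp(-(1/2-ε) L)` for large `X`, `δ ≤ 1`. For `y ∈ [X, 3X]`:
`|SB - h/φ(M)| ≤ |SB - SK| + |SK - I/φ(M)| + |I - h|/φ(M) ≤ 2 h/L^A' + 2X |EE|`, where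
`y/(√(2π) ps L (log y)) ≤ 3X/(2.5 · 0.8) ≤ 2X` (`ps L (log y) = exp(-(log(y/X))²/8) ≥ exp(-(log 3)²/8) ≥ 0.8`). Square
(`(a+b)² ≤ 2a²+2b²`) and integrate: at most `8 h² L^(-2A') · 2X + 8X² · h²/(X δ²) · δ² L^(-B)` (`short_ms` with exponent `B = A + 1`), which
is at most `X h² L^(-A)` for large `X`. Measurability of `SB` in `y`: `SB_meas`.
-/

namespace ASC

open MeasureTheory ArithmeticFunction ASI

theorem SB_meas (M b : ℕ) (h : ℝ) : Measurable (fun y : ℝ => SB M b y h) := by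
  have h1 : Measurable (fun q : ℕ × ℕ =>
      ∑ p ∈ (Finset.Ioc q.1 q.2).filter (fun p => p.Prime ∧ p ≡ b [MOD M]), Real.log p) :=
    Measurable.of_discrete
  have h2 : Measurable (fun y : ℝ => ((⌊y⌋₊, ⌊y + h⌋₊) : ℕ × ℕ)) :=
    Nat.measurable_floor.prodMk (Nat.measurable_floor.comp (measurable_id.add_const h))
  exact h1.comp h2

theorem SB_nonneg (M b : ℕ) (y h : ℝ) : 0 ≤ SB M b y h := by
  unfold SB
  exact Finset.sum_nonneg fun p _ => Real.log_natCast_nonneg p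

theorem SB_le (M b : ℕ) {X y h : ℝ} (hX : 1 ≤ X) (hy0 : 0 ≤ y) (hy : y + h ≤ X) (hh : 0 ≤ h) :
    SB M b y h ≤ X * Real.log X := by
  unfold SB
  have hlX : 0 ≤ Real.log X := Real.log_nonneg hX
  have h1 : ∀ p ∈ (Finset.Ioc ⌊y⌋₊ ⌊y + h⌋₊).filter (fun p => p.Prime ∧ p ≡ b [MOD M]),
      Real.log (p : ℝ) ≤ Real.log X := by
    intro p hp
    rw [Finset.mem_filter, Finset.mem_Ioc] at hp
    have hp1 : 0 < (p : ℝ) := by exact_mod_cast hp.2.1.pos
    have hp2 : (p : ℝ) ≤ y + h := (Nat.le_floor_iff (by linarith)).1 hp.1.2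
    exact Real.log_le_log hp1 (hp2.trans hy)
  have h2 := Finset.sum_le_card_nsmul _ _ _ h1
  rw [nsmul_eq_mul] at h2
  refine h2.trans (mul_le_mul_of_nonneg_right ?_ hlX)
  have h3 : (((Finset.Ioc ⌊y⌋₊ ⌊y + h⌋₊).filter (fun p => p.Prime ∧ p ≡ b [MOD M])).card : ℝ) ≤
      (⌊y + h⌋₊ : ℝ) := by
    have h4 := Finset.card_filter_le (Finset.Ioc ⌊y⌋₊ ⌊y + h⌋₊) (fun p => p.Prime ∧ p ≡ b [MOD M])
    rw [Nat.card_Ioc] at h4
    exact_mod_cast h4.trans (Nat.sub_le _ _)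
  exact h3.trans ((Nat.floor_le (by linarith)).trans hy)

private theorem Sharp_pow {c : ℝ} (hc : 0 < c) (k : ℕ) :
    ∃ L0 : ℝ, 1 ≤ L0 ∧ ∀ L : ℝ, L0 ≤ L → L ^ k ≤ Real.exp (c * L) := by
  have h := (isLittleO_pow_exp_pos_mul_atTop k hc).def (show (0 : ℝ) < 1 by norm_num)
  obtain ⟨L0, hL0⟩ := Filter.eventually_atTop.1 h
  refine ⟨max L0 1, le_max_right _ _, fun L hL => ?_⟩
  have h1 := hL0 L ((le_max_left _ _).trans hL)
  have h2 : 0 ≤ L := zero_le_one.trans ((le_max_right _ _).trans hL)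
  rw [Real.norm_of_nonneg (by positivity), Real.norm_of_nonneg (Real.exp_pos _).le, one_mul] at h1
  exact h1

private theorem Sharp_weight {X y : ℝ} (hX : 1 ≤ X) (hy : X ≤ y) (hy' : y ≤ 3 * X) :
    2 ≤ Real.sqrt (2 * Real.pi) * ps (Real.log X) (Real.log y) := by
  have h1 : (5 / 2 : ℝ) ≤ Real.sqrt (2 * Real.pi) := by
    apply Real.le_sqrt_of_sq_le
    have := Real.pi_gt_d2
    norm_num at this ⊢
    linarith
  have hX0 : 0 < X := by linarith
  have h2 : 0 ≤ Real.log y - Real.log X := by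
    have := Real.log_le_log hX0 hy
    linarith
  have h3 : Real.log y - Real.log X ≤ 1137 / 1000 := by
    have h4 : Real.log y ≤ Real.log (3 * X) := Real.log_le_log (by linarith) hy'
    rw [Real.log_mul (by norm_num) hX0.ne'] at h4
    have h5 : Real.log 3 ≤ 1137 / 1000 := by
      have h6 : Real.log 3 = 2 * Real.log 2 + Real.log (3 / 4) := by
        rw [Real.log_div (by norm_num) (by norm_num), show (4 : ℝ) = 2 ^ 2 by norm_num, Real.log_pow]
        push_cast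
        ring
      have h7 := Real.log_two_lt_d9
      have h8 := Real.log_le_sub_one_of_pos (show (0 : ℝ) < 3 / 4 by norm_num)
      rw [h6]
      norm_num at h7 h8 ⊢
      linarith
    linarith
  have h9 : (4 / 5 : ℝ) ≤ ps (Real.log X) (Real.log y) := by
    unfold ps
    have h10 := Real.add_one_le_exp (-(Real.log y - Real.log X) ^ 2 / 8)
    have h11 : (Real.log y - Real.log X) ^ 2 ≤ (1137 / 1000) ^ 2 := pow_le_pow_left₀ h2 h3 2
    norm_num at h11
    linarith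
  calc (2 : ℝ) = 5 / 2 * (4 / 5) := by norm_num
    _ ≤ _ := mul_le_mul h1 h9 (by norm_num) (Real.sqrt_nonneg _)

theorem sharp {M : ℕ} (hM : 0 < M) {b : ℕ} (hb : b.Coprime M) {th : ℝ} (h1 : 1 / 2 < th) (A : ℕ) :
    ∃ X0 : ℝ, 3 ≤ X0 ∧ ∀ X h : ℝ, X0 ≤ X → X ^ th ≤ h → h ≤ X / Real.log X ^ (A + 3) →
      ∫ y in Set.Icc X (3 * X), (SB M b y h - h / (Nat.totient M : ℝ)) ^ 2 ≤ X * h ^ 2 / Real.log X ^ A := by
  obtain ⟨X1, hX1, hP⟩ := cmp_prime M b h1 (A + 1)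
  obtain ⟨X2, hX2, hI⟩ := cmp_int h1 (A + 1)
  obtain ⟨ε, hε⟩ : ∃ ε, ε = (th - 1 / 2) / 2 := ⟨_, rfl⟩
  have hε0 : 0 < ε := by rw [hε]; linarith
  obtain ⟨L0, hL0, hS⟩ := short_ms hM hb hε0 ((A : ℝ) + 1)
  obtain ⟨L1, hL1, hpow⟩ := Sharp_pow hε0 (A + 4)
  refine ⟨max (max X1 X2) (Real.exp (max (max L0 L1) 24)), ?_, ?_⟩
  · exact hX1.trans ((le_max_left _ _).trans (le_max_left _ _))
  intro X h hX hh hh'
  have hXX1 : X1 ≤ X := ((le_max_left _ _).trans (le_max_left _ _)).trans hX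
  have hXX2 : X2 ≤ X := ((le_max_right _ _).trans (le_max_left _ _)).trans hX
  have hXe : Real.exp (max (max L0 L1) 24) ≤ X := (le_max_right _ _).trans hX
  have hX3 : 3 ≤ X := hX1.trans hXX1
  have hX0 : 0 < X := by linarith
  obtain ⟨L, hL⟩ : ∃ L, L = Real.log X := ⟨_, rfl⟩
  have hLm : max (max L0 L1) 24 ≤ L := by
    rw [hL, Real.le_log_iff_exp_le hX0]
    exact hXe
  have hL24 : 24 ≤ L := (le_max_right _ _).trans hLm
  have hLL0 : L0 ≤ L := ((le_max_left _ _).trans (le_max_left _ _)).trans hLm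
  have hLL1 : L1 ≤ L := ((le_max_right _ _).trans (le_max_left _ _)).trans hLm
  have hLpos : 0 < L := by linarith
  have hXexp : X = Real.exp L := by rw [hL, Real.exp_log hX0]
  have hh0 : 0 < h := (Real.rpow_pos_of_pos hX0 _).trans_le hh
  obtain ⟨δ, hδ⟩ : ∃ δ, δ = h / X / L ^ (A + 1 + 3) := ⟨_, rfl⟩
  have hδ0 : 0 < δ := by rw [hδ]; positivity
  rw [← hL] at hh'
  have hLA : ∀ k : ℕ, 1 ≤ L ^ k := fun k => one_le_pow₀ (by linarith)
  have hhX : h ≤ X := hh'.trans (div_le_self hX0.le (hLA _))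
  have hδ1 : δ ≤ 1 := by
    rw [hδ]
    refine (div_le_self (by positivity) (hLA _)).trans ?_
    rw [div_le_one hX0]
    exact hhX
  have hδe : Real.exp (-(1 / 2 - ε) * L) ≤ δ := by
    have h2 := hpow L hLL1
    rw [hδ, le_div_iff₀ (by positivity), le_div_iff₀ hX0]
    refine le_trans ?_ hh
    have h3 : X ^ th = Real.exp (L * th) := by
      rw [hXexp, ← Real.exp_mul]
    rw [h3]
    have h4 : Real.exp (-(1 / 2 - ε) * L) * L ^ (A + 1 + 3) * X ≤
        Real.exp (-(1 / 2 - ε) * L) * Real.exp (ε * L) * Real.exp L := by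
      rw [← hXexp]
      gcongr
    refine h4.trans (le_of_eq ?_)
    rw [← Real.exp_add, ← Real.exp_add]
    congr 1
    rw [hε]
    ring
  obtain ⟨hInt, hIle⟩ := hS L δ hLL0 hδe hδ1
  have hφ : 1 ≤ (Nat.totient M : ℝ) := by exact_mod_cast Nat.totient_pos.2 hM
  have hφ0 : 0 < (Nat.totient M : ℝ) := by linarith
  -- pointwise
  have hpt : ∀ y ∈ Set.Icc X (3 * X), (SB M b y h - h / (Nat.totient M : ℝ)) ^ 2 ≤
      8 * (h / L ^ (A + 1)) ^ 2 + 8 * X ^ 2 * EE M b δ L y h ^ 2 := by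
    intro y hy
    have hy0 : 0 < y := hX0.trans_le hy.1
    have hp := hP X h y hXX1 hh (by rw [← hL]; exact hh') hy.1 hy.2
    have hi := hI X h y hXX2 hh (by rw [← hL]; exact hh') hy.1 hy.2
    rw [← hL, ← hδ] at hp hi
    have he := EE_eq (M := M) b L hδ0 hy0 hh0.le
    obtain ⟨I, hIdef⟩ : ∃ I, I = ∫ x : ℝ, rho L y x * KK δ y h x * Real.exp x := ⟨_, rfl⟩
    rw [← hIdef] at hi he
    have hw := Sharp_weight (by linarith : 1 ≤ X) hy.1 hy.2
    rw [← hL] at hw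
    have hw2 : |y / (Real.sqrt (2 * Real.pi) * ps L (Real.log y)) * EE M b δ L y h| ≤
        2 * X * |EE M b δ L y h| := by
      rw [abs_mul]
      refine mul_le_mul_of_nonneg_right ?_ (abs_nonneg _)
      rw [abs_of_nonneg (by positivity)]
      rw [div_le_iff₀ (by linarith)]
      nlinarith [hy.2]
    have hi2 : |(I - h) / (Nat.totient M : ℝ)| ≤ h / L ^ (A + 1) := by
      rw [abs_div, abs_of_pos hφ0]
      exact (div_le_self (abs_nonneg _) hφ).trans hi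
    have hdec : SB M b y h - h / (Nat.totient M : ℝ) =
        -(SK M b δ L y h - SB M b y h) + (SK M b δ L y h - I / (Nat.totient M : ℝ)) +
          (I - h) / (Nat.totient M : ℝ) := by
      ring
    have habs : |SB M b y h - h / (Nat.totient M : ℝ)| ≤
        2 * (h / L ^ (A + 1)) + 2 * X * |EE M b δ L y h| := by
      rw [hdec]
      refine (abs_add_three _ _ _).trans ?_
      rw [abs_neg, ← he]
      linarith
    have h5 : (SB M b y h - h / (Nat.totient M : ℝ)) ^ 2 ≤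
        (2 * (h / L ^ (A + 1)) + 2 * X * |EE M b δ L y h|) ^ 2 := by
      rw [← sq_abs (SB M b y h - h / (Nat.totient M : ℝ))]
      exact pow_le_pow_left₀ (abs_nonneg _) habs 2
    refine h5.trans ?_
    rw [← sq_abs (EE M b δ L y h)]
    nlinarith [sq_nonneg (2 * (h / L ^ (A + 1)) - 2 * X * |EE M b δ L y h|)]
  have hEEc : ContinuousOn (fun y : ℝ => EE M b δ L y h) (Set.Icc X (3 * X)) :=
    (EE_cont b hδ0 hh0.le).mono fun y hy => hX0.trans_le hy.1
  have hEEi : IntegrableOn (fun y : ℝ => EE M b δ L y h ^ 2) (Set.Icc X (3 * X)) :=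
    (hEEc.pow 2).integrableOn_compact isCompact_Icc
  have hms := EE_ms b hδ0 hX0 hh0 hInt
  have hci : IntegrableOn (fun _ : ℝ => 8 * (h / L ^ (A + 1)) ^ 2) (Set.Icc X (3 * X)) :=
    continuous_const.continuousOn.integrableOn_compact isCompact_Icc
  have hmono : ∫ y in Set.Icc X (3 * X), (SB M b y h - h / (Nat.totient M : ℝ)) ^ 2 ≤
      ∫ y in Set.Icc X (3 * X), (8 * (h / L ^ (A + 1)) ^ 2 + 8 * X ^ 2 * EE M b δ L y h ^ 2) := by
    refine integral_mono_of_nonneg (Filter.Eventually.of_forall fun y => sq_nonneg _)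
      (hci.add (hEEi.const_mul _)) ?_
    exact (ae_restrict_iff' measurableSet_Icc).2 (Filter.Eventually.of_forall hpt)
  rw [integral_add hci (hEEi.const_mul _),
    integral_const_mul (8 * X ^ 2) (fun y : ℝ => EE M b δ L y h ^ 2)] at hmono
  have hconst : ∫ _ in Set.Icc X (3 * X), 8 * (h / L ^ (A + 1)) ^ 2 = 2 * X * (8 * (h / L ^ (A + 1)) ^ 2) := by
    rw [setIntegral_const, smul_eq_mul, Real.volume_real_Icc_of_le (by linarith)]
    ring
  rw [hconst] at hmono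
  have hfin1 : 8 * X ^ 2 * ∫ y in Set.Icc X (3 * X), EE M b δ L y h ^ 2 ≤
      8 * X * h ^ 2 / L ^ (A + 1) := by
    have h6 : h ^ 2 / (X * δ ^ 2) * ∫ u : ℝ, (FB M b δ L u - MM δ L u / (Nat.totient M : ℝ)) ^ 2 ≤
        h ^ 2 / (X * δ ^ 2) * (δ ^ 2 * L ^ (-((A : ℝ) + 1))) :=
      mul_le_mul_of_nonneg_left hIle (by positivity)
    have h7 : L ^ (-((A : ℝ) + 1)) = (L ^ (A + 1))⁻¹ := by
      rw [Real.rpow_neg hLpos.le]
      congr 1
      rw [← Real.rpow_natCast L (A + 1)]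
      congr 1
      push_cast
      ring
    rw [h7] at h6
    calc 8 * X ^ 2 * ∫ y in Set.Icc X (3 * X), EE M b δ L y h ^ 2
        ≤ 8 * X ^ 2 * (h ^ 2 / (X * δ ^ 2) * (δ ^ 2 * (L ^ (A + 1))⁻¹)) :=
          mul_le_mul_of_nonneg_left (hms.trans h6) (by positivity)
      _ = 8 * X * h ^ 2 / L ^ (A + 1) := by
          field_simp
  rw [← hL]
  have hfin2 : 2 * X * (8 * (h / L ^ (A + 1)) ^ 2) + 8 * X * h ^ 2 / L ^ (A + 1) ≤ X * h ^ 2 / L ^ A := by
    have h8 : 2 * X * (8 * (h / L ^ (A + 1)) ^ 2) ≤ 16 * X * h ^ 2 / L ^ (A + 1) := by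
      have h9 : 2 * X * (8 * (h / L ^ (A + 1)) ^ 2) = 16 * X * h ^ 2 / L ^ (A + 1) / L ^ (A + 1) := by
        field_simp
        norm_num
      rw [h9]
      exact div_le_self (by positivity) (hLA _)
    have h10 : 16 * X * h ^ 2 / L ^ (A + 1) + 8 * X * h ^ 2 / L ^ (A + 1) = X * h ^ 2 / L ^ A * (24 / L) := by
      rw [pow_succ]
      field_simp
      ring
    have h11 : X * h ^ 2 / L ^ A * (24 / L) ≤ X * h ^ 2 / L ^ A := by
      refine mul_le_of_le_one_right (by positivity) ?_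
      rw [div_le_one hLpos]
      exact hL24
    linarith
  linarith

end ASC
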