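import Pool.Agent.ASC.SharpP
import Pool.Agent.ASC.ShortC

/-!
# ASC.SharpE: averages of the Gaussian windows

PROOF. `EE_eq`: Fubini, `∑'` and integral over `u ∈ [log y, log(y+h)]` (dominated by `∑ Λ(n)/n ps L (log n) < ∞`, `ASI.div_gauss`), and
`(y/ps L (log y)) · Λ(n)/n · ps L (log n) = Λ(n) rho L y (log n)` for `n ≥ 1`; the same for `MM` with `ps L x`:
`(y/ps L (log y)) ps L x = rho L y x exp x`.
`EE_ms`: Cauchy-Schwarz: `EE² ≤ δ^(-2) (log(y+h) - log y) ∫_{[log y, log(y+h)]} G²`, `G = FB - MM/φ(M)`, `log(1+h/y) ≤ h/X`. Integrate over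
`y ∈ [X, 3X]` and exchange (Tonelli): for fixed `u` the `y` with `log y ≤ u ≤ log(y+h)` lie in `[exp u - h, exp u]`, of
length `h`. `EE_cont`: `G` is continuous (`ASC.FB_cont`, `ASI.FF_cont`), so `EE` is continuous for `y > 0`.
-/

namespace ASC

open MeasureTheory ArithmeticFunction ASI

/-- Average of the error of the Gaussian windows over `[log y, log (y+h)]`. -/
noncomputable def EE (M b : ℕ) (δ L y h : ℝ) : ℝ :=
  1 / δ * ∫ u in Set.Icc (Real.log y) (Real.log (y + h)), (FB M b δ L u - MM δ L u / (Nat.totient M : ℝ))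

private theorem SharpE_log_le {y h : ℝ} (hy : 0 < y) (hh : 0 ≤ h) : Real.log y ≤ Real.log (y + h) :=
  Real.log_le_log hy (by linarith)

private theorem SharpE_cont {M : ℕ} (b : ℕ) {δ L : ℝ} (hδ : 0 < δ) :
    Continuous (fun u : ℝ => FB M b δ L u - MM δ L u / (Nat.totient M : ℝ)) :=
  (FB_cont hδ M b L).sub ((FF_cont hδ L).2.div_const _)

private theorem SharpE_w_nonneg (L : ℝ) (n : ℕ) : 0 ≤ vonMangoldt n / n * ps L (Real.log n) := by
  unfold ps
  have := @vonMangoldt_nonneg n
  positivity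

private theorem SharpE_w_summable (L : ℝ) : Summable fun n : ℕ => vonMangoldt n / n * ps L (Real.log n) := by
  obtain ⟨C, _, hC⟩ := div_gauss
  refine Summable.of_nonneg_of_le (SharpE_w_nonneg L) ?_ (hC L).1
  intro n
  rcases Nat.eq_zero_or_pos n with rfl | hn
  · simp
  have hn1 : (1 : ℝ) ≤ n := by exact_mod_cast hn
  have hlog : 0 ≤ Real.log n := Real.log_nonneg hn1
  have h1 : vonMangoldt n ≤ Real.log n := vonMangoldt_le_log
  have h2 : (1 : ℝ) ≤ (n.divisors.card : ℝ) := by
    have : 0 < n.divisors.card := Finset.card_pos.2 ⟨1, by simp [hn.ne']⟩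
    exact_mod_cast this
  have h3 : vonMangoldt n ≤ (n.divisors.card : ℝ) ^ 2 * (1 + Real.log n) ^ 2 := by
    have h4 : Real.log n ≤ (1 + Real.log n) ^ 2 := by nlinarith
    have h5 : (1 + Real.log n) ^ 2 ≤ (n.divisors.card : ℝ) ^ 2 * (1 + Real.log n) ^ 2 := by
      have : (1 : ℝ) ≤ (n.divisors.card : ℝ) ^ 2 := by nlinarith
      nlinarith [sq_nonneg (1 + Real.log n)]
    linarith
  have h6 : ps L (Real.log n) ≤ Real.exp (-(Real.log n - L) ^ 2 / 16) := by
    unfold ps
    apply Real.exp_le_exp.2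
    nlinarith [sq_nonneg (Real.log n - L)]
  apply mul_le_mul _ h6 (by unfold ps; positivity) (by positivity)
  gcongr

private theorem SharpE_ps_int (L : ℝ) : Integrable (ps L) := by
  have h0 : Integrable (fun x : ℝ => Real.exp (-(1 / 8) * x ^ 2)) := integrable_exp_neg_mul_sq (by norm_num)
  have h1 := h0.comp_sub_right L
  refine h1.congr (Filter.Eventually.of_forall fun x => ?_)
  unfold ps
  dsimp only
  congr 1
  ring

theorem EE_cont {M : ℕ} (b : ℕ) {δ L h : ℝ} (hδ : 0 < δ) (hh : 0 ≤ h) :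
    ContinuousOn (fun y : ℝ => EE M b δ L y h) (Set.Ioi 0) := by
  have hG := SharpE_cont (M := M) b (L := L) hδ
  have hF := intervalIntegral.continuous_primitive
    (f := fun u : ℝ => FB M b δ L u - MM δ L u / (Nat.totient M : ℝ)) (μ := volume)
    (fun a c => hG.intervalIntegrable a c) 0
  have h1 : ContinuousOn (fun y : ℝ => 1 / δ *
      ((∫ u in (0 : ℝ)..Real.log (y + h), (FB M b δ L u - MM δ L u / (Nat.totient M : ℝ))) -
        ∫ u in (0 : ℝ)..Real.log y, (FB M b δ L u - MM δ L u / (Nat.totient M : ℝ)))) (Set.Ioi 0) := by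
    refine ContinuousOn.mul continuousOn_const (ContinuousOn.sub ?_ ?_)
    · refine hF.comp_continuousOn' ?_
      exact ContinuousOn.log (by fun_prop) (fun y hy => by
        have : 0 < y := hy
        positivity)
    · refine hF.comp_continuousOn' ?_
      exact ContinuousOn.log (by fun_prop) (fun y hy => by
        have : 0 < y := hy
        positivity)
  refine h1.congr ?_
  intro y hy
  have hy' : 0 < y := hy
  dsimp only
  unfold EE
  rw [integral_Icc_eq_integral_Ioc, ← intervalIntegral.integral_of_le (SharpE_log_le hy' hh),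
    intervalIntegral.integral_interval_sub_left (hG.intervalIntegrable _ _) (hG.intervalIntegrable _ _)]

private theorem SharpE_gauss {δ : ℝ} (v : ℝ) : 0 ≤ Real.exp (-v ^ 2 / (2 * δ ^ 2)) ∧
    Real.exp (-v ^ 2 / (2 * δ ^ 2)) ≤ 1 := by
  refine ⟨(Real.exp_pos _).le, Real.exp_le_one_iff.2 ?_⟩
  rw [neg_div]
  exact neg_nonpos.2 (by positivity)

private theorem SharpE_FB {M b : ℕ} {δ y h : ℝ} (L : ℝ) :
    ∫ u in Set.Icc (Real.log y) (Real.log (y + h)), FB M b δ L u =
      ∑' n : ℕ, (if n ≡ b [MOD M] then vonMangoldt n / n * ps L (Real.log n) *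
        ∫ u in Set.Icc (Real.log y) (Real.log (y + h)), Real.exp (-(Real.log n - u) ^ 2 / (2 * δ ^ 2)) else 0) := by
  have hw := SharpE_w_summable L
  have hexp : ∀ n : ℕ, Continuous (fun u : ℝ => Real.exp (-(Real.log n - u) ^ 2 / (2 * δ ^ 2))) := by
    intro n
    fun_prop
  have hint : ∀ n : ℕ, IntegrableOn (fun u : ℝ => Real.exp (-(Real.log n - u) ^ 2 / (2 * δ ^ 2)))
      (Set.Icc (Real.log y) (Real.log (y + h))) := fun n => (hexp n).continuousOn.integrableOn_Icc
  have hle : ∀ n : ℕ, ∫ u in Set.Icc (Real.log y) (Real.log (y + h)),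
      Real.exp (-(Real.log n - u) ^ 2 / (2 * δ ^ 2)) ≤
      (volume.real (Set.Icc (Real.log y) (Real.log (y + h)))) := by
    intro n
    refine (setIntegral_mono (hint n) (integrableOn_const (by simp) : IntegrableOn (fun _ : ℝ => (1 : ℝ))
      (Set.Icc (Real.log y) (Real.log (y + h)))) fun u => (SharpE_gauss _).2).trans ?_
    rw [setIntegral_const, smul_eq_mul, mul_one]
  have h0 : ∀ n : ℕ, 0 ≤ ∫ u in Set.Icc (Real.log y) (Real.log (y + h)),
      Real.exp (-(Real.log n - u) ^ 2 / (2 * δ ^ 2)) :=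
    fun n => integral_nonneg fun u => (SharpE_gauss _).1
  have hF : ∀ n : ℕ, Integrable (fun u : ℝ => (if n ≡ b [MOD M] then vonMangoldt n / n * ps L (Real.log n) *
      Real.exp (-(Real.log n - u) ^ 2 / (2 * δ ^ 2)) else 0))
      (volume.restrict (Set.Icc (Real.log y) (Real.log (y + h)))) := by
    intro n
    split_ifs
    · exact (hint n).const_mul _
    · exact integrable_zero _ _ _
  have hS : Summable fun n : ℕ => ∫ u in Set.Icc (Real.log y) (Real.log (y + h)),
      ‖(if n ≡ b [MOD M] then vonMangoldt n / n * ps L (Real.log n) *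
      Real.exp (-(Real.log n - u) ^ 2 / (2 * δ ^ 2)) else 0)‖ := by
    refine Summable.of_nonneg_of_le (fun n => integral_nonneg fun u => norm_nonneg _) (fun n => ?_)
      (hw.mul_right (volume.real (Set.Icc (Real.log y) (Real.log (y + h)))))
    split_ifs
    · have e : ∀ u : ℝ, ‖vonMangoldt n / n * ps L (Real.log n) * Real.exp (-(Real.log n - u) ^ 2 / (2 * δ ^ 2))‖ =
          vonMangoldt n / n * ps L (Real.log n) * Real.exp (-(Real.log n - u) ^ 2 / (2 * δ ^ 2)) := by
        intro u
        rw [Real.norm_of_nonneg]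
        exact mul_nonneg (SharpE_w_nonneg L n) (Real.exp_pos _).le
      simp only [e]
      rw [integral_const_mul]
      exact mul_le_mul_of_nonneg_left (hle n) (SharpE_w_nonneg L n)
    · simp only [norm_zero, integral_zero]
      exact mul_nonneg (SharpE_w_nonneg L n) measureReal_nonneg
  have key := integral_tsum_of_summable_integral_norm hF hS
  unfold FB
  rw [← key]
  refine tsum_congr fun n => ?_
  split_ifs
  · rw [integral_const_mul]
  · rw [integral_zero]

private theorem SharpE_MM {δ y h : ℝ} (L : ℝ) :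
    ∫ u in Set.Icc (Real.log y) (Real.log (y + h)), MM δ L u =
      ∫ x : ℝ, ps L x *
        ∫ u in Set.Icc (Real.log y) (Real.log (y + h)), Real.exp (-(x - u) ^ 2 / (2 * δ ^ 2)) := by
  unfold MM
  rw [integral_integral_swap]
  · refine integral_congr_ae (Filter.Eventually.of_forall fun x => ?_)
    dsimp only
    rw [integral_const_mul]
  · have h1 : Integrable (fun z : ℝ × ℝ => (1 : ℝ) * ps L z.2)
        ((volume.restrict (Set.Icc (Real.log y) (Real.log (y + h)))).prod volume) :=
      Integrable.mul_prod (integrableOn_const (by simp) : IntegrableOn (fun _ : ℝ => (1 : ℝ))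
        (Set.Icc (Real.log y) (Real.log (y + h)))) (SharpE_ps_int L)
    refine h1.mono' ?_ (Filter.Eventually.of_forall fun z => ?_)
    · refine Continuous.aestronglyMeasurable ?_
      unfold Function.uncurry ps
      fun_prop
    · unfold Function.uncurry
      dsimp only
      have h2 : 0 ≤ ps L z.2 := (Real.exp_pos _).le
      rw [Real.norm_of_nonneg (mul_nonneg h2 (SharpE_gauss _).1), one_mul]
      exact mul_le_of_le_one_right h2 (SharpE_gauss _).2

theorem EE_eq {M : ℕ} (b : ℕ) {δ y h : ℝ} (L : ℝ) (hδ : 0 < δ) (hy : 0 < y) (hh : 0 ≤ h) :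
    y / (Real.sqrt (2 * Real.pi) * ps L (Real.log y)) * EE M b δ L y h =
      SK M b δ L y h - (∫ x : ℝ, rho L y x * KK δ y h x * Real.exp x) / (Nat.totient M : ℝ) := by
  have _ := hh
  have hpi : 0 < Real.sqrt (2 * Real.pi) := Real.sqrt_pos.2 (by positivity)
  have hps : 0 < ps L (Real.log y) := Real.exp_pos _
  have hI : ∀ x : ℝ, ∫ u in Set.Icc (Real.log y) (Real.log (y + h)), Real.exp (-(x - u) ^ 2 / (2 * δ ^ 2)) =
      δ * Real.sqrt (2 * Real.pi) * KK δ y h x := by
    intro x
    unfold KK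
    field_simp
  have h1 : y / (Real.sqrt (2 * Real.pi) * ps L (Real.log y)) * (1 / δ) *
      (∫ u in Set.Icc (Real.log y) (Real.log (y + h)), FB M b δ L u) = SK M b δ L y h := by
    rw [SharpE_FB, ← tsum_mul_left]
    unfold SK
    refine tsum_congr fun n => ?_
    split_ifs
    · rw [hI]
      rcases Nat.eq_zero_or_pos n with rfl | hn
      · simp
      have hn0 : (0 : ℝ) < n := by exact_mod_cast hn
      unfold rho
      rw [Real.exp_sub, Real.exp_log hy, Real.exp_log hn0]
      field_simp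
    · rw [mul_zero]
  have h2 : y / (Real.sqrt (2 * Real.pi) * ps L (Real.log y)) * (1 / δ) *
      (∫ u in Set.Icc (Real.log y) (Real.log (y + h)), MM δ L u) =
      ∫ x : ℝ, rho L y x * KK δ y h x * Real.exp x := by
    rw [SharpE_MM, ← integral_const_mul]
    refine integral_congr_ae (Filter.Eventually.of_forall fun x => ?_)
    dsimp only
    rw [hI]
    unfold rho
    rw [Real.exp_sub, Real.exp_log hy]
    have hx := Real.exp_pos x
    field_simp
  have hFB : IntegrableOn (fun u : ℝ => FB M b δ L u) (Set.Icc (Real.log y) (Real.log (y + h))) :=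
    (FB_cont hδ M b L).continuousOn.integrableOn_Icc
  have hMM : IntegrableOn (fun u : ℝ => MM δ L u / (Nat.totient M : ℝ))
      (Set.Icc (Real.log y) (Real.log (y + h))) :=
    ((FF_cont hδ L).2.div_const _).continuousOn.integrableOn_Icc
  unfold EE
  rw [integral_sub hFB hMM, integral_div, ← h1, ← h2]
  ring

private theorem SharpE_cs {G : ℝ → ℝ} (hG : Continuous G) {a c : ℝ} (hac : a ≤ c) :
    (∫ u in Set.Icc a c, G u) ^ 2 ≤ (c - a) * ∫ u in Set.Icc a c, G u ^ 2 := by
  rcases hac.eq_or_lt with h | h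
  · rw [← h]
    simp
  have hi1 : IntegrableOn G (Set.Icc a c) := hG.continuousOn.integrableOn_Icc
  have hi2 : IntegrableOn (fun u => G u ^ 2) (Set.Icc a c) := (hG.pow 2).continuousOn.integrableOn_Icc
  have hv : volume.real (Set.Icc a c) = c - a := by
    rw [Real.volume_real_Icc_of_le hac]
  obtain ⟨s, hs⟩ : ∃ s, s = ∫ u in Set.Icc a c, G u := ⟨_, rfl⟩
  obtain ⟨q, hq⟩ : ∃ q, q = ∫ u in Set.Icc a c, G u ^ 2 := ⟨_, rfl⟩
  have h0 : 0 ≤ ∫ u in Set.Icc a c, ((c - a) * G u - s) ^ 2 := integral_nonneg fun u => sq_nonneg _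
  have h1 : ∫ u in Set.Icc a c, ((c - a) * G u - s) ^ 2 = (c - a) ^ 2 * q - 2 * (c - a) * s * s + s ^ 2 * (c - a) := by
    have e : ∀ u, ((c - a) * G u - s) ^ 2 = (c - a) ^ 2 * G u ^ 2 - 2 * (c - a) * s * G u + s ^ 2 := by
      intro u
      ring
    simp only [e]
    have j2 : IntegrableOn (fun u => (c - a) ^ 2 * G u ^ 2) (Set.Icc a c) := hi2.const_mul _
    have j1 : IntegrableOn (fun u => 2 * (c - a) * s * G u) (Set.Icc a c) := hi1.const_mul _
    have j0 : IntegrableOn (fun _ : ℝ => s ^ 2) (Set.Icc a c) := integrableOn_const (by simp)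
    have j3 : IntegrableOn (fun u => (c - a) ^ 2 * G u ^ 2 - 2 * (c - a) * s * G u) (Set.Icc a c) := j2.sub j1
    rw [integral_add j3 j0, integral_sub j2 j1, integral_const_mul, integral_const_mul,
      setIntegral_const, hv, ← hs, ← hq, smul_eq_mul]
    ring
  rw [h1] at h0
  rw [← hs, ← hq]
  have h2 : 0 < c - a := by linarith
  have h3 : 0 ≤ (c - a) * ((c - a) * q - s ^ 2) := by nlinarith
  have h4 := nonneg_of_mul_nonneg_right h3 h2
  linarith

private theorem SharpE_inner {X h u c : ℝ} (hX : 0 < X) (hh : 0 < h) (hc : 0 ≤ c) :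
    ∫ y in Set.Icc X (3 * X), (Set.Icc (Real.log y) (Real.log (y + h))).indicator (fun _ => c) u ≤ h * c := by
  have h1 : ∫ y in Set.Icc X (3 * X), (Set.Icc (Real.log y) (Real.log (y + h))).indicator (fun _ => c) u =
     ∫ y in Set.Icc X (3 * X), (Set.Icc (Real.exp u - h) (Real.exp u)).indicator (fun _ => c) y := by
    refine setIntegral_congr_fun measurableSet_Icc ?_
    intro y hy
    have hy0 : 0 < y := hX.trans_le hy.1
    dsimp only
    unfold Set.indicator
    have h2 : (u ∈ Set.Icc (Real.log y) (Real.log (y + h))) ↔ (y ∈ Set.Icc (Real.exp u - h) (Real.exp u)) := by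
      rw [Set.mem_Icc, Set.mem_Icc, Real.log_le_iff_le_exp hy0, Real.le_log_iff_exp_le (by linarith),
        sub_le_iff_le_add]
      exact and_comm
    simp only [h2]
  rw [h1, setIntegral_indicator measurableSet_Icc, setIntegral_const, smul_eq_mul]
  refine mul_le_mul_of_nonneg_right ?_ hc
  refine (measureReal_mono Set.inter_subset_right (by simp)).trans ?_
  rw [Real.volume_real_Icc_of_le (by linarith)]
  linarith

theorem EE_ms {M : ℕ} (b : ℕ) {δ L X h : ℝ} (hδ : 0 < δ) (hX : 0 < X) (hh : 0 < h)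
    (hI : Integrable (fun u : ℝ => (FB M b δ L u - MM δ L u / (Nat.totient M : ℝ)) ^ 2)) :
    ∫ y in Set.Icc X (3 * X), EE M b δ L y h ^ 2 ≤
      h ^ 2 / (X * δ ^ 2) * ∫ u : ℝ, (FB M b δ L u - MM δ L u / (Nat.totient M : ℝ)) ^ 2 := by
  obtain ⟨G, hGe⟩ : ∃ G : ℝ → ℝ, G = fun u : ℝ => FB M b δ L u - MM δ L u / (Nat.totient M : ℝ) := ⟨_, rfl⟩
  have hG : Continuous G := by
    rw [hGe]
    exact SharpE_cont b hδ
  have hI' : Integrable (fun u => G u ^ 2) := by
    rw [hGe]
    exact hI
  have hEE : ∀ y, EE M b δ L y h = 1 / δ * ∫ u in Set.Icc (Real.log y) (Real.log (y + h)), G u := by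
    intro y
    rw [hGe]
    rfl
  have hgoal : ∫ u : ℝ, (FB M b δ L u - MM δ L u / (Nat.totient M : ℝ)) ^ 2 = ∫ u : ℝ, G u ^ 2 := by
    rw [hGe]
  rw [hgoal]
  -- the kernel on the product
  obtain ⟨F, hF⟩ : ∃ F : ℝ → ℝ → ℝ, F = fun y u =>
    (Set.Icc (Real.log y) (Real.log (y + h))).indicator (fun u => G u ^ 2) u := ⟨_, rfl⟩
  have hms : MeasurableSet {z : ℝ × ℝ | Real.log z.1 ≤ z.2 ∧ z.2 ≤ Real.log (z.1 + h)} := by
    refine MeasurableSet.inter ?_ ?_
    · exact measurableSet_le (Real.measurable_log.comp measurable_fst) measurable_snd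
    · exact measurableSet_le measurable_snd (Real.measurable_log.comp (measurable_fst.add_const h))
  have hFind : Function.uncurry F = {z : ℝ × ℝ | Real.log z.1 ≤ z.2 ∧ z.2 ≤ Real.log (z.1 + h)}.indicator
      (fun z => G z.2 ^ 2) := by
    funext z
    rw [hF]
    rfl
  have hdom : Integrable (fun z : ℝ × ℝ => (1 : ℝ) * G z.2 ^ 2)
      ((volume.restrict (Set.Icc X (3 * X))).prod volume) :=
    Integrable.mul_prod (integrableOn_const (by simp) : IntegrableOn (fun _ : ℝ => (1 : ℝ))
      (Set.Icc X (3 * X))) hI'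
  have hFint : Integrable (Function.uncurry F) ((volume.restrict (Set.Icc X (3 * X))).prod volume) := by
    rw [hFind]
    simp only [one_mul] at hdom
    exact hdom.indicator hms
  have hswap := integral_integral_swap hFint
  have hpt : ∀ y ∈ Set.Icc X (3 * X), EE M b δ L y h ^ 2 ≤ h / (X * δ ^ 2) * ∫ u, F y u := by
    intro y hy
    have hy0 : 0 < y := hX.trans_le hy.1
    have h1 := SharpE_cs hG (SharpE_log_le hy0 hh.le)
    have h2 : ∫ u, F y u = ∫ u in Set.Icc (Real.log y) (Real.log (y + h)), G u ^ 2 := by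
      rw [hF]
      exact integral_indicator measurableSet_Icc
    have h3 : Real.log (y + h) - Real.log y ≤ h / X := by
      rw [← Real.log_div (by positivity) hy0.ne']
      refine (Real.log_le_sub_one_of_pos (by positivity)).trans ?_
      rw [add_div, div_self hy0.ne', add_sub_cancel_left]
      exact div_le_div_of_nonneg_left hh.le hX hy.1
    have h4 : 0 ≤ ∫ u in Set.Icc (Real.log y) (Real.log (y + h)), G u ^ 2 :=
      integral_nonneg fun u => sq_nonneg _
    rw [hEE, mul_pow, h2]
    calc (1 / δ) ^ 2 * (∫ u in Set.Icc (Real.log y) (Real.log (y + h)), G u) ^ 2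
        ≤ (1 / δ) ^ 2 * (h / X * ∫ u in Set.Icc (Real.log y) (Real.log (y + h)), G u ^ 2) := by
          refine mul_le_mul_of_nonneg_left ?_ (by positivity)
          exact h1.trans (mul_le_mul_of_nonneg_right h3 h4)
      _ = h / (X * δ ^ 2) * ∫ u in Set.Icc (Real.log y) (Real.log (y + h)), G u ^ 2 := by
          field_simp
  have hinner : ∀ u, ∫ y in Set.Icc X (3 * X), F y u ≤ h * G u ^ 2 := by
    intro u
    have h1 := SharpE_inner (u := u) hX hh (sq_nonneg (G u))
    rw [hF]
    exact h1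
  have hEc : ContinuousOn (fun y : ℝ => EE M b δ L y h) (Set.Icc X (3 * X)) :=
    (EE_cont b hδ hh.le).mono fun y hy => hX.trans_le hy.1
  calc ∫ y in Set.Icc X (3 * X), EE M b δ L y h ^ 2
      ≤ ∫ y in Set.Icc X (3 * X), h / (X * δ ^ 2) * ∫ u, F y u := by
        refine setIntegral_mono_on (hEc.pow 2).integrableOn_Icc ?_ measurableSet_Icc hpt
        exact (hFint.integral_prod_left).const_mul _
    _ = h / (X * δ ^ 2) * ∫ u, ∫ y in Set.Icc X (3 * X), F y u := by
        rw [integral_const_mul, hswap]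
    _ ≤ h / (X * δ ^ 2) * ∫ u, h * G u ^ 2 := by
        refine mul_le_mul_of_nonneg_left ?_ (by positivity)
        exact integral_mono hFint.integral_prod_right (hI'.const_mul h) hinner
    _ = h ^ 2 / (X * δ ^ 2) * ∫ u : ℝ, G u ^ 2 := by
        rw [integral_const_mul]
        ring

end ASC
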