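import Pool.Agent.ASC.Defs

/-!
# ASC.SharpK: the smoothed indicator function of a short interval

`KK δ y h x` (`x = log n`) is the convolution of the indicator function of `[log y, log (y+h)]` with the normal density of standard
deviation `δ`; `rho L y x` is the quotient of the weights `ps L x / exp x` and `ps L (log y) / y`.

PROOF. `KK_nonneg`, `KK_le`: Gaussian integral. `KK_out`: if `x ≤ log y - r` then for `u ≥ log y`, `v = u - x ≥ r`,
`exp(-v²/(2δ²)) ≤ exp(-r²/(2δ²)) exp(-(v-r)²/(2δ²))`, whose integral over `v ≥ r` is `δ√(2π)/2`; the other side is the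
same. `KK_core`: `1 - KK` is the sum of the two tails. `rho_sub`: `v = x - log y`, `w = log y - L ∈ [0, log 3]`:
`rho = exp(-v (1 + w/4) - v²/8)` and `|exp e - 1| ≤ |e| exp |e|`.
-/

namespace ASC

open MeasureTheory ASI

/-- The smoothed indicator function. -/
noncomputable def KK (δ y h x : ℝ) : ℝ :=
  1 / (δ * Real.sqrt (2 * Real.pi)) *
    ∫ u in Set.Icc (Real.log y) (Real.log (y + h)), Real.exp (-(x - u) ^ 2 / (2 * δ ^ 2))

/-- The quotient of the weights. -/
noncomputable def rho (L y x : ℝ) : ℝ := Real.exp (Real.log y - x) * ps L x / ps L (Real.log y)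

private theorem SharpK_gint {δ : ℝ} (hδ : 0 < δ) :
    Integrable fun v : ℝ => Real.exp (-v ^ 2 / (2 * δ ^ 2)) := by
  have h := integrable_exp_neg_mul_sq (show (0 : ℝ) < 1 / (2 * δ ^ 2) by positivity)
  refine h.congr (Filter.Eventually.of_forall fun v => ?_)
  simp only
  congr 1
  ring

private theorem SharpK_gval {δ : ℝ} (hδ : 0 < δ) :
    ∫ v : ℝ, Real.exp (-v ^ 2 / (2 * δ ^ 2)) = δ * Real.sqrt (2 * Real.pi) := by
  have h := integral_gaussian (1 / (2 * δ ^ 2))
  have h1 : (fun v : ℝ => Real.exp (-v ^ 2 / (2 * δ ^ 2))) =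
      fun v : ℝ => Real.exp (-(1 / (2 * δ ^ 2)) * v ^ 2) := by
    funext v
    congr 1
    ring
  rw [h1, h]
  have h2 : Real.pi / (1 / (2 * δ ^ 2)) = δ ^ 2 * (2 * Real.pi) := by
    rw [div_div_eq_mul_div, div_one]
    ring
  rw [h2, Real.sqrt_mul (by positivity), Real.sqrt_sq hδ.le]

private theorem SharpK_gint' {δ : ℝ} (hδ : 0 < δ) (x : ℝ) :
    Integrable fun u : ℝ => Real.exp (-(x - u) ^ 2 / (2 * δ ^ 2)) :=
  (SharpK_gint hδ).comp_sub_left x

private theorem SharpK_gval' {δ : ℝ} (hδ : 0 < δ) (x : ℝ) :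
    ∫ u : ℝ, Real.exp (-(x - u) ^ 2 / (2 * δ ^ 2)) = δ * Real.sqrt (2 * Real.pi) := by
  rw [← SharpK_gval hδ]
  exact integral_sub_left_eq_self (fun v : ℝ => Real.exp (-v ^ 2 / (2 * δ ^ 2))) volume x

private theorem SharpK_s {δ : ℝ} (hδ : 0 < δ) : 0 < δ * Real.sqrt (2 * Real.pi) := by
  have := Real.pi_pos
  positivity

theorem KK_cont {δ : ℝ} (hδ : 0 < δ) (y h : ℝ) : Continuous (KK δ y h) := by
  unfold KK
  refine Continuous.mul continuous_const ?_
  refine continuous_parametric_integral_of_continuous (f := fun x u : ℝ =>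
    Real.exp (-(x - u) ^ 2 / (2 * δ ^ 2))) ?_ isCompact_Icc
  unfold Function.uncurry
  simp only
  have : (2 * δ ^ 2) ≠ 0 := by positivity
  fun_prop

theorem KK_nonneg {δ : ℝ} (hδ : 0 < δ) (y h x : ℝ) : 0 ≤ KK δ y h x := by
  unfold KK
  have h1 := SharpK_s hδ
  refine mul_nonneg (by positivity) (integral_nonneg fun u => ?_)
  exact (Real.exp_pos _).le

theorem KK_le {δ : ℝ} (hδ : 0 < δ) (y h x : ℝ) : KK δ y h x ≤ 1 := by
  unfold KK
  have h1 := SharpK_s hδ
  rw [one_div_mul_eq_div, div_le_one h1, ← SharpK_gval' hδ x]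
  exact setIntegral_le_integral (SharpK_gint' hδ x)
    (Filter.Eventually.of_forall fun u => (Real.exp_pos _).le)

private theorem SharpK_shift {δ r s t : ℝ} (hδ : 0 < δ) (h : t ^ 2 + r ^ 2 ≤ s ^ 2) :
    Real.exp (-s ^ 2 / (2 * δ ^ 2)) ≤
      Real.exp (-(r / δ) ^ 2 / 2) * Real.exp (-t ^ 2 / (2 * δ ^ 2)) := by
  rw [← Real.exp_add]
  refine Real.exp_le_exp.2 ?_
  have h1 : -(r / δ) ^ 2 / 2 + -t ^ 2 / (2 * δ ^ 2) = -(t ^ 2 + r ^ 2) / (2 * δ ^ 2) := by
    field_simp
    ring
  rw [h1]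
  have h2 : (0 : ℝ) < 2 * δ ^ 2 := by positivity
  gcongr

private theorem SharpK_move {δ y h x x' r : ℝ} (hδ : 0 < δ)
    (hx : ∀ u ∈ Set.Icc (Real.log y) (Real.log (y + h)), (x' - u) ^ 2 + r ^ 2 ≤ (x - u) ^ 2) :
    KK δ y h x ≤ Real.exp (-(r / δ) ^ 2 / 2) := by
  have h1 := SharpK_s hδ
  have h2 : KK δ y h x ≤ Real.exp (-(r / δ) ^ 2 / 2) * KK δ y h x' := by
    unfold KK
    rw [mul_left_comm]
    refine mul_le_mul_of_nonneg_left ?_ (by positivity)
    rw [← integral_const_mul]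
    refine setIntegral_mono_on (SharpK_gint' hδ x).integrableOn
      ((SharpK_gint' hδ x').const_mul _).integrableOn measurableSet_Icc fun u hu => ?_
    exact SharpK_shift hδ (hx u hu)
  calc KK δ y h x ≤ Real.exp (-(r / δ) ^ 2 / 2) * KK δ y h x' := h2
    _ ≤ Real.exp (-(r / δ) ^ 2 / 2) * 1 :=
        mul_le_mul_of_nonneg_left (KK_le hδ y h x') (Real.exp_pos _).le
    _ = _ := mul_one _

theorem KK_out {δ y h x r : ℝ} (hδ : 0 < δ) (hr : 0 ≤ r)
    (hx : x ≤ Real.log y - r ∨ Real.log (y + h) + r ≤ x) :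
    KK δ y h x ≤ Real.exp (-(r / δ) ^ 2 / 2) := by
  rcases hx with hx | hx
  · refine SharpK_move (x' := x + r) hδ fun u hu => ?_
    have h1 := hu.1
    nlinarith [mul_nonneg hr (show 0 ≤ u - x - r by linarith)]
  · refine SharpK_move (x' := x - r) hδ fun u hu => ?_
    have h1 := hu.2
    nlinarith [mul_nonneg hr (show 0 ≤ x - r - u by linarith)]

theorem KK_core {δ y h x r : ℝ} (hδ : 0 < δ) (hr : 0 ≤ r) (hx : Real.log y + r ≤ x)
    (hx' : x ≤ Real.log (y + h) - r) : 1 - KK δ y h x ≤ Real.exp (-(r / δ) ^ 2 / 2) := by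
  have hs := SharpK_s hδ
  obtain ⟨a, ha⟩ : ∃ a, a = Real.log y := ⟨_, rfl⟩
  obtain ⟨b, hb⟩ : ∃ b, b = Real.log (y + h) := ⟨_, rfl⟩
  obtain ⟨E, hE⟩ : ∃ E, E = Real.exp (-(r / δ) ^ 2 / 2) := ⟨_, rfl⟩
  obtain ⟨g, hg⟩ : ∃ g : ℝ → ℝ, ∀ v, g v = Real.exp (-v ^ 2 / (2 * δ ^ 2)) :=
    ⟨fun v => Real.exp (-v ^ 2 / (2 * δ ^ 2)), fun v => rfl⟩
  have hE0 : 0 < E := by rw [hE]; exact Real.exp_pos _
  have hg0 : ∀ v, 0 < g v := fun v => by rw [hg]; exact Real.exp_pos _
  have hgi : ∀ z, Integrable fun u : ℝ => g (z - u) := by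
    intro z
    have := SharpK_gint' hδ z
    simpa only [hg] using this
  have hgv : ∀ z, ∫ u : ℝ, g (z - u) = δ * Real.sqrt (2 * Real.pi) := by
    intro z
    have := SharpK_gval' hδ z
    simpa only [hg] using this
  rw [← ha] at hx
  rw [← hb] at hx'
  -- the two tails
  have i1 : Integrable ((Set.Iio a).indicator fun u => g (x - r - u)) :=
    (hgi (x - r)).indicator measurableSet_Iio
  have i2 : Integrable ((Set.Ioi b).indicator fun u => g (x + r - u)) :=
    (hgi (x + r)).indicator measurableSet_Ioi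
  have j1 : Integrable ((Set.Iio (a + r)).indicator fun u => g (x - u)) :=
    (hgi x).indicator measurableSet_Iio
  have j2 : Integrable ((Set.Ioi (b - r)).indicator fun u => g (x - u)) :=
    (hgi x).indicator measurableSet_Ioi
  have e1 : ∫ u, (Set.Iio a).indicator (fun u => g (x - r - u)) u =
      ∫ u, (Set.Iio (a + r)).indicator (fun u => g (x - u)) u := by
    rw [← integral_add_right_eq_self ((Set.Iio (a + r)).indicator fun u => g (x - u)) r]
    refine integral_congr_ae (Filter.Eventually.of_forall fun u => ?_)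
    simp only [Set.indicator_apply, Set.mem_Iio, add_lt_add_iff_right]
    rw [show x - r - u = x - (u + r) by ring]
  have e2 : ∫ u, (Set.Ioi b).indicator (fun u => g (x + r - u)) u =
      ∫ u, (Set.Ioi (b - r)).indicator (fun u => g (x - u)) u := by
    rw [← integral_sub_right_eq_self ((Set.Ioi (b - r)).indicator fun u => g (x - u)) r]
    refine integral_congr_ae (Filter.Eventually.of_forall fun u => ?_)
    simp only [Set.indicator_apply, Set.mem_Ioi, sub_lt_sub_iff_right]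
    rw [show x + r - u = x - (u - r) by ring]
  have k1 : (∫ u, (Set.Iio (a + r)).indicator (fun u => g (x - u)) u) +
      (∫ u, (Set.Ioi (b - r)).indicator (fun u => g (x - u)) u) ≤ δ * Real.sqrt (2 * Real.pi) := by
    rw [← integral_add j1 j2, ← hgv x]
    refine integral_mono (j1.add j2) (hgi x) fun u => ?_
    simp only [Set.indicator_apply, Set.mem_Iio, Set.mem_Ioi]
    have := (hg0 (x - u)).le
    split_ifs with p1 p2 p2
    · exfalso; linarith
    · linarith
    · linarith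
    · linarith
  have k2 : (∫ u, g (x - u)) - (∫ u in Set.Icc a b, g (x - u)) ≤
      E * ((∫ u, (Set.Iio a).indicator (fun u => g (x - r - u)) u) +
        (∫ u, (Set.Ioi b).indicator (fun u => g (x + r - u)) u)) := by
    rw [← integral_indicator measurableSet_Icc, ← integral_sub (hgi x)
      ((hgi x).indicator measurableSet_Icc), ← integral_add i1 i2, ← integral_const_mul]
    refine integral_mono ((hgi x).sub ((hgi x).indicator measurableSet_Icc))
      ((i1.add i2).const_mul E) fun u => ?_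
    simp only [Set.indicator_apply, Set.mem_Iio, Set.mem_Ioi, Set.mem_Icc]
    have q0 := (hg0 (x - u)).le
    have q1 := (hg0 (x - r - u)).le
    have q2 := (hg0 (x + r - u)).le
    by_cases p1 : u < a
    · rw [if_neg (by intro h3; linarith [h3.1]), if_pos p1, sub_zero]
      have h4 : g (x - u) ≤ E * g (x - r - u) := by
        rw [hg, hg, hE]
        refine SharpK_shift hδ ?_
        nlinarith [mul_nonneg hr (show 0 ≤ x - r - u by linarith)]
      have h5 : 0 ≤ if b < u then g (x + r - u) else 0 := by split_ifs <;> [exact q2; exact le_rfl]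
      nlinarith [mul_nonneg hE0.le h5]
    · by_cases p2 : b < u
      · rw [if_neg (by intro h3; linarith [h3.2]), if_neg p1, if_pos p2, sub_zero, zero_add]
        rw [hg, hg, hE]
        refine SharpK_shift hδ ?_
        nlinarith [mul_nonneg hr (show 0 ≤ u - x - r by linarith)]
      · rw [if_pos ⟨not_lt.1 p1, not_lt.1 p2⟩, if_neg p1, if_neg p2]
        simp
  rw [hgv x, e1, e2] at k2
  have k3 : KK δ y h x = (∫ u in Set.Icc a b, g (x - u)) / (δ * Real.sqrt (2 * Real.pi)) := by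
    unfold KK
    rw [one_div_mul_eq_div, ← ha, ← hb]
    simp only [hg]
  have k4 : δ * Real.sqrt (2 * Real.pi) - ∫ u in Set.Icc a b, g (x - u) ≤
      E * (δ * Real.sqrt (2 * Real.pi)) := k2.trans (mul_le_mul_of_nonneg_left k1 hE0.le)
  rw [k3, ← hE, one_sub_div hs.ne', div_le_iff₀ hs]
  exact k4

theorem rho_pos (L y x : ℝ) : 0 < rho L y x := by
  unfold rho ps
  positivity

private theorem SharpK_exp (e : ℝ) : |Real.exp e - 1| ≤ |e| * Real.exp |e| := by
  rcases le_total 0 e with h | h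
  · have h1 := Real.one_sub_le_exp_neg e
    have h2 : 1 ≤ Real.exp e := Real.one_le_exp h
    rw [abs_of_nonneg (by linarith), abs_of_nonneg h]
    have h3 : Real.exp e * (1 - e) ≤ Real.exp e * Real.exp (-e) :=
      mul_le_mul_of_nonneg_left h1 (Real.exp_pos _).le
    rw [← Real.exp_add, add_neg_cancel, Real.exp_zero] at h3
    linarith
  · have h1 := Real.add_one_le_exp e
    have h2 : Real.exp e ≤ 1 := Real.exp_le_one_iff.2 h
    rw [abs_of_nonpos (by linarith), abs_of_nonpos h]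
    have h3 : 1 ≤ Real.exp (-e) := Real.one_le_exp (by linarith)
    nlinarith

theorem rho_sub {X y x : ℝ} (hX : 1 ≤ X) (hy : X ≤ y) (hy' : y ≤ 3 * X) (hx : |x - Real.log y| ≤ 1) :
    |rho (Real.log X) y x - 1| ≤ 8 * |x - Real.log y| := by
  obtain ⟨v, hv⟩ : ∃ v, v = x - Real.log y := ⟨_, rfl⟩
  obtain ⟨w, hw⟩ : ∃ w, w = Real.log y - Real.log X := ⟨_, rfl⟩
  have hX0 : 0 < X := by linarith
  have hy0 : 0 < y := by linarith
  have hw0 : 0 ≤ w := by
    rw [hw]
    have := Real.log_le_log hX0 hy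
    linarith
  have hw1 : w ≤ 6 / 5 := by
    have h1 : Real.log y ≤ Real.log 3 + Real.log X := by
      rw [← Real.log_mul (by norm_num) hX0.ne']
      exact Real.log_le_log hy0 hy'
    have h2 : Real.log 3 ≤ 6 / 5 := by
      have h3 : Real.log (3 / Real.exp 1) ≤ 3 / Real.exp 1 - 1 :=
        Real.log_le_sub_one_of_pos (by positivity)
      rw [Real.log_div (by norm_num) (Real.exp_pos 1).ne', Real.log_exp] at h3
      have h4 : 3 / Real.exp 1 ≤ 6 / 5 := by
        rw [div_le_div_iff₀ (Real.exp_pos 1) (by norm_num)]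
        have := Real.exp_one_gt_d9
        linarith
      linarith
    linarith
  rw [← hv] at hx ⊢
  have h1 : rho (Real.log X) y x = Real.exp (-v * (1 + w / 4) - v ^ 2 / 8) := by
    unfold rho ps
    rw [← Real.exp_add, ← Real.exp_sub]
    congr 1
    have hx1 : x = v + w + Real.log X := by rw [hv, hw]; ring
    have hy1 : Real.log y = w + Real.log X := by rw [hw]; ring
    rw [hx1, hy1]
    ring
  rw [h1]
  obtain ⟨e, he⟩ : ∃ e, e = -v * (1 + w / 4) - v ^ 2 / 8 := ⟨_, rfl⟩
  rw [← he]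
  have h2 : |e| ≤ 29 / 20 * |v| := by
    rw [he]
    calc |(-v * (1 + w / 4) - v ^ 2 / 8)| ≤ |(-v * (1 + w / 4))| + |v ^ 2 / 8| := abs_sub _ _
      _ = |v| * (1 + w / 4) + |v| * (|v| / 8) := by
          rw [abs_mul, abs_neg, abs_of_nonneg (show 0 ≤ 1 + w / 4 by positivity), abs_div, abs_pow,
            abs_of_nonneg (show (0 : ℝ) ≤ 8 by norm_num)]
          ring
      _ ≤ |v| * (1 + 6 / 5 / 4) + |v| * (1 / 8) := by gcongr
      _ ≤ 29 / 20 * |v| := by nlinarith [abs_nonneg v]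
  have h3 : Real.exp |e| ≤ 5 := by
    have h4 : |e| ≤ 3 / 2 := by linarith
    have h5 : Real.exp (3 / 2) ≤ 5 := by
      have h6 : Real.exp (3 / 2) ^ 2 ≤ 5 ^ 2 := by
        rw [← Real.exp_nat_mul]
        have h7 : ((2 : ℕ) : ℝ) * (3 / 2) = ((3 : ℕ) : ℝ) * 1 := by norm_num
        rw [h7, Real.exp_nat_mul]
        have h8 := Real.exp_one_lt_d9
        have h9 : Real.exp 1 ≤ 29 / 10 := by linarith
        calc Real.exp 1 ^ 3 ≤ (29 / 10) ^ 3 := pow_le_pow_left₀ (Real.exp_pos 1).le h9 3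
          _ ≤ 5 ^ 2 := by norm_num
      exact (pow_le_pow_iff_left₀ (Real.exp_pos _).le (by norm_num) (by norm_num)).1 h6
    exact (Real.exp_le_exp.2 h4).trans h5
  calc |Real.exp e - 1| ≤ |e| * Real.exp |e| := SharpK_exp e
    _ ≤ 29 / 20 * |v| * 5 := mul_le_mul h2 h3 (Real.exp_pos _).le (by positivity)
    _ ≤ 8 * |v| := by nlinarith [abs_nonneg v]

end ASC
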