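import Pool.Agent.ASC.SharpK

/-!
# ASC.SharpP: the smoothed and the sharp sum over primes

PROOF. `L = log X`, `δ = h/(X L^(A+3))`, `r = δ L`, so `exp(-(r/δ)²/2) = exp(-L²/2)`. Let `X` be large. All the `n` with
`|log n - log y| ≤ 1` have `Λ(n) ≤ log n ≤ 2L` and `rho ≤ 9`.
(1) `log y + r ≤ log n ≤ log(y+h) - r`: `|rho KK - 1| ≤ |rho - 1| + rho (1 - KK) ≤ 8 log(1+h/y) + 9 exp(-L²/2) ≤ 8h/X + 9 exp(-L²/2)`; there
are at most `h + 1 ≤ 2h` of these `n`, so they contribute at most `4 h L (8 L^(-A-2) + 9 exp(-L²/2))`.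
(2) `|log n - log y| < r` or `|log n - log(y+h)| < r`: `|rho KK - 1_{y<n≤y+h}| ≤ 9`; these `n` lie in two intervals of total
length at most `2 · 4X · 3r`, so (`X r = h/L^(A+2)` is large) they contribute at most `9 · 2L · 30 X r = 540 h L^(-A-1)`.
(3) all other `n` (they are not in `(y, y+h]`): `KK ≤ exp(-L²/2)`, and
`∑_n Λ(n) rho(log n) ≤ (3X/ps L (log y)) ∑_n Λ(n)/n ps L (log n) ≤ C X L^6` (`ASI.div_gauss` or `ASI.P_triv`).
(4) the prime powers `q^j`, `j ≥ 2`, `q^j ≤ 4X`, contribute at most `C √X L²` (compare `AA` in `Pool/Agent/ASI/AA.lean`, step (2) there; or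
Mathlib's `Chebyshev.psi`, `Chebyshev.theta` estimates), which is at most `h L^(-A-1)` as `h ≥ X^th`, `th > 1/2`.
`⌊y⌋₊ < n ≤ ⌊y+h⌋₊` iff `y < n ≤ y + h`.
-/

namespace ASC

open MeasureTheory ArithmeticFunction ASI

/-- The primes in the class of `b`, sharp window. -/
noncomputable def SB (M b : ℕ) (y h : ℝ) : ℝ :=
  ∑ p ∈ (Finset.Ioc ⌊y⌋₊ ⌊y + h⌋₊).filter (fun p => p.Prime ∧ p ≡ b [MOD M]), Real.log p

/-- The primes in the class of `b`, smooth window. -/
noncomputable def SK (M b : ℕ) (δ L y h : ℝ) : ℝ :=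
  ∑' n : ℕ, (if n ≡ b [MOD M] then vonMangoldt n * rho L y (Real.log n) * KK δ y h (Real.log n) else 0)

private theorem SharpP_ps_pos (L x : ℝ) : 0 < ps L x := Real.exp_pos _

/-- The weights. -/
private noncomputable def SharpP_w (L : ℝ) (n : ℕ) : ℝ :=
  ArithmeticFunction.vonMangoldt n / n * ps L (Real.log n)

private theorem SharpP_w_nonneg (L : ℝ) (n : ℕ) : 0 ≤ SharpP_w L n := by
  unfold SharpP_w
  have h1 : 0 ≤ ArithmeticFunction.vonMangoldt n := ArithmeticFunction.vonMangoldt_nonneg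
  have h2 := SharpP_ps_pos L (Real.log n)
  positivity

private theorem SharpP_mass : ∃ C : ℝ, 1 ≤ C ∧ ∀ L : ℝ, Summable (SharpP_w L) ∧
    ∑' n : ℕ, SharpP_w L n ≤ C * (1 + |L|) ^ 6 := by
  obtain ⟨C, hC, h⟩ := div_gauss
  refine ⟨C, hC, fun L => ?_⟩
  obtain ⟨h1, h2, -⟩ := h L
  have hle : ∀ n : ℕ, SharpP_w L n ≤ (n.divisors.card : ℝ) ^ 2 * (1 + Real.log n) ^ 2 / n *
      Real.exp (-(Real.log n - L) ^ 2 / 16) := by
    intro n
    rcases Nat.eq_zero_or_pos n with rfl | hn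
    · simp [SharpP_w]
    · have hn1 : (1 : ℝ) ≤ n := by exact_mod_cast hn
      have hl : 0 ≤ Real.log n := Real.log_nonneg hn1
      have hd : (1 : ℝ) ≤ (n.divisors.card : ℝ) := by
        exact_mod_cast Finset.card_pos.2 ⟨n, Nat.mem_divisors_self n hn.ne'⟩
      have hv : ArithmeticFunction.vonMangoldt n ≤ Real.log n :=
        ArithmeticFunction.vonMangoldt_le_log
      have hv2 : ArithmeticFunction.vonMangoldt n ≤
          (n.divisors.card : ℝ) ^ 2 * (1 + Real.log n) ^ 2 := by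
        have h3 : Real.log n ≤ (1 + Real.log n) ^ 2 := by nlinarith
        have h4 : (1 : ℝ) ≤ (n.divisors.card : ℝ) ^ 2 := one_le_pow₀ hd
        have h5 : 0 ≤ (1 + Real.log n) ^ 2 := sq_nonneg _
        nlinarith
      unfold SharpP_w ps
      have he : Real.exp (-(Real.log n - L) ^ 2 / 8) ≤ Real.exp (-(Real.log n - L) ^ 2 / 16) := by
        refine Real.exp_le_exp.2 ?_
        nlinarith [sq_nonneg (Real.log n - L)]
      refine mul_le_mul ?_ he (Real.exp_pos _).le (by positivity)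
      exact div_le_div_of_nonneg_right hv2 (by positivity)
  have hs : Summable (SharpP_w L) := Summable.of_nonneg_of_le (SharpP_w_nonneg L) hle h1
  exact ⟨hs, (hs.tsum_le_tsum hle h1).trans h2⟩

private theorem SharpP_rho_eq {L y : ℝ} (hy : 0 < y) {n : ℕ} (hn : 1 ≤ n) :
    vonMangoldt n * rho L y (Real.log n) = y / ps L (Real.log y) * SharpP_w L n := by
  have hn0 : (0 : ℝ) < n := by exact_mod_cast hn
  unfold rho SharpP_w
  rw [Real.exp_sub, Real.exp_log hy, Real.exp_log hn0]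
  have := (SharpP_ps_pos L (Real.log y)).ne'
  field_simp

private theorem SharpP_small {c : ℝ} (hc : 0 < c) (K : ℝ) (k : ℕ) :
    ∃ L0 : ℝ, ∀ L : ℝ, L0 ≤ L → K * L ^ k * Real.exp (-(c * L)) ≤ 1 := by
  have h1 : Filter.Tendsto (fun L : ℝ => c * L) Filter.atTop Filter.atTop :=
    Filter.tendsto_id.const_mul_atTop hc
  have h2 := (Real.tendsto_pow_mul_exp_neg_atTop_nhds_zero k).comp h1
  have h3 := h2.const_mul (K / c ^ k)
  rw [mul_zero] at h3
  have h4 := h3.eventually (gt_mem_nhds (zero_lt_one))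
  rw [Filter.eventually_atTop] at h4
  obtain ⟨L0, h5⟩ := h4
  refine ⟨L0, fun L hL => ?_⟩
  have h6 := (h5 L hL).le
  simp only [Function.comp_apply] at h6
  have h7 : K / c ^ k * ((c * L) ^ k * Real.exp (-(c * L))) = K * L ^ k * Real.exp (-(c * L)) := by
    rw [mul_pow]
    have : c ^ k ≠ 0 := pow_ne_zero _ hc.ne'
    field_simp
  rw [← h7]
  exact h6

private theorem SharpP_card {z r : ℝ} (hz : 0 < z) (hr : 0 ≤ r) (hr1 : r ≤ 1) :
    ((Finset.Icc ⌈z * Real.exp (-r)⌉₊ ⌊z * Real.exp r⌋₊).card : ℝ) ≤ 3 * z * r + 1 := by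
  have hsinh : Real.exp r - Real.exp (-r) ≤ 3 * r := by
    have hb := Real.exp_bound' hr hr1 (n := 3) (by norm_num)
    have hb2 := Real.add_one_le_exp (-r)
    simp [Finset.sum_range_succ, Nat.factorial] at hb
    nlinarith [mul_nonneg hr hr, mul_nonneg (mul_nonneg hr hr) (sub_nonneg.2 hr1),
      mul_nonneg hr (sub_nonneg.2 hr1), mul_nonneg (mul_nonneg hr hr) hr]
  rw [Nat.card_Icc]
  have h1 : ((⌊z * Real.exp r⌋₊ + 1 - ⌈z * Real.exp (-r)⌉₊ : ℕ) : ℝ) ≤
      max 0 (z * Real.exp r + 1 - z * Real.exp (-r)) := by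
    rcases le_total (⌈z * Real.exp (-r)⌉₊) (⌊z * Real.exp r⌋₊ + 1) with h | h
    · rw [Nat.cast_sub h]
      push_cast
      have h2 : ((⌊z * Real.exp r⌋₊ : ℕ) : ℝ) ≤ z * Real.exp r := Nat.floor_le (by positivity)
      have h3 : z * Real.exp (-r) ≤ ((⌈z * Real.exp (-r)⌉₊ : ℕ) : ℝ) := Nat.le_ceil _
      exact le_max_of_le_right (by linarith)
    · rw [Nat.sub_eq_zero_of_le h]
      simp
  refine h1.trans (max_le (by positivity) ?_)
  nlinarith

private theorem SharpP_mem {z r : ℝ} (hz : 0 < z) {n : ℕ} (hn : 1 ≤ n)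
    (h1 : Real.log z - r < Real.log n) (h2 : Real.log n < Real.log z + r) :
    n ∈ Finset.Icc ⌈z * Real.exp (-r)⌉₊ ⌊z * Real.exp r⌋₊ := by
  have hn0 : (0 : ℝ) < n := by exact_mod_cast hn
  rw [Finset.mem_Icc, Nat.ceil_le, Nat.le_floor_iff (by positivity)]
  constructor
  · have h3 := Real.exp_le_exp.2 h1.le
    rw [Real.exp_log hn0, Real.exp_sub, Real.exp_log hz] at h3
    rw [Real.exp_neg, ← div_eq_mul_inv]
    exact h3
  · have h3 := Real.exp_le_exp.2 h2.le
    rw [Real.exp_log hn0, Real.exp_add, Real.exp_log hz] at h3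
    exact h3

/-- The pointwise bound. -/
private theorem SharpP_point {X h y δ r E L : ℝ} {n : ℕ} (M b : ℕ) (hX : 1 ≤ X) (hL : L = Real.log X)
    (hh : 0 < h) (hy : X ≤ y) (hy' : y ≤ 3 * X) (hδ : 0 < δ) (hr : 0 < r) (hr1 : r ≤ 1 / 2)
    (hhX : h / X ≤ 1 / 2) (hE : E = Real.exp (-(r / δ) ^ 2 / 2)) :
    |(if n ≡ b [MOD M] then vonMangoldt n * rho L y (Real.log n) * KK δ y h (Real.log n) else 0) -
      (if n ∈ Finset.Ioc ⌊y⌋₊ ⌊y + h⌋₊ then (if n ≡ b [MOD M] then vonMangoldt n else 0) else 0)| ≤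
      E * (y / ps L (Real.log y) * SharpP_w L n) +
      (if n ∈ Finset.Ioc ⌊y⌋₊ ⌊y + h⌋₊ then vonMangoldt n * (8 * (h / X) + 9 * E) else 0) +
      (if n ∈ Finset.Icc ⌈y * Real.exp (-r)⌉₊ ⌊y * Real.exp r⌋₊ then 9 * vonMangoldt n else 0) +
      (if n ∈ Finset.Icc ⌈(y + h) * Real.exp (-r)⌉₊ ⌊(y + h) * Real.exp r⌋₊ then
        9 * vonMangoldt n else 0) := by
  have hX0 : 0 < X := by linarith
  have hy0 : 0 < y := by linarith
  have hyh : 0 < y + h := by linarith
  have hE0 : 0 < E := by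
    rw [hE]
    exact Real.exp_pos _
  have hΛ : 0 ≤ vonMangoldt n := vonMangoldt_nonneg
  have hps := SharpP_ps_pos L (Real.log y)
  have hw := SharpP_w_nonneg L n
  have t1 : 0 ≤ E * (y / ps L (Real.log y) * SharpP_w L n) := by positivity
  have t2 : 0 ≤ (if n ∈ Finset.Ioc ⌊y⌋₊ ⌊y + h⌋₊ then
      vonMangoldt n * (8 * (h / X) + 9 * E) else 0) := by
    split_ifs
    · positivity
    · exact le_rfl
  have t3 : 0 ≤ (if n ∈ Finset.Icc ⌈y * Real.exp (-r)⌉₊ ⌊y * Real.exp r⌋₊ then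
      9 * vonMangoldt n else 0) := by
    split_ifs
    · positivity
    · exact le_rfl
  have t4 : 0 ≤ (if n ∈ Finset.Icc ⌈(y + h) * Real.exp (-r)⌉₊ ⌊(y + h) * Real.exp r⌋₊ then
        9 * vonMangoldt n else 0) := by
    split_ifs
    · positivity
    · exact le_rfl
  by_cases hb : n ≡ b [MOD M]
  swap
  · rw [if_neg hb]
    have : (if n ∈ Finset.Ioc ⌊y⌋₊ ⌊y + h⌋₊ then
        (if n ≡ b [MOD M] then vonMangoldt n else 0) else 0) = (0 : ℝ) := by
      rw [if_neg hb]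
      simp
    rw [this, sub_zero, abs_zero]
    positivity
  rw [if_pos hb, if_pos hb]
  rcases Nat.eq_zero_or_pos n with rfl | hn
  · simp only [ArithmeticFunction.map_zero, zero_mul, ite_self, sub_zero, abs_zero, mul_zero]
    have : 0 ≤ E * (y / ps L (Real.log y) * SharpP_w L 0) := t1
    linarith
  have hn0 : (0 : ℝ) < n := by exact_mod_cast hn
  obtain ⟨x, hx⟩ : ∃ x, x = Real.log n := ⟨_, rfl⟩
  have hmem : n ∈ Finset.Ioc ⌊y⌋₊ ⌊y + h⌋₊ ↔ y < n ∧ (n : ℝ) ≤ y + h := by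
    rw [Finset.mem_Ioc, Nat.floor_lt hy0.le, Nat.le_floor_iff hyh.le]
  have hlogs : Real.log (y + h) - Real.log y ≤ h / X := by
    rw [← Real.log_div hyh.ne' hy0.ne']
    have h1 : (y + h) / y = h / y + 1 := by
      field_simp
      ring
    rw [h1]
    have h2 : Real.log (h / y + 1) ≤ h / y := by
      have := Real.log_le_sub_one_of_pos (show 0 < h / y + 1 by positivity)
      linarith
    have h3 : h / y ≤ h / X := div_le_div_of_nonneg_left hh.le hX0 hy
    linarith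
  have hlog0 : Real.log y ≤ Real.log (y + h) := Real.log_le_log hy0 (by linarith)
  have hK0 := KK_nonneg hδ y h x
  have hK1 := KK_le hδ y h x
  have hρ0 := rho_pos L y x
  rw [← SharpP_rho_eq hy0 hn, ← hx] at t1 ⊢
  by_cases h3 : x ≤ Real.log y - r ∨ Real.log (y + h) + r ≤ x
  · -- far away
    have hnot : n ∉ Finset.Ioc ⌊y⌋₊ ⌊y + h⌋₊ := by
      rw [hmem]
      rintro ⟨h4, h5⟩
      have h6 : Real.log y < x := by rw [hx]; exact Real.log_lt_log hy0 h4
      have h7 : x ≤ Real.log (y + h) := by rw [hx]; exact Real.log_le_log hn0 h5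
      rcases h3 with h8 | h8 <;> linarith
    rw [if_neg hnot, sub_zero, abs_of_nonneg (by positivity)]
    have h4 := KK_out hδ hr.le h3
    rw [← hE] at h4
    have h5 : vonMangoldt n * rho L y x * KK δ y h x ≤ vonMangoldt n * rho L y x * E :=
      mul_le_mul_of_nonneg_left h4 (by positivity)
    rw [if_neg hnot] at t2 ⊢
    linarith
  push Not at h3
  have habs : |x - Real.log y| ≤ 1 := by
    rw [abs_le]
    constructor <;> linarith [h3.1, h3.2]
  have hρs := rho_sub hX hy hy' habs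
  rw [← hL] at hρs
  have hρ9 : rho L y x ≤ 9 := by
    have := (abs_le.1 hρs).2
    linarith
  have hf9 : vonMangoldt n * rho L y x * KK δ y h x ≤ 9 * vonMangoldt n := by
    have h5 : rho L y x * KK δ y h x ≤ 9 * 1 := mul_le_mul hρ9 hK1 hK0 (by norm_num)
    nlinarith
  have hf0 : 0 ≤ vonMangoldt n * rho L y x * KK δ y h x := by positivity
  have hs0 : 0 ≤ (if n ∈ Finset.Ioc ⌊y⌋₊ ⌊y + h⌋₊ then vonMangoldt n else (0 : ℝ)) := by
    split_ifs
    · exact hΛ
    · exact le_rfl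
  have hs1 : (if n ∈ Finset.Ioc ⌊y⌋₊ ⌊y + h⌋₊ then vonMangoldt n else (0 : ℝ)) ≤
      9 * vonMangoldt n := by
    split_ifs
    · linarith
    · positivity
  have hd9 : |vonMangoldt n * rho L y x * KK δ y h x -
      (if n ∈ Finset.Ioc ⌊y⌋₊ ⌊y + h⌋₊ then vonMangoldt n else (0 : ℝ))| ≤ 9 * vonMangoldt n := by
    rw [abs_le]
    constructor <;> linarith
  by_cases h4 : x < Real.log y + r
  · have h5 := SharpP_mem hy0 hn (by rw [← hx]; exact h3.1) (by rw [← hx]; exact h4)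
    rw [if_pos h5] at t3 ⊢
    linarith
  push Not at h4
  by_cases h6 : Real.log (y + h) - r < x
  · have h5 := SharpP_mem hyh hn (by rw [← hx]; exact h6) (by rw [← hx]; exact h3.2)
    rw [if_pos h5] at t4 ⊢
    linarith
  push Not at h6
  have hin : n ∈ Finset.Ioc ⌊y⌋₊ ⌊y + h⌋₊ := by
    rw [hmem]
    constructor
    · have h7 : Real.log y < Real.log n := by rw [← hx]; linarith
      exact (Real.log_lt_log_iff hy0 hn0).1 h7
    · have h7 : Real.log n ≤ Real.log (y + h) := by rw [← hx]; linarith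
      exact (Real.log_le_log_iff hn0 hyh).1 h7
  rw [if_pos hin] at t2 ⊢
  rw [if_pos hin]
  have h7 := KK_core hδ hr.le h4 h6
  rw [← hE] at h7
  have h8 : |x - Real.log y| ≤ h / X := by
    rw [abs_of_nonneg (by linarith)]
    linarith
  have h9 : |rho L y x * KK δ y h x - 1| ≤ 8 * (h / X) + 9 * E := by
    have e1 : rho L y x * KK δ y h x - 1 = (rho L y x - 1) - rho L y x * (1 - KK δ y h x) := by ring
    rw [e1]
    refine (abs_sub _ _).trans ?_
    have e2 : |rho L y x * (1 - KK δ y h x)| ≤ 9 * E := by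
      rw [abs_of_nonneg (mul_nonneg hρ0.le (by linarith))]
      exact mul_le_mul hρ9 h7 (by linarith) (by norm_num)
    linarith
  have h10 : |vonMangoldt n * rho L y x * KK δ y h x - vonMangoldt n| ≤
      vonMangoldt n * (8 * (h / X) + 9 * E) := by
    have e1 : vonMangoldt n * rho L y x * KK δ y h x - vonMangoldt n =
        vonMangoldt n * (rho L y x * KK δ y h x - 1) := by ring
    rw [e1, abs_mul, abs_of_nonneg hΛ]
    exact mul_le_mul_of_nonneg_left h9 hΛ
  linarith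

private theorem SharpP_sumle {F : Finset ℕ} {B c : ℝ} (hc : 0 ≤ c) (hB : 0 ≤ B)
    (hF : ∀ n ∈ F, (n : ℝ) ≤ Real.exp B) :
    ∑ n ∈ F, vonMangoldt n * c ≤ (F.card : ℝ) * (B * c) := by
  rw [← nsmul_eq_mul]
  refine Finset.sum_le_card_nsmul _ _ _ fun n hn => ?_
  refine mul_le_mul_of_nonneg_right ?_ hc
  rcases Nat.eq_zero_or_pos n with rfl | h0
  · simp only [ArithmeticFunction.map_zero]
    exact hB
  · have hn0 : (0 : ℝ) < n := by exact_mod_cast h0
    refine vonMangoldt_le_log.trans ?_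
    have := Real.log_le_log hn0 (hF n hn)
    rwa [Real.log_exp] at this

private theorem SharpP_main {X h y δ r E L C : ℝ} (M b : ℕ) (hX : 1 ≤ X) (hL : L = Real.log X)
    (hL4 : 4 ≤ L)
    (hh : 1 ≤ h) (hy : X ≤ y) (hy' : y ≤ 3 * X) (hδ : 0 < δ) (hr : 0 < r) (hr1 : r ≤ 1 / 2)
    (hhX : h / X ≤ 1 / 2) (hE : E = Real.exp (-(r / δ) ^ 2 / 2))
    (hs : Summable (SharpP_w L)) (hC : ∑' n : ℕ, SharpP_w L n ≤ C * (1 + |L|) ^ 6) :
    |SK M b δ L y h - ∑ n ∈ Finset.Ioc ⌊y⌋₊ ⌊y + h⌋₊,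
      (if n ≡ b [MOD M] then vonMangoldt n else 0)| ≤
      E * (6 * X) * (C * (1 + |L|) ^ 6) + 2 * h * (2 * L * (8 * (h / X) + 9 * E)) +
        2 * (12 * X * r + 1) * (2 * L * 9) := by
  have hX0 : 0 < X := by linarith
  have hy0 : 0 < y := by linarith
  have hh0 : 0 < h := by linarith
  have hyh : 0 < y + h := by linarith
  have hhX2 : h ≤ X / 2 := by
    rw [div_le_iff₀ hX0] at hhX
    linarith
  have hE0 : 0 < E := by
    rw [hE]
    exact Real.exp_pos _
  have hps : 1 / 2 ≤ ps L (Real.log y) := by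
    unfold ps
    have h1 : 0 ≤ Real.log y - L := by
      rw [hL]
      exact sub_nonneg.2 (Real.log_le_log hX0 hy)
    have h2 : Real.log y - L ≤ 2 := by
      have e1 : Real.log y ≤ Real.log (3 * X) := Real.log_le_log hy0 hy'
      rw [Real.log_mul (by norm_num) hX0.ne'] at e1
      have e2 : Real.log 3 ≤ 2 := by
        have := Real.log_le_sub_one_of_pos (show (0 : ℝ) < 3 by norm_num)
        linarith
      rw [hL]
      linarith
    have h3 : -(Real.log y - L) ^ 2 / 8 ≥ -(1 / 2) := by nlinarith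
    have h4 : Real.exp (-(1 / 2)) ≤ Real.exp (-(Real.log y - L) ^ 2 / 8) := Real.exp_le_exp.2 h3
    have h5 := Real.add_one_le_exp (-(1 / 2) : ℝ)
    linarith
  have hps0 : 0 < ps L (Real.log y) := by linarith
  obtain ⟨Fy, hFy⟩ : ∃ F, F = Finset.Ioc ⌊y⌋₊ ⌊y + h⌋₊ := ⟨_, rfl⟩
  obtain ⟨Fa, hFa⟩ : ∃ F, F = Finset.Icc ⌈y * Real.exp (-r)⌉₊ ⌊y * Real.exp r⌋₊ := ⟨_, rfl⟩
  obtain ⟨Fb, hFb⟩ : ∃ F, F = Finset.Icc ⌈(y + h) * Real.exp (-r)⌉₊ ⌊(y + h) * Real.exp r⌋₊ :=
    ⟨_, rfl⟩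
  obtain ⟨cc, hcc⟩ : ∃ cc, cc = 8 * (h / X) + 9 * E := ⟨_, rfl⟩
  have hcc0 : 0 ≤ cc := by
    rw [hcc]
    positivity
  have hpt := fun n : ℕ => SharpP_point (n := n) M b hX hL hh0 hy hy' hδ hr hr1 hhX hE
  rw [← hFy, ← hFa, ← hFb] at hpt
  simp_rw [← hcc] at hpt
  rw [← hFy, ← hcc]
  -- summability
  have s1 : Summable fun n : ℕ => E * (y / ps L (Real.log y) * SharpP_w L n) :=
    (hs.mul_left _).mul_left _
  have s2 : Summable fun n : ℕ => (if n ∈ Fy then vonMangoldt n * cc else 0) :=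
    summable_of_ne_finset_zero (s := Fy) fun n hn => if_neg hn
  have s3 : Summable fun n : ℕ => (if n ∈ Fa then 9 * vonMangoldt n else 0) :=
    summable_of_ne_finset_zero (s := Fa) fun n hn => if_neg hn
  have s4 : Summable fun n : ℕ => (if n ∈ Fb then 9 * vonMangoldt n else 0) :=
    summable_of_ne_finset_zero (s := Fb) fun n hn => if_neg hn
  have s5 : Summable fun n : ℕ => (if n ∈ Fy then
      (if n ≡ b [MOD M] then vonMangoldt n else 0) else (0 : ℝ)) :=
    summable_of_ne_finset_zero (s := Fy) fun n hn => if_neg hn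
  have sB := ((s1.add s2).add s3).add s4
  have s6 : Summable fun n : ℕ => (if n ≡ b [MOD M] then
      vonMangoldt n * rho L y (Real.log n) * KK δ y h (Real.log n) else 0) - (if n ∈ Fy then
      (if n ≡ b [MOD M] then vonMangoldt n else 0) else (0 : ℝ)) :=
    Summable.of_norm_bounded sB fun n => by
      rw [Real.norm_eq_abs]
      exact hpt n
  have s7 : Summable fun n : ℕ => (if n ≡ b [MOD M] then
      vonMangoldt n * rho L y (Real.log n) * KK δ y h (Real.log n) else 0) := by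
    refine (s6.add s5).congr fun n => ?_
    ring
  have e1 : SK M b δ L y h - ∑ n ∈ Fy, (if n ≡ b [MOD M] then vonMangoldt n else 0) =
      ∑' n : ℕ, ((if n ≡ b [MOD M] then
      vonMangoldt n * rho L y (Real.log n) * KK δ y h (Real.log n) else 0) - (if n ∈ Fy then
      (if n ≡ b [MOD M] then vonMangoldt n else 0) else (0 : ℝ))) := by
    rw [s7.tsum_sub s5]
    unfold SK
    congr 1
    rw [tsum_eq_sum (s := Fy) fun n hn => if_neg hn]
    exact Finset.sum_congr rfl fun n hn => (if_pos hn).symm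
  rw [e1]
  have e2 := tsum_of_norm_bounded sB.hasSum (fun n => by
      rw [Real.norm_eq_abs]
      exact hpt n)
  rw [Real.norm_eq_abs] at e2
  refine e2.trans ?_
  rw [((s1.add s2).add s3).tsum_add s4, (s1.add s2).tsum_add s3, s1.tsum_add s2, tsum_mul_left,
    tsum_mul_left, tsum_eq_sum (s := Fy) fun n hn => if_neg hn,
    tsum_eq_sum (s := Fa) fun n hn => if_neg hn, tsum_eq_sum (s := Fb) fun n hn => if_neg hn]
  have hexp1 : Real.exp r ≤ 2 := by
    have h1 : Real.exp r ≤ Real.exp (1 / 2) := Real.exp_le_exp.2 hr1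
    have h2 : Real.exp (1 / 2) ≤ 2 := by
      have h3 : Real.exp (1 / 2) ^ 2 = Real.exp 1 := by
        rw [← Real.exp_nat_mul]
        norm_num
      have h4 := Real.exp_one_lt_d9
      nlinarith [Real.exp_pos (1 / 2)]
    linarith
  have hX16 : 8 * X ≤ Real.exp (2 * L) := by
    have h1 : Real.exp (2 * L) = Real.exp L * Real.exp L := by rw [← Real.exp_add]; ring_nf
    have h2 : Real.exp L = X := by rw [hL, Real.exp_log hX0]
    have h3 : (8 : ℝ) ≤ Real.exp L := by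
      have e3 : Real.exp 4 ≤ Real.exp L := Real.exp_le_exp.2 hL4
      have e4 : Real.exp 4 = Real.exp 1 ^ 4 := by
        rw [← Real.exp_nat_mul]
        norm_num
      have e5 := Real.exp_one_gt_d9
      have e6 : (2 : ℝ) ≤ Real.exp 1 := by linarith
      have e7 : (2 : ℝ) ^ 4 ≤ Real.exp 1 ^ 4 := pow_le_pow_left₀ (by norm_num) e6 4
      rw [← e4] at e7
      linarith
    rw [h1]
    nlinarith
  have hL0 : 0 ≤ 2 * L := by linarith
  have k1 : E * (y / ps L (Real.log y) * ∑' n : ℕ, SharpP_w L n) ≤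
      E * (6 * X) * (C * (1 + |L|) ^ 6) := by
    have h1 : y / ps L (Real.log y) ≤ 6 * X := by
      rw [div_le_iff₀ hps0]
      nlinarith
    have h2 : 0 ≤ ∑' n : ℕ, SharpP_w L n := tsum_nonneg (SharpP_w_nonneg L)
    rw [← mul_assoc]
    exact mul_le_mul (mul_le_mul_of_nonneg_left h1 hE0.le) hC h2 (by positivity)
  have k2 : ∑ n ∈ Fy, (if n ∈ Fy then vonMangoldt n * cc else 0) ≤ 2 * h * (2 * L * cc) := by
    have h1 : ∑ n ∈ Fy, (if n ∈ Fy then vonMangoldt n * cc else 0) =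
        ∑ n ∈ Fy, vonMangoldt n * cc := Finset.sum_congr rfl fun n hn => if_pos hn
    rw [h1]
    have h2 := SharpP_sumle (F := Fy) (B := 2 * L) hcc0 hL0 (fun n hn => by
      rw [hFy, Finset.mem_Ioc, Nat.le_floor_iff hyh.le] at hn
      linarith [hn.2])
    refine h2.trans (mul_le_mul_of_nonneg_right ?_ (by positivity))
    rw [hFy, Nat.card_Ioc]
    have h3 : ⌊y⌋₊ ≤ ⌊y + h⌋₊ := Nat.floor_le_floor (by linarith)
    rw [Nat.cast_sub h3]
    have h4 : ((⌊y + h⌋₊ : ℕ) : ℝ) ≤ y + h := Nat.floor_le hyh.le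
    have h5 : y < (⌊y⌋₊ : ℝ) + 1 := Nat.lt_floor_add_one y
    linarith
  have k34 : ∀ z : ℝ, 0 < z → z ≤ 4 * X → ∀ F : Finset ℕ,
      F = Finset.Icc ⌈z * Real.exp (-r)⌉₊ ⌊z * Real.exp r⌋₊ →
      ∑ n ∈ F, (if n ∈ F then 9 * vonMangoldt n else 0) ≤ (12 * X * r + 1) * (2 * L * 9) := by
    intro z hz hz4 F hF
    have h1 : ∑ n ∈ F, (if n ∈ F then 9 * vonMangoldt n else 0) =
        ∑ n ∈ F, vonMangoldt n * 9 := Finset.sum_congr rfl fun n hn => by
          rw [if_pos hn, mul_comm]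
    rw [h1]
    have h2 := SharpP_sumle (F := F) (B := 2 * L) (c := 9) (by norm_num) hL0 (fun n hn => by
      rw [hF, Finset.mem_Icc, Nat.le_floor_iff (by positivity)] at hn
      have := hn.2
      nlinarith [Real.exp_pos r])
    refine h2.trans (mul_le_mul_of_nonneg_right ?_ (by positivity))
    have h3 := SharpP_card hz hr.le (by linarith)
    rw [← hF] at h3
    nlinarith
  have k3 := k34 y hy0 (by linarith) Fa hFa
  have k4 := k34 (y + h) hyh (by linarith) Fb hFb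
  linarith

private theorem SharpP_powers {X h y L : ℝ} (M b : ℕ) (hX : 1 ≤ X) (hL : L = Real.log X)
    (hL4 : 4 ≤ L) (hh : 1 ≤ h) (hy : X ≤ y) (hy' : y ≤ 3 * X) (hhX : h / X ≤ 1 / 2) :
    |(∑ n ∈ Finset.Ioc ⌊y⌋₊ ⌊y + h⌋₊, (if n ≡ b [MOD M] then vonMangoldt n else 0)) - SB M b y h| ≤
      8 * Real.sqrt X * L := by
  have hX0 : 0 < X := by linarith
  have hy0 : 0 < y := by linarith
  have hh0 : 0 < h := by linarith
  have hyh : 0 < y + h := by linarith
  have hhX2 : h ≤ X / 2 := by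
    rw [div_le_iff₀ hX0] at hhX
    linarith
  have h1 : (∑ n ∈ Finset.Ioc ⌊y⌋₊ ⌊y + h⌋₊, (if n ≡ b [MOD M] then vonMangoldt n else 0)) -
      SB M b y h = ∑ n ∈ (Finset.Ioc ⌊y⌋₊ ⌊y + h⌋₊).filter (fun n => ¬ n.Prime),
        (if n ≡ b [MOD M] then vonMangoldt n else 0) := by
    rw [← Finset.sum_filter_add_sum_filter_not (Finset.Ioc ⌊y⌋₊ ⌊y + h⌋₊) (fun n => n.Prime)]
    have h2 : ∑ n ∈ (Finset.Ioc ⌊y⌋₊ ⌊y + h⌋₊).filter (fun n => n.Prime),
        (if n ≡ b [MOD M] then vonMangoldt n else 0) = SB M b y h := by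
      unfold SB
      rw [← Finset.filter_filter, Finset.sum_filter (p := fun n => n ≡ b [MOD M])]
      refine Finset.sum_congr rfl fun n hn => ?_
      rw [Finset.mem_filter] at hn
      split_ifs
      · exact vonMangoldt_apply_prime hn.2
      · rfl
    rw [h2]
    ring
  rw [h1]
  have h0 : ∀ n : ℕ, 0 ≤ (if n ≡ b [MOD M] then vonMangoldt n else (0 : ℝ)) := by
    intro n
    split_ifs
    · exact vonMangoldt_nonneg
    · exact le_rfl
  rw [abs_of_nonneg (Finset.sum_nonneg fun n _ => h0 n)]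
  have h3 : ∑ n ∈ (Finset.Ioc ⌊y⌋₊ ⌊y + h⌋₊).filter (fun n => ¬ n.Prime),
        (if n ≡ b [MOD M] then vonMangoldt n else 0) ≤
      ∑ n ∈ (Finset.Ioc 0 ⌊4 * X⌋₊).filter (fun n => ¬ n.Prime), vonMangoldt n := by
    calc _ ≤ ∑ n ∈ (Finset.Ioc ⌊y⌋₊ ⌊y + h⌋₊).filter (fun n => ¬ n.Prime), vonMangoldt n := by
          refine Finset.sum_le_sum fun n _ => ?_
          split_ifs
          · exact le_rfl
          · exact vonMangoldt_nonneg
      _ ≤ _ := by
          refine Finset.sum_le_sum_of_subset_of_nonneg ?_ fun n _ _ => vonMangoldt_nonneg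
          intro n hn
          simp only [Finset.mem_filter, Finset.mem_Ioc] at hn ⊢
          refine ⟨⟨by omega, hn.1.2.trans (Nat.floor_le_floor (by linarith))⟩, hn.2⟩
  refine h3.trans ?_
  have h4 := Chebyshev.psi_sub_theta_le (x := 4 * X) (by linarith)
  rw [Chebyshev.psi_sub_theta_eq_sum_not_prime] at h4
  refine h4.trans ?_
  have h5 : Real.sqrt (4 * X) = 2 * Real.sqrt X := by
    rw [Real.sqrt_mul (by norm_num)]
    congr 1
    rw [show (4 : ℝ) = 2 ^ 2 by norm_num, Real.sqrt_sq (by norm_num)]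
  have h6 : Real.log (4 * X) ≤ 2 * L := by
    rw [Real.log_mul (by norm_num) hX0.ne', ← hL]
    have := Real.log_le_sub_one_of_pos (show (0 : ℝ) < 4 by norm_num)
    linarith
  rw [h5]
  have h7 := Real.sqrt_nonneg X
  nlinarith [mul_le_mul_of_nonneg_left h6 h7]

theorem cmp_prime (M b : ℕ) {th : ℝ} (h1 : 1 / 2 < th) (A : ℕ) :
    ∃ X0 : ℝ, 3 ≤ X0 ∧ ∀ X h y : ℝ, X0 ≤ X → X ^ th ≤ h → h ≤ X / Real.log X ^ (A + 2) → X ≤ y → y ≤ 3 * X →
      |SK M b (h / X / Real.log X ^ (A + 3)) (Real.log X) y h - SB M b y h| ≤ h / Real.log X ^ A := by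
  obtain ⟨C, hC1, hC⟩ := SharpP_mass
  obtain ⟨L1, hL1⟩ := SharpP_small (c := 1) one_pos (48 * C * 64) (A + 6)
  obtain ⟨L2, hL2⟩ := SharpP_small (c := 1) one_pos 288 (A + 1)
  obtain ⟨L3, hL3⟩ := SharpP_small (c := th - 1 / 2) (by linarith) 64 (A + 1)
  obtain ⟨L4, hL4⟩ := SharpP_small (c := th) (by linarith) 1 (A + 2)
  obtain ⟨L0, hL0⟩ : ∃ L0 : ℝ, L0 = max (max (max L1 L2) (max L3 L4)) 4000 := ⟨_, rfl⟩
  have hL0a : 4000 ≤ L0 := by rw [hL0]; exact le_max_right _ _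
  have hL01 : L1 ≤ L0 := by
    rw [hL0]
    exact (le_max_left _ _).trans ((le_max_left _ _).trans (le_max_left _ _))
  have hL02 : L2 ≤ L0 := by
    rw [hL0]
    exact (le_max_right _ _).trans ((le_max_left _ _).trans (le_max_left _ _))
  have hL03 : L3 ≤ L0 := by
    rw [hL0]
    exact (le_max_left _ _).trans ((le_max_right _ _).trans (le_max_left _ _))
  have hL04 : L4 ≤ L0 := by
    rw [hL0]
    exact (le_max_right _ _).trans ((le_max_right _ _).trans (le_max_left _ _))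
  refine ⟨Real.exp L0, ?_, ?_⟩
  · have := Real.add_one_le_exp L0
    linarith
  intro X h y hX hXh hhX hy hy'
  have hXp : 0 < X := lt_of_lt_of_le (Real.exp_pos _) hX
  obtain ⟨L, hL⟩ : ∃ L, L = Real.log X := ⟨_, rfl⟩
  have hLL : L0 ≤ L := by
    rw [hL]
    exact (Real.le_log_iff_exp_le hXp).2 hX
  have hX1 : 1 ≤ X := by
    have := Real.add_one_le_exp L0
    linarith
  have hXe : X = Real.exp L := by rw [hL, Real.exp_log hXp]
  rw [← hL] at hhX ⊢
  have hLp : 0 < L := by linarith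
  have hL1' : 1 ≤ L := by linarith
  have e1 := hL1 L (by linarith)
  have e2 := hL2 L (by linarith)
  have e3 := hL3 L (by linarith)
  have e4 := hL4 L (by linarith)
  have hXth : X ^ th = Real.exp (th * L) := by
    rw [hXe, ← Real.exp_mul]
    congr 1
    ring
  -- h is large
  have hhbig : L ^ (A + 2) ≤ h := by
    refine le_trans ?_ hXh
    rw [hXth]
    rw [Real.exp_neg, one_mul, ← div_eq_mul_inv, div_le_one (Real.exp_pos _)] at e4
    exact e4
  have hLA2 : 1 ≤ L ^ (A + 2) := one_le_pow₀ hL1'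
  have hh1 : 1 ≤ h := by linarith
  have hh0 : 0 < h := by linarith
  have hLA : 0 < L ^ A := by positivity
  have hLApos : 0 < L ^ (A + 2) := by positivity
  have hhX' : h / X ≤ 1 / L ^ (A + 2) := by
    rw [div_le_div_iff₀ hXp hLApos]
    rw [le_div_iff₀ hLApos] at hhX
    linarith
  have hL2le : (2 : ℝ) ≤ L ^ (A + 2) := by
    calc (2 : ℝ) ≤ L := by linarith
      _ ≤ L ^ (A + 2) := le_self_pow₀ hL1' (by omega)
  have hhalf : 1 / L ^ (A + 2) ≤ 1 / 2 := one_div_le_one_div_of_le (by norm_num) hL2le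
  obtain ⟨δ, hδ⟩ : ∃ δ, δ = h / X / L ^ (A + 3) := ⟨_, rfl⟩
  have hδ0 : 0 < δ := by
    rw [hδ]
    positivity
  obtain ⟨r, hr⟩ : ∃ r, r = δ * L := ⟨_, rfl⟩
  have hr0 : 0 < r := by
    rw [hr]
    positivity
  have hr2 : r = h / X / L ^ (A + 2) := by
    rw [hr, hδ, pow_succ L (A + 2)]
    field_simp
  have hr1 : r ≤ 1 / 2 := by
    rw [hr2, div_le_iff₀ hLApos]
    calc h / X ≤ 1 / L ^ (A + 2) := hhX'
      _ ≤ 1 / 2 := hhalf
      _ ≤ 1 / 2 * L ^ (A + 2) := by linarith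
  have hrd : r / δ = L := by
    rw [hr]
    field_simp
  obtain ⟨E, hE⟩ : ∃ E, E = Real.exp (-(r / δ) ^ 2 / 2) := ⟨_, rfl⟩
  have hE0 : 0 < E := by
    rw [hE]
    exact Real.exp_pos _
  rw [← hδ]
  have m1 := SharpP_main M b hX1 hL (by linarith) hh1 hy hy' hδ0 hr0 hr1 (hhX'.trans hhalf) hE
    (hC L).1 (hC L).2
  have m2 := SharpP_powers M b hX1 hL (by linarith) hh1 hy hy' (hhX'.trans hhalf)
  have m3 := abs_sub_le (SK M b δ L y h) (∑ n ∈ Finset.Ioc ⌊y⌋₊ ⌊y + h⌋₊,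
      (if n ≡ b [MOD M] then vonMangoldt n else 0)) (SB M b y h)
  refine m3.trans ((add_le_add m1 m2).trans ?_)
  rw [abs_of_pos hLp]
  -- the four terms
  have hEX : E * X ≤ Real.exp (-(1 * L)) := by
    rw [hE, hXe, hrd, ← Real.exp_add]
    exact Real.exp_le_exp.2 (by nlinarith)
  have hE1 : E ≤ Real.exp (-(1 * L)) := by
    rw [hE, hrd]
    exact Real.exp_le_exp.2 (by nlinarith)
  have q0 : 0 < h / L ^ A := by positivity
  have q1 : E * (6 * X) * (C * (1 + L) ^ 6) ≤ 1 / 8 * (h / L ^ A) := by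
    have a1 : (1 + L) ^ 6 ≤ 64 * L ^ 6 := by
      calc (1 + L) ^ 6 ≤ (2 * L) ^ 6 := pow_le_pow_left₀ (by linarith) (by linarith) 6
        _ = 64 * L ^ 6 := by ring
    have a2 : E * (6 * X) * (C * (1 + L) ^ 6) ≤ 6 * Real.exp (-(1 * L)) * (C * (64 * L ^ 6)) := by
      have b1 : E * (6 * X) ≤ 6 * Real.exp (-(1 * L)) := by linarith
      have b2 : C * (1 + L) ^ 6 ≤ C * (64 * L ^ 6) := mul_le_mul_of_nonneg_left a1 (by linarith)
      exact mul_le_mul b1 b2 (by positivity) (by positivity)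
    have a3 : 8 * L ^ A * (6 * Real.exp (-(1 * L)) * (C * (64 * L ^ 6))) ≤ 1 := by
      have : 8 * L ^ A * (6 * Real.exp (-(1 * L)) * (C * (64 * L ^ 6))) =
          48 * C * 64 * L ^ (A + 6) * Real.exp (-(1 * L)) := by
        rw [pow_add]
        ring
      rw [this]
      exact e1
    have a4 : 6 * Real.exp (-(1 * L)) * (C * (64 * L ^ 6)) ≤ 1 / 8 * (1 / L ^ A) := by
      rw [one_div_mul_one_div, le_div_iff₀ (by positivity)]
      linarith
    have a5 : 1 / 8 * (1 / L ^ A) ≤ 1 / 8 * (h / L ^ A) := by gcongr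
    linarith
  have q2 : 2 * h * (2 * L * (8 * (h / X) + 9 * E)) ≤ 2 / 8 * (h / L ^ A) := by
    have a1 : 8 * (h / X) ≤ 8 * (1 / L ^ (A + 2)) := by linarith
    have a2 : 2 * L * (8 * (1 / L ^ (A + 2))) * 2 ≤ 1 / 8 * (1 / L ^ A) := by
      rw [pow_add]
      have : 2 * L * (8 * (1 / (L ^ A * L ^ 2))) * 2 = 32 / L * (1 / L ^ A) := by
        field_simp
        ring
      rw [this]
      have h32 : 32 / L ≤ 1 / 8 := by
        rw [div_le_div_iff₀ hLp (by norm_num)]
        linarith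
      exact mul_le_mul_of_nonneg_right h32 (by positivity)
    have a3 : 2 * L * (9 * E) * 2 ≤ 1 / 8 * (1 / L ^ A) := by
      have b1 : 2 * L * (9 * E) * 2 ≤ 36 * L * Real.exp (-(1 * L)) := by
        nlinarith [mul_le_mul_of_nonneg_left hE1 hLp.le]
      have b2 : 8 * L ^ A * (36 * L * Real.exp (-(1 * L))) ≤ 1 := by
        have : 8 * L ^ A * (36 * L * Real.exp (-(1 * L))) =
            288 * L ^ (A + 1) * Real.exp (-(1 * L)) := by
          rw [pow_succ]
          ring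
        rw [this]
        exact e2
      have b3 : 36 * L * Real.exp (-(1 * L)) ≤ 1 / 8 * (1 / L ^ A) := by
        rw [one_div_mul_one_div, le_div_iff₀ (by positivity)]
        linarith
      linarith
    have a4 : 2 * (2 * L * (8 * (h / X) + 9 * E)) ≤ 2 / 8 * (1 / L ^ A) := by
      have c1 : 2 * L * (8 * (h / X)) ≤ 2 * L * (8 * (1 / L ^ (A + 2))) :=
        mul_le_mul_of_nonneg_left a1 (by linarith)
      linarith
    calc 2 * h * (2 * L * (8 * (h / X) + 9 * E)) = h * (2 * (2 * L * (8 * (h / X) + 9 * E))) := by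
          ring
      _ ≤ h * (2 / 8 * (1 / L ^ A)) := mul_le_mul_of_nonneg_left a4 hh0.le
      _ = 2 / 8 * (h / L ^ A) := by ring
  have q3 : 2 * (12 * X * r + 1) * (2 * L * 9) ≤ 1 / 8 * (h / L ^ A) := by
    have a1 : X * r = h / L ^ (A + 2) := by
      rw [hr2]
      field_simp
    have a2 : 1 ≤ X * r := by
      rw [a1, le_div_iff₀ hLApos]
      linarith
    have a3 : 2 * (12 * X * r + 1) * (2 * L * 9) ≤ 468 * L * (X * r) := by nlinarith
    refine a3.trans ?_
    rw [a1, pow_add]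
    have : 468 * L * (h / (L ^ A * L ^ 2)) = 468 / L * (h / L ^ A) := by
      field_simp
    rw [this]
    have h468 : 468 / L ≤ 1 / 8 := by
      rw [div_le_div_iff₀ hLp (by norm_num)]
      linarith
    exact mul_le_mul_of_nonneg_right h468 q0.le
  have q4 : 8 * Real.sqrt X * L ≤ 1 / 8 * (h / L ^ A) := by
    have a1 : Real.sqrt X = Real.exp (1 / 2 * L) := by
      rw [hXe, Real.sqrt_eq_rpow, ← Real.exp_mul]
      congr 1
      ring
    have a2 : Real.exp (1 / 2 * L) = Real.exp (th * L) * Real.exp (-((th - 1 / 2) * L)) := by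
      rw [← Real.exp_add]
      congr 1
      ring
    rw [a1, a2]
    have a3 : Real.exp (th * L) ≤ h := by rw [← hXth]; exact hXh
    have a4 : 8 * L ^ A * (8 * Real.exp (-((th - 1 / 2) * L)) * L) ≤ 1 := by
      have : 8 * L ^ A * (8 * Real.exp (-((th - 1 / 2) * L)) * L) =
          64 * L ^ (A + 1) * Real.exp (-((th - 1 / 2) * L)) := by
        rw [pow_succ]
        ring
      rw [this]
      exact e3
    have a5 : 8 * Real.exp (-((th - 1 / 2) * L)) * L ≤ 1 / 8 * (1 / L ^ A) := by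
      rw [one_div_mul_one_div, le_div_iff₀ (by positivity)]
      linarith
    calc 8 * (Real.exp (th * L) * Real.exp (-((th - 1 / 2) * L))) * L
        = Real.exp (th * L) * (8 * Real.exp (-((th - 1 / 2) * L)) * L) := by ring
      _ ≤ h * (1 / 8 * (1 / L ^ A)) := by
          refine mul_le_mul a3 a5 (by positivity) hh0.le
      _ = 1 / 8 * (h / L ^ A) := by ring
  linarith

end ASC
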