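import Pool.Agent.ASC.Defs
import Pool.Agent.ASI.SmoothK

/-!
# ASC.SmoothC: smooth sums twisted by `χ ≠ 1`

PROOF. `KS_triv`, `one_gauss`: the norms are at most those of the sums without character (`ASI.KS_triv`,
`ASI.one_gauss`, `ASC.nc_norm`; `‖nc χ n τ‖ ≤ n⁻¹ = ‖ASI.np n τ‖` for `n ≥ 1`).
`KS_bound`: `S(x) = ∑_{n ≤ x} χ(n)` is bounded by `M` (sum over a full period is `0` since `χ ≠ 1`:
`MulChar.sum_eq_zero_of_ne_one`; compare `Pool.Agent.PNE.norm_Ech_le`). Abel summation with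
`h(x) = (log x)^j x^(-1-iτ) exp(-(log x - w)²/8)`: `|∑ χ(n) h(n)| ≤ M ∫_1^∞ |h'(x)| dx` (`h(x) → 0` for `x → ∞`), and the
integral of `|h'|` is estimated in `Pool/Agent/ASI/SmoothK.lean` by `C (1+|w|) (1+|τ|) exp(-w)` (there it is used for the
comparison of the sum with the integral; copy the private lemmas). One can also avoid integrals: sum over blocks of
length `M`, `|h(n) - h(n')| ≤ M sup |h'|` on the block.
-/

namespace ASC

open MeasureTheory Filter Topology ArithmeticFunction ASI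

/-- the majorant -/
private noncomputable def SmoothC_E (w v : ℝ) : ℝ := Real.exp (-(v - w) ^ 2 / 16)

private theorem SmoothC_E_pos (w v : ℝ) : 0 < SmoothC_E w v := Real.exp_pos _

private theorem SmoothC_E_cont (w : ℝ) : Continuous (SmoothC_E w) := by
  unfold SmoothC_E
  fun_prop

private theorem SmoothC_E_int (w : ℝ) : Integrable (SmoothC_E w) := by
  have h := (integrable_exp_neg_mul_sq (show (0 : ℝ) < 1 / 16 by norm_num)).comp_sub_right w
  refine h.congr (Eventually.of_forall fun v => ?_)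
  unfold SmoothC_E
  simp only
  congr 1
  ring

private theorem SmoothC_E_integral (w : ℝ) : ∫ v, SmoothC_E w v = ∫ v, SmoothC_E 0 v := by
  have h := integral_sub_right_eq_self (μ := (volume : Measure ℝ)) (SmoothC_E 0) w
  rw [← h]
  refine integral_congr_ae (Eventually.of_forall fun v => ?_)
  unfold SmoothC_E
  simp only [sub_zero]

/-- the majorant with the factor `exp(-v)` -/
private noncomputable def SmoothC_G (w v : ℝ) : ℝ := Real.exp (-v) * SmoothC_E w v

private theorem SmoothC_G_eq (w v : ℝ) :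
    SmoothC_G w v = Real.exp (4 - w) * SmoothC_E (w - 8) v := by
  unfold SmoothC_G SmoothC_E
  rw [← Real.exp_add, ← Real.exp_add]
  congr 1
  ring

private theorem SmoothC_G_pos (w v : ℝ) : 0 < SmoothC_G w v :=
  mul_pos (Real.exp_pos _) (SmoothC_E_pos _ _)

private theorem SmoothC_G_cont (w : ℝ) : Continuous (SmoothC_G w) := by
  unfold SmoothC_G
  exact (Real.continuous_exp.comp continuous_neg).mul (SmoothC_E_cont w)

private theorem SmoothC_G_int (w : ℝ) : Integrable (SmoothC_G w) := by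
  have h := (SmoothC_E_int (w - 8)).const_mul (Real.exp (4 - w))
  refine h.congr (Eventually.of_forall fun v => ?_)
  exact (SmoothC_G_eq w v).symm

private theorem SmoothC_G_integral (w : ℝ) :
    ∫ v, SmoothC_G w v = Real.exp 4 * (∫ v, SmoothC_E 0 v) * Real.exp (-w) := by
  have h : (fun v => SmoothC_G w v) = fun v => Real.exp (4 - w) * SmoothC_E (w - 8) v := by
    funext v
    exact SmoothC_G_eq w v
  rw [h, integral_const_mul, SmoothC_E_integral, sub_eq_add_neg, Real.exp_add]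
  ring

private theorem SmoothC_exp (a b : ℝ) (h : |a - b| ≤ 1) :
    (1 + |a|) ^ 2 * Real.exp (-a ^ 2 / 8) ≤ 80 * Real.exp (-b ^ 2 / 16) := by
  set t : ℝ := (|a| - 1) ^ 2 / 16 with ht
  have h1 : b ^ 2 ≤ (|a| + 1) ^ 2 := by
    rw [← sq_abs b]
    refine pow_le_pow_left₀ (abs_nonneg _) ?_ 2
    have := abs_sub_abs_le_abs_sub b a
    rw [abs_sub_comm] at this
    linarith
  have h2 : -a ^ 2 / 8 ≤ -b ^ 2 / 16 + 1 / 8 + -t := by
    have h3 := sq_abs a
    rw [ht]
    nlinarith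
  have h4 : Real.exp (-a ^ 2 / 8) ≤
      Real.exp (-b ^ 2 / 16) * Real.exp (1 / 8) * Real.exp (-t) := by
    rw [← Real.exp_add, ← Real.exp_add]
    exact Real.exp_le_exp.2 h2
  have h5 : (1 + |a|) ^ 2 ≤ 32 * (1 + t) := by
    rw [ht]
    nlinarith [sq_nonneg (|a| - 3)]
  have h6 : (1 + t) * Real.exp (-t) ≤ 1 := by
    have h7 := Real.add_one_le_exp t
    calc (1 + t) * Real.exp (-t) ≤ Real.exp t * Real.exp (-t) :=
          mul_le_mul_of_nonneg_right (by linarith) (Real.exp_pos _).le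
      _ = 1 := by rw [← Real.exp_add, add_neg_cancel, Real.exp_zero]
  have h8 : Real.exp (1 / 8) ≤ 2 := by
    have h9 : Real.exp (1 / 8) ≤ Real.exp (Real.log 2) := by
      refine Real.exp_le_exp.2 ?_
      have := Real.log_two_gt_d9
      linarith
    rwa [Real.exp_log (by norm_num)] at h9
  have hb := Real.exp_pos (-b ^ 2 / 16)
  calc (1 + |a|) ^ 2 * Real.exp (-a ^ 2 / 8)
      ≤ (32 * (1 + t)) * (Real.exp (-b ^ 2 / 16) * Real.exp (1 / 8) * Real.exp (-t)) :=
        mul_le_mul h5 h4 (Real.exp_pos _).le (by rw [ht]; positivity)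
    _ = 32 * Real.exp (-b ^ 2 / 16) * Real.exp (1 / 8) * ((1 + t) * Real.exp (-t)) := by ring
    _ ≤ 32 * Real.exp (-b ^ 2 / 16) * 2 * 1 := by
        have h10 : (0 : ℝ) ≤ (1 + t) * Real.exp (-t) := by
          have : 0 ≤ t := by rw [ht]; positivity
          positivity
        gcongr
    _ ≤ 80 * Real.exp (-b ^ 2 / 16) := by linarith

/-- lengths of the intervals -/
private theorem SmoothC_len (n : ℕ) (hn : 1 ≤ n) :
    0 ≤ Real.log (n + 1) - Real.log n ∧ Real.log (n + 1) - Real.log n ≤ 1 / n ∧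
    1 / (n + 1 : ℝ) ≤ Real.log (n + 1) - Real.log n := by
  have hn' : (1 : ℝ) ≤ n := by exact_mod_cast hn
  have hn0 : (0 : ℝ) < n := by linarith
  have h1 : Real.log (n + 1) - Real.log n = Real.log ((n + 1) / n) := by
    rw [Real.log_div (by positivity) (by positivity)]
  have h2 : (1 : ℝ) / (n + 1) ≤ Real.log ((n + 1) / n) := by
    have h3 := Real.one_sub_inv_le_log_of_pos (show (0 : ℝ) < (n + 1) / n by positivity)
    refine le_trans (le_of_eq ?_) h3
    field_simp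
    ring
  have h4 : Real.log ((n + 1) / n) ≤ 1 / n := by
    have h5 := Real.log_le_sub_one_of_pos (show (0 : ℝ) < (n + 1) / n by positivity)
    refine h5.trans (le_of_eq ?_)
    field_simp
    ring
  rw [h1]
  refine ⟨le_trans (by positivity) h2, h4, h2⟩

private theorem SmoothC_half (n : ℕ) (hn : 1 ≤ n) : 1 / (n : ℝ) ≤ 2 * (1 / (n + 1 : ℝ)) := by
  have hn' : (1 : ℝ) ≤ n := by exact_mod_cast hn
  rw [mul_one_div, div_le_div_iff₀ (by linarith) (by linarith)]
  linarith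

private theorem SmoothC_B1 (n : ℕ) (hn : 1 ≤ n) (c K w : ℝ)
    (h : ∀ v ∈ Set.Icc (Real.log n) (Real.log (n + 1)), c ≤ K * SmoothC_E w v) (hc : 0 ≤ c) :
    c / n ≤ 2 * K * ∫ v in (Real.log n)..(Real.log (n + 1)), SmoothC_E w v := by
  obtain ⟨h1, h2, h3⟩ := SmoothC_len n hn
  have h4 : c * (Real.log (n + 1) - Real.log n) ≤
      ∫ v in (Real.log n)..(Real.log (n + 1)), K * SmoothC_E w v := by
    have h5 : ∫ v in (Real.log n)..(Real.log (n + 1)), c =
        c * (Real.log (n + 1) - Real.log n) := by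
      rw [intervalIntegral.integral_const, smul_eq_mul, mul_comm]
    rw [← h5]
    exact intervalIntegral.integral_mono_on (by linarith) intervalIntegrable_const
      (((SmoothC_E_cont w).const_mul K).intervalIntegrable _ _) h
  rw [intervalIntegral.integral_const_mul] at h4
  have h6 := SmoothC_half n hn
  have h7 : c / n ≤ 2 * (c * (Real.log (n + 1) - Real.log n)) := by
    rw [div_eq_mul_one_div]
    calc c * (1 / (n : ℝ)) ≤ c * (2 * (1 / (n + 1 : ℝ))) := mul_le_mul_of_nonneg_left h6 hc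
      _ ≤ c * (2 * (Real.log (n + 1) - Real.log n)) :=
          mul_le_mul_of_nonneg_left (by linarith) hc
      _ = _ := by ring
  calc c / n ≤ 2 * (c * (Real.log (n + 1) - Real.log n)) := h7
    _ ≤ 2 * (K * ∫ v in (Real.log n)..(Real.log (n + 1)), SmoothC_E w v) := by linarith
    _ = _ := by ring

/-- sums of the integrals over the intervals -/
private theorem SmoothC_C (g : ℝ → ℝ) (hg : Continuous g) (hg0 : ∀ v, 0 ≤ g v)
    (hgi : Integrable g) :
    Summable (fun n : ℕ => ∫ v in (Real.log (n + 1 : ℕ))..(Real.log ((n + 1 : ℕ) + 1)), g v) ∧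
    ∑' n : ℕ, ∫ v in (Real.log (n + 1 : ℕ))..(Real.log ((n + 1 : ℕ) + 1)), g v ≤ ∫ v, g v := by
  have h0 : ∀ n : ℕ, 0 ≤ ∫ v in (Real.log (n + 1 : ℕ))..(Real.log ((n + 1 : ℕ) + 1)), g v := by
    intro n
    refine intervalIntegral.integral_nonneg ?_ fun v _ => hg0 v
    have := (SmoothC_len (n + 1) (by omega)).1
    linarith
  have h1 : ∀ N : ℕ, ∑ n ∈ Finset.range N,
      ∫ v in (Real.log (n + 1 : ℕ))..(Real.log ((n + 1 : ℕ) + 1)), g v ≤ ∫ v, g v := by
    intro N
    have h2 := intervalIntegral.sum_integral_adjacent_intervals (f := g) (μ := volume)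
      (a := fun n : ℕ => Real.log (n + 1 : ℕ)) (n := N) fun k _ => hg.intervalIntegrable _ _
    have h3 : ∀ n : ℕ, ∫ v in (Real.log (n + 1 : ℕ))..(Real.log ((n + 1 : ℕ) + 1)), g v =
        ∫ v in (Real.log (n + 1 : ℕ))..(Real.log (n + 1 + 1 : ℕ)), g v := by
      intro n
      push_cast
      rfl
    rw [Finset.sum_congr rfl fun n _ => h3 n, h2]
    rw [intervalIntegral.integral_of_le]
    · exact setIntegral_le_integral hgi (Eventually.of_forall hg0)
    · refine Real.log_le_log (by norm_num) ?_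
      push_cast
      have := Nat.cast_nonneg (α := ℝ) N
      linarith
  exact ⟨summable_of_sum_range_le h0 h1, Real.tsum_le_of_sum_range_le h0 h1⟩

/-- `n^(-1-iτ)` for `n ≥ 1` -/
private theorem SmoothC_np (n : ℕ) (hn : 1 ≤ n) (τ : ℝ) :
    np n τ = Complex.exp (-(τ * Real.log n * Complex.I)) / n := by
  have hn0 : (n : ℂ) ≠ 0 := by
    have : n ≠ 0 := by omega
    exact_mod_cast this
  unfold np
  rw [Complex.cpow_def_of_ne_zero hn0, ← Complex.natCast_log]
  have h1 : ((Real.log n : ℝ) : ℂ) * -(1 + τ * Complex.I) =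
      -(τ * Real.log n * Complex.I) + -((Real.log n : ℝ) : ℂ) := by ring
  rw [h1, Complex.exp_add, Complex.exp_neg ((Real.log n : ℝ) : ℂ), ← Complex.ofReal_exp,
    Real.exp_log (by
      have : (0 : ℝ) < n := by
        have : 0 < n := by omega
        exact_mod_cast this
      exact this)]
  rw [Complex.ofReal_natCast, ← div_eq_mul_inv]

/-- the exponential factor -/
private noncomputable def SmoothC_Φ (w τ v : ℝ) : ℂ :=
  Complex.exp (-(((v : ℂ) - w) ^ 2 / 8) - τ * v * Complex.I)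

private theorem SmoothC_Φ_norm (w τ v : ℝ) : ‖SmoothC_Φ w τ v‖ = Real.exp (-(v - w) ^ 2 / 8) := by
  unfold SmoothC_Φ
  rw [Complex.norm_exp]
  congr 1
  have h1 : (-(((v : ℂ) - w) ^ 2 / 8) - τ * v * Complex.I) =
      ((-(v - w) ^ 2 / 8 : ℝ) : ℂ) + ((-(τ * v) : ℝ) : ℂ) * Complex.I := by
    push_cast
    ring
  rw [h1, Complex.add_re, Complex.ofReal_re, Complex.re_ofReal_mul, Complex.I_re, mul_zero,
    add_zero]

private theorem SmoothC_Φ_deriv (w τ v : ℝ) :
    HasDerivAt (SmoothC_Φ w τ) ((-(((v : ℂ) - w) / 4) - τ * Complex.I) * SmoothC_Φ w τ v) v := by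
  have h1 : HasDerivAt (fun u : ℝ => (u : ℂ)) 1 v := Complex.ofRealCLM.hasDerivAt
  have h2 := ((((h1.sub_const (w : ℂ)).pow 2).div_const 8).neg.sub
    ((h1.const_mul (τ : ℂ)).mul_const Complex.I)).cexp
  refine (h2.congr_deriv ?_)
  unfold SmoothC_Φ
  simp only [Pi.neg_apply, Pi.sub_apply, Pi.pow_apply]
  push_cast
  ring

/-- the function -/
private noncomputable def SmoothC_F (j : ℕ) (w τ v : ℝ) : ℂ := (v : ℂ) ^ j * SmoothC_Φ w τ v

/-- its derivative -/
private noncomputable def SmoothC_F' (j : ℕ) (w τ v : ℝ) : ℂ :=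
  (j * (v : ℂ) ^ (j - 1) + (v : ℂ) ^ j * (-(((v : ℂ) - w) / 4) - τ * Complex.I)) *
    SmoothC_Φ w τ v

private theorem SmoothC_F_deriv (j : ℕ) (w τ v : ℝ) :
    HasDerivAt (SmoothC_F j w τ) (SmoothC_F' j w τ v) v := by
  have h1 : HasDerivAt (fun u : ℝ => (u : ℂ)) 1 v := Complex.ofRealCLM.hasDerivAt
  have h2 := (h1.pow j).mul (SmoothC_Φ_deriv w τ v)
  refine h2.congr_deriv ?_
  unfold SmoothC_F'
  simp only [Pi.pow_apply]
  ring

private theorem SmoothC_F_cont (j : ℕ) (w τ : ℝ) : Continuous (SmoothC_F j w τ) :=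
  continuous_iff_continuousAt.2 fun v => (SmoothC_F_deriv j w τ v).continuousAt

private theorem SmoothC_pow {j : ℕ} (hj : j ≤ 1) (w v : ℝ) :
    |v| ^ j ≤ (1 + |w|) * (1 + |v - w|) := by
  have h1 : |v| ≤ |w| + |v - w| := by
    have := abs_add_le w (v - w)
    rwa [add_sub_cancel] at this
  have h2 := abs_nonneg w
  have h3 := abs_nonneg (v - w)
  interval_cases j
  · rw [pow_zero]
    nlinarith
  · rw [pow_one]
    nlinarith

private theorem SmoothC_F_bound {j : ℕ} (hj : j ≤ 1) (w τ v v' : ℝ) (h : |v - v'| ≤ 1) :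
    ‖SmoothC_F j w τ v‖ ≤ 80 * (1 + |w|) * SmoothC_E w v' := by
  have h1 := SmoothC_exp (v - w) (v' - w) (by rwa [sub_sub_sub_cancel_right])
  have h2 := SmoothC_pow hj w v
  have h3 := abs_nonneg w
  have h4 := abs_nonneg (v - w)
  unfold SmoothC_F
  rw [norm_mul, norm_pow, Complex.norm_real, Real.norm_eq_abs, SmoothC_Φ_norm]
  calc |v| ^ j * Real.exp (-(v - w) ^ 2 / 8)
      ≤ (1 + |w|) * (1 + |v - w|) ^ 2 * Real.exp (-(v - w) ^ 2 / 8) := by
        refine mul_le_mul_of_nonneg_right ?_ (Real.exp_pos _).le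
        refine h2.trans (mul_le_mul_of_nonneg_left ?_ (by linarith))
        nlinarith
    _ = (1 + |w|) * ((1 + |v - w|) ^ 2 * Real.exp (-(v - w) ^ 2 / 8)) := by ring
    _ ≤ (1 + |w|) * (80 * Real.exp (-(v' - w) ^ 2 / 16)) :=
        mul_le_mul_of_nonneg_left h1 (by linarith)
    _ = _ := by
        unfold SmoothC_E
        ring

private theorem SmoothC_F'_bound {j : ℕ} (hj : j ≤ 1) (w τ v v' : ℝ) (h : |v - v'| ≤ 1) :
    ‖SmoothC_F' j w τ v‖ ≤ 160 * (1 + |w|) * (1 + |τ|) * SmoothC_E w v' := by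
  have h1 := SmoothC_exp (v - w) (v' - w) (by rwa [sub_sub_sub_cancel_right])
  have h2 := SmoothC_pow hj w v
  have h3 := abs_nonneg w
  have h4 := abs_nonneg (v - w)
  have h5 := abs_nonneg τ
  have h6 : ‖(j * (v : ℂ) ^ (j - 1) + (v : ℂ) ^ j * (-(((v : ℂ) - w) / 4) - τ * Complex.I))‖ ≤
      2 * ((1 + |w|) * (1 + |τ|)) * (1 + |v - w|) ^ 2 := by
    have h7 : ‖(j * (v : ℂ) ^ (j - 1) : ℂ)‖ ≤ 1 := by
      interval_cases j <;> simp
    have h8 : ‖(-(((v : ℂ) - w) / 4) - τ * Complex.I)‖ ≤ |v - w| / 4 + |τ| := by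
      refine (norm_sub_le _ _).trans (add_le_add ?_ ?_)
      · rw [norm_neg, norm_div, ← Complex.ofReal_sub, Complex.norm_real, Real.norm_eq_abs]
        simp
      · rw [norm_mul, Complex.norm_real, Complex.norm_I, mul_one, Real.norm_eq_abs]
    have h9 : ‖((v : ℂ) ^ j * (-(((v : ℂ) - w) / 4) - τ * Complex.I))‖ ≤
        ((1 + |w|) * (1 + |v - w|)) * (|v - w| / 4 + |τ|) := by
      rw [norm_mul, norm_pow, Complex.norm_real, Real.norm_eq_abs]
      exact mul_le_mul h2 h8 (norm_nonneg _) (by positivity)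
    refine (norm_add_le _ _).trans ((add_le_add h7 h9).trans ?_)
    have h10 : |v - w| / 4 + |τ| ≤ (1 + |v - w|) * (1 + |τ|) := by nlinarith
    have h11 : ((1 + |w|) * (1 + |v - w|)) * (|v - w| / 4 + |τ|) ≤
        ((1 + |w|) * (1 + |v - w|)) * ((1 + |v - w|) * (1 + |τ|)) :=
      mul_le_mul_of_nonneg_left h10 (by positivity)
    have h12 : 1 ≤ ((1 + |w|) * (1 + |v - w|)) * ((1 + |v - w|) * (1 + |τ|)) := by
      have e1 : 1 ≤ (1 + |w|) * (1 + |v - w|) := one_le_mul_of_one_le_of_one_le (by linarith)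
        (by linarith)
      have e2 : 1 ≤ (1 + |v - w|) * (1 + |τ|) := one_le_mul_of_one_le_of_one_le (by linarith)
        (by linarith)
      exact one_le_mul_of_one_le_of_one_le e1 e2
    linarith
  unfold SmoothC_F'
  rw [norm_mul, SmoothC_Φ_norm]
  calc _ ≤ 2 * ((1 + |w|) * (1 + |τ|)) * (1 + |v - w|) ^ 2 * Real.exp (-(v - w) ^ 2 / 8) :=
        mul_le_mul_of_nonneg_right h6 (Real.exp_pos _).le
    _ = 2 * ((1 + |w|) * (1 + |τ|)) * ((1 + |v - w|) ^ 2 * Real.exp (-(v - w) ^ 2 / 8)) := by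
        ring
    _ ≤ 2 * ((1 + |w|) * (1 + |τ|)) * (80 * Real.exp (-(v' - w) ^ 2 / 16)) :=
        mul_le_mul_of_nonneg_left h1 (by positivity)
    _ = _ := by
        unfold SmoothC_E
        ring

private theorem SmoothC_term {n : ℕ} (hn : 1 ≤ n) (j : ℕ) (w τ : ℝ) :
    ((Real.log n ^ j * Real.exp (-(Real.log n - w) ^ 2 / 8) : ℝ) : ℂ) * np n τ =
      SmoothC_F j w τ (Real.log n) / n := by
  rw [SmoothC_np n hn]
  unfold SmoothC_F SmoothC_Φ
  rw [sub_eq_add_neg (-(((Real.log n : ℂ) - w) ^ 2 / 8)), Complex.exp_add]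
  push_cast
  rw [neg_div]
  ring

/-- Smooth sums. -/
noncomputable def KS {M : ℕ} (χ : DirichletCharacter ℂ M) (j : ℕ) (w τ : ℝ) : ℂ :=
  ∑' n : ℕ, ((Real.log n ^ j * Real.exp (-(Real.log n - w) ^ 2 / 8) : ℝ) : ℂ) * nc χ n τ

private theorem SmoothC_npn (n : ℕ) (τ : ℝ) : ‖np n τ‖ = (n : ℝ)⁻¹ := by
  unfold np
  rcases Nat.eq_zero_or_pos n with h | h
  · subst h
    have h0 : (-(1 + (τ : ℂ) * Complex.I)) ≠ 0 := by
      intro h0
      have := congrArg Complex.re h0
      simp at this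
    simp only [Nat.cast_zero]
    rw [Complex.zero_cpow h0, norm_zero]
    simp
  · rw [Complex.norm_natCast_cpow_of_pos h]
    have h1 : (-(1 + (τ : ℂ) * Complex.I)).re = -1 := by simp
    rw [h1, Real.rpow_neg_one]

private theorem SmoothC_le {M : ℕ} (χ : DirichletCharacter ℂ M) (a : ℂ) (n : ℕ) (τ : ℝ) :
    ‖a * nc χ n τ‖ ≤ ‖a * np n τ‖ := by
  rw [norm_mul, norm_mul, SmoothC_npn]
  exact mul_le_mul_of_nonneg_left (nc_norm χ n τ) (norm_nonneg _)

private theorem SmoothC_dom {M : ℕ} (χ : DirichletCharacter ℂ M) (a : ℕ → ℂ) (τ C : ℝ)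
    (h : Summable (fun n : ℕ => ‖a n * np n τ‖)) (hC : ∑' n : ℕ, ‖a n * np n τ‖ ≤ C) :
    Summable (fun n : ℕ => ‖a n * nc χ n τ‖) ∧ ∑' n : ℕ, ‖a n * nc χ n τ‖ ≤ C := by
  have h1 : Summable (fun n : ℕ => ‖a n * nc χ n τ‖) :=
    Summable.of_nonneg_of_le (fun n => norm_nonneg _) (fun n => SmoothC_le χ _ n τ) h
  exact ⟨h1, (h1.tsum_le_tsum (fun n => SmoothC_le χ _ n τ) h).trans hC⟩

theorem KS_triv {M : ℕ} (χ : DirichletCharacter ℂ M) : ∃ C : ℝ, 1 ≤ C ∧ ∀ (j : ℕ) (w τ : ℝ), j ≤ 1 →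
    Summable (fun n : ℕ => ‖((Real.log n ^ j * Real.exp (-(Real.log n - w) ^ 2 / 8) : ℝ) : ℂ) * nc χ n τ‖) ∧
    ∑' n : ℕ, ‖((Real.log n ^ j * Real.exp (-(Real.log n - w) ^ 2 / 8) : ℝ) : ℂ) * nc χ n τ‖ ≤
      C * (1 + |w|) := by
  obtain ⟨C, hC, h⟩ := ASI.KS_triv
  refine ⟨C, hC, fun j w τ hj => ?_⟩
  obtain ⟨h1, h2⟩ := h j w τ hj
  exact SmoothC_dom χ _ τ _ h1 h2

private theorem SmoothC_shift {M : ℕ} (χ : DirichletCharacter ℂ M) (k : ℕ) :
    ∑ i ∈ Finset.range M, χ ((k + i : ℕ) : ZMod M) = ∑ i ∈ Finset.range M, χ ((i : ℕ) : ZMod M) := by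
  induction k with
  | zero => simp
  | succ k ih =>
    rw [← ih]
    have h1 := Finset.sum_range_succ (fun i => χ ((k + i : ℕ) : ZMod M)) M
    have h2 := Finset.sum_range_succ' (fun i => χ ((k + i : ℕ) : ZMod M)) M
    rw [h1] at h2
    have h3 : χ ((k + M : ℕ) : ZMod M) = χ ((k + 0 : ℕ) : ZMod M) := by simp
    rw [h3] at h2
    have h4 := add_right_cancel h2
    rw [h4]
    refine Finset.sum_congr rfl fun i _ => ?_
    congr 2
    ring

private theorem SmoothC_zmod {M : ℕ} [NeZero M] (χ : DirichletCharacter ℂ M) :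
    ∑ i ∈ Finset.range M, χ ((i : ℕ) : ZMod M) = ∑ a : ZMod M, χ a := by
  refine Finset.sum_bij' (fun i _ => ((i : ℕ) : ZMod M)) (fun a _ => a.val) ?_ ?_ ?_ ?_ ?_
  · intro i _
    exact Finset.mem_univ _
  · intro a _
    exact Finset.mem_range.mpr (ZMod.val_lt a)
  · intro i hi
    exact ZMod.val_natCast_of_lt (Finset.mem_range.mp hi)
  · intro a _
    exact ZMod.natCast_zmod_val a
  · intro i _
    rfl

private theorem SmoothC_S {M : ℕ} [NeZero M] {χ : DirichletCharacter ℂ M} (hχ : χ ≠ 1) (N : ℕ) :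
    ‖∑ i ∈ Finset.range N, χ ((i + 1 : ℕ) : ZMod M)‖ ≤ M := by
  have hper : ∀ k : ℕ, ∑ i ∈ Finset.range (k + M), χ ((i + 1 : ℕ) : ZMod M) =
      ∑ i ∈ Finset.range k, χ ((i + 1 : ℕ) : ZMod M) := by
    intro k
    rw [Finset.sum_range_add]
    have h1 : ∑ x ∈ Finset.range M, χ ((k + x + 1 : ℕ) : ZMod M) = 0 := by
      have h2 := SmoothC_shift χ (k + 1)
      rw [SmoothC_zmod, MulChar.sum_eq_zero_of_ne_one hχ] at h2
      rw [← h2]
      refine Finset.sum_congr rfl fun i _ => ?_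
      congr 2
      ring
    rw [h1, add_zero]
  have hq : ∀ q r : ℕ, ∑ i ∈ Finset.range (r + M * q), χ ((i + 1 : ℕ) : ZMod M) =
      ∑ i ∈ Finset.range r, χ ((i + 1 : ℕ) : ZMod M) := by
    intro q r
    induction q with
    | zero => simp
    | succ q ih =>
      have e : r + M * (q + 1) = r + M * q + M := by ring
      rw [e, hper, ih]
  have h := hq (N / M) (N % M)
  rw [Nat.mod_add_div] at h
  rw [h]
  refine (norm_sum_le _ _).trans ?_
  refine (Finset.sum_le_card_nsmul _ _ 1 fun i _ => χ.norm_le_one _).trans ?_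
  rw [Finset.card_range, nsmul_eq_mul, mul_one]
  exact_mod_cast (Nat.mod_lt N (NeZero.pos M)).le

private theorem SmoothC_abel (a g : ℕ → ℂ) (N : ℕ) :
    ∑ n ∈ Finset.range N, a n * g n = (∑ i ∈ Finset.range N, a i) * g N +
      ∑ n ∈ Finset.range N, (∑ i ∈ Finset.range (n + 1), a i) * (g n - g (n + 1)) := by
  induction N with
  | zero => simp
  | succ N ih =>
    rw [Finset.sum_range_succ, ih, Finset.sum_range_succ (fun n =>
      (∑ i ∈ Finset.range (n + 1), a i) * (g n - g (n + 1))), Finset.sum_range_succ a N]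
    ring

private theorem SmoothC_step {j : ℕ} (hj : j ≤ 1) (w τ : ℝ) (n : ℕ) (hn : 1 ≤ n) :
    ‖SmoothC_F j w τ (Real.log n) / n - SmoothC_F j w τ (Real.log (n + 1)) / (n + 1)‖ ≤
      320 * ((1 + |w|) * (1 + |τ|)) *
        ∫ v in (Real.log n)..(Real.log (n + 1)), SmoothC_G w v := by
  obtain ⟨l1, l2, l3⟩ := SmoothC_len n hn
  have hw := abs_nonneg w
  have hτ := abs_nonneg τ
  have hn' : (1 : ℝ) ≤ n := by exact_mod_cast hn
  have hn0 : (n : ℂ) ≠ 0 := by exact_mod_cast (by omega : n ≠ 0)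
  have hn1 : ((n : ℂ) + 1) ≠ 0 := by exact_mod_cast (by omega : n + 1 ≠ 0)
  set A : ℝ := (1 + |w|) * (1 + |τ|) with hA
  have hA1 : 1 + |w| ≤ A := by
    rw [hA]
    nlinarith [mul_nonneg hw hτ]
  set J : ℝ := ∫ v in (Real.log n)..(Real.log (n + 1)), SmoothC_E w v with hJ
  set I : ℝ := ∫ v in (Real.log n)..(Real.log (n + 1)), SmoothC_G w v with hI
  have hJ0 : 0 ≤ J := intervalIntegral.integral_nonneg (by linarith) fun v _ =>
    (SmoothC_E_pos w v).le
  have hJI : J / (n + 1) ≤ I := by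
    rw [hJ, hI, div_eq_inv_mul, ← intervalIntegral.integral_const_mul]
    refine intervalIntegral.integral_mono_on (by linarith)
      (((SmoothC_E_cont w).const_mul _).intervalIntegrable _ _)
      ((SmoothC_G_cont w).intervalIntegrable _ _) fun v hv => ?_
    unfold SmoothC_G
    refine mul_le_mul_of_nonneg_right ?_ (SmoothC_E_pos w v).le
    rw [← Real.exp_log (show (0 : ℝ) < (n : ℝ) + 1 by positivity), ← Real.exp_neg]
    refine Real.exp_le_exp.2 ?_
    have := hv.2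
    linarith
  have e1 : SmoothC_F j w τ (Real.log n) / n - SmoothC_F j w τ (Real.log (n + 1)) / (n + 1) =
      (SmoothC_F j w τ (Real.log n) / n) * (1 / (n + 1)) +
        (SmoothC_F j w τ (Real.log n) - SmoothC_F j w τ (Real.log (n + 1))) * (1 / (n + 1)) := by
    field_simp
    ring
  have hnorm : ‖(1 : ℂ) / (n + 1)‖ = 1 / (n + 1) := by
    rw [norm_div, norm_one]
    congr 1
    have : ((n : ℂ) + 1) = ((n + 1 : ℕ) : ℂ) := by push_cast; ring
    rw [this, Complex.norm_natCast]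
    push_cast
    ring
  have b1 : ‖SmoothC_F j w τ (Real.log n) / n‖ ≤ 160 * A * J := by
    rw [norm_div, Complex.norm_natCast]
    refine (SmoothC_B1 n hn _ (80 * (1 + |w|)) w (fun v hv => SmoothC_F_bound hj w τ _ v ?_)
      (norm_nonneg _)).trans ?_
    · rw [abs_sub_comm, abs_of_nonneg (by linarith [hv.1])]
      have := hv.2
      have : 1 / (n : ℝ) ≤ 1 := by
        rw [div_le_one (by linarith)]
        exact hn'
      linarith
    · rw [← hJ]
      nlinarith
  have b2 : ‖SmoothC_F j w τ (Real.log n) - SmoothC_F j w τ (Real.log (n + 1))‖ ≤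
      160 * A * J := by
    have c1 : ∫ v in (Real.log n)..(Real.log (n + 1)), SmoothC_F' j w τ v =
        SmoothC_F j w τ (Real.log (n + 1)) - SmoothC_F j w τ (Real.log n) := by
      refine intervalIntegral.integral_eq_sub_of_hasDerivAt
        (fun v _ => SmoothC_F_deriv j w τ v) ?_
      have : Continuous (SmoothC_F' j w τ) := by
        unfold SmoothC_F' SmoothC_Φ
        fun_prop
      exact this.intervalIntegrable _ _
    rw [norm_sub_rev, ← c1]
    refine (intervalIntegral.norm_integral_le_of_norm_le (g := fun v => 160 * A * SmoothC_E w v)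
      (by linarith) (Eventually.of_forall fun v _ => ?_)
      (((SmoothC_E_cont w).const_mul _).intervalIntegrable _ _)).trans (le_of_eq ?_)
    · have := SmoothC_F'_bound hj w τ v v (by simp)
      refine this.trans (le_of_eq ?_)
      rw [hA]
      ring
    · rw [intervalIntegral.integral_const_mul]
  rw [e1]
  refine (norm_add_le _ _).trans ?_
  rw [norm_mul, norm_mul, hnorm]
  have hp : (0 : ℝ) ≤ 1 / (n + 1) := by positivity
  calc ‖SmoothC_F j w τ (Real.log n) / n‖ * (1 / (n + 1)) +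
        ‖SmoothC_F j w τ (Real.log n) - SmoothC_F j w τ (Real.log (n + 1))‖ * (1 / (n + 1))
      ≤ 160 * A * J * (1 / (n + 1)) + 160 * A * J * (1 / (n + 1)) :=
        add_le_add (mul_le_mul_of_nonneg_right b1 hp) (mul_le_mul_of_nonneg_right b2 hp)
    _ = 320 * A * (J / (n + 1)) := by ring
    _ ≤ 320 * A * I := mul_le_mul_of_nonneg_left hJI (by positivity)

theorem KS_bound {M : ℕ} [NeZero M] {χ : DirichletCharacter ℂ M} (hχ : χ ≠ 1) :
    ∃ C : ℝ, 1 ≤ C ∧ ∀ (j : ℕ) (w τ : ℝ), j ≤ 1 →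
    ‖KS χ j w τ‖ ≤ C * (1 + |w|) * (1 + |τ|) * Real.exp (-w) := by
  set c0 : ℝ := ∫ v, SmoothC_E 0 v with hc0
  have hc0' : 0 ≤ c0 := integral_nonneg fun v => (SmoothC_E_pos 0 v).le
  set c4 : ℝ := Real.exp 4 * c0 with hc4
  have hc4' : 0 ≤ c4 := mul_nonneg (Real.exp_pos _).le hc0'
  have hM0 : (0 : ℝ) ≤ M := Nat.cast_nonneg M
  refine ⟨1 + M * (320 * c4), by nlinarith [mul_nonneg hM0 hc4'], fun j w τ hj => ?_⟩
  have hw := abs_nonneg w
  have hτ := abs_nonneg τ
  set A : ℝ := (1 + |w|) * (1 + |τ|) with hA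
  have hA0 : 0 ≤ A := by positivity
  obtain ⟨CT, -, htriv⟩ := KS_triv χ
  have hsumn := (htriv j w τ hj).1
  have hsum := hsumn.of_norm
  obtain ⟨CA, -, htA⟩ := ASI.KS_triv
  have hsA := (htA j w τ hj).1
  set g : ℕ → ℂ := fun n => SmoothC_F j w τ (Real.log (n + 1 : ℕ)) / ((n + 1 : ℕ) : ℂ) with hg
  set a : ℕ → ℂ := fun n => χ ((n + 1 : ℕ) : ZMod M) with ha
  have hterm : ∀ n : ℕ, ((Real.log (n + 1 : ℕ) ^ j *
      Real.exp (-(Real.log (n + 1 : ℕ) - w) ^ 2 / 8) : ℝ) : ℂ) * nc χ (n + 1) τ = a n * g n := by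
    intro n
    have h1 := SmoothC_term (by omega : 1 ≤ n + 1) j w τ
    have h2 : nc χ (n + 1) τ = a n * np (n + 1) τ := rfl
    have h3 : g n = SmoothC_F j w τ (Real.log (n + 1 : ℕ)) / ((n + 1 : ℕ) : ℂ) := rfl
    rw [h2, h3, ← h1]
    ring
  have h0 : nc χ 0 τ = 0 := by
    rw [← norm_le_zero_iff]
    simpa using nc_norm χ 0 τ
  have hs1 : Summable fun n : ℕ => a n * g n := by
    have := (summable_nat_add_iff 1).2 hsum
    exact this.congr fun n => hterm n
  have e1 : KS χ j w τ = ∑' n : ℕ, a n * g n := by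
    unfold KS
    rw [hsum.tsum_eq_zero_add, h0, mul_zero, zero_add]
    exact tsum_congr fun n => hterm n
  have hg0 : Tendsto (fun n => ‖g n‖) atTop (𝓝 0) := by
    have h1 := ((summable_nat_add_iff 1).2 hsA).tendsto_atTop_zero
    refine h1.congr fun n => ?_
    rw [SmoothC_term (by omega : 1 ≤ n + 1) j w τ]
  obtain ⟨hg1, hg2⟩ := SmoothC_C (SmoothC_G w) (SmoothC_G_cont w)
    (fun v => (SmoothC_G_pos w v).le) (SmoothC_G_int w)
  have hG : ∫ v, SmoothC_G w v = c4 * Real.exp (-w) := by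
    rw [SmoothC_G_integral, hc4]
  have hdiff : ∀ n : ℕ, ‖g n - g (n + 1)‖ ≤ 320 * A *
      ∫ v in (Real.log (n + 1 : ℕ))..(Real.log ((n + 1 : ℕ) + 1)), SmoothC_G w v := by
    intro n
    have h1 := SmoothC_step hj w τ (n + 1) (by omega)
    rw [← hA] at h1
    have h2 : g (n + 1) = SmoothC_F j w τ (Real.log (((n + 1 : ℕ) : ℝ) + 1)) /
        (((n + 1 : ℕ) : ℂ) + 1) := by
      rw [hg]
      push_cast
      rfl
    rw [h2]
    exact h1
  have hpart : ∀ N : ℕ, ‖∑ n ∈ Finset.range N, a n * g n‖ ≤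
      M * ‖g N‖ + M * (320 * A * (c4 * Real.exp (-w))) := by
    intro N
    rw [SmoothC_abel]
    refine (norm_add_le _ _).trans (add_le_add ?_ ?_)
    · rw [norm_mul]
      exact mul_le_mul_of_nonneg_right (SmoothC_S hχ N) (norm_nonneg _)
    · calc ‖∑ n ∈ Finset.range N, (∑ i ∈ Finset.range (n + 1), a i) * (g n - g (n + 1))‖
          ≤ ∑ n ∈ Finset.range N, M * (320 * A *
              ∫ v in (Real.log (n + 1 : ℕ))..(Real.log ((n + 1 : ℕ) + 1)), SmoothC_G w v) := by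
            refine (norm_sum_le _ _).trans (Finset.sum_le_sum fun n _ => ?_)
            rw [norm_mul]
            exact mul_le_mul (SmoothC_S hχ _) (hdiff n) (norm_nonneg _) hM0
        _ = M * (320 * A * ∑ n ∈ Finset.range N,
              ∫ v in (Real.log (n + 1 : ℕ))..(Real.log ((n + 1 : ℕ) + 1)), SmoothC_G w v) := by
            rw [Finset.mul_sum, Finset.mul_sum]
        _ ≤ M * (320 * A * (c4 * Real.exp (-w))) := by
            refine mul_le_mul_of_nonneg_left (mul_le_mul_of_nonneg_left ?_ (by positivity)) hM0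
            rw [← hG]
            refine le_trans (hg1.sum_le_tsum _ fun n _ => ?_) hg2
            refine intervalIntegral.integral_nonneg ?_ fun v _ => (SmoothC_G_pos w v).le
            have := (SmoothC_len (n + 1) (by omega)).1
            linarith
  have hlim : ‖KS χ j w τ‖ ≤ M * 0 + M * (320 * A * (c4 * Real.exp (-w))) := by
    rw [e1]
    exact le_of_tendsto_of_tendsto hs1.hasSum.tendsto_sum_nat.norm
      ((hg0.const_mul _).add_const _) (Eventually.of_forall hpart)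
  refine hlim.trans ?_
  have hew := Real.exp_pos (-w)
  have h5 : 0 ≤ A * Real.exp (-w) := by positivity
  calc (M : ℝ) * 0 + M * (320 * A * (c4 * Real.exp (-w)))
      = (M * (320 * c4)) * (A * Real.exp (-w)) := by ring
    _ ≤ (1 + M * (320 * c4)) * (A * Real.exp (-w)) := by nlinarith
    _ = _ := by rw [hA]; ring

theorem one_gauss {M : ℕ} (χ : DirichletCharacter ℂ M) : ∃ C : ℝ, 1 ≤ C ∧ ∀ (w τ : ℝ),
    Summable (fun n : ℕ => ‖(Real.exp (-(3 * (Real.log n - w) ^ 2) / 4) : ℂ) * nc χ n τ‖) ∧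
    ∑' n : ℕ, ‖(Real.exp (-(3 * (Real.log n - w) ^ 2) / 4) : ℂ) * nc χ n τ‖ ≤ C := by
  obtain ⟨C, hC, h⟩ := ASI.one_gauss
  refine ⟨C, hC, fun w τ => ?_⟩
  obtain ⟨h1, h2⟩ := h w τ
  exact SmoothC_dom χ _ τ _ h1 h2

end ASC
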